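import Pool.Agent.V11321.RS.Conn
import Pool.Agent.H362P.Base

/-!
Connection probabilities of finite sets for bond percolation on `ℤ²` with `p ≥ 1/2`: adding a
point.
-/

set_option autoImplicit false

namespace Pool.Agent.V11321.RS

open H974 Finset MeasureTheory Pool.Agent.W424.NC H31K H362P
open Pool.Agent.H160R2.CV Pool.Agent.H160R2.CV.Quad

theorem pr_CAq {q : ℝ} (hq : 1/2 ≤ q) (h1 : q ≤ 1) {c : Vtx} {n : ℕ} (hn : 1 ≤ n)
    {S : Finset Edg} (hS : bo c (3 * n) ⊆ S) :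
    (1 / 2 : ℝ) ^ 188 ≤ Pr (fun _ => q) S (CA c n (3 * n)) := by
  have h0 : Pr (fun _ => q) S (CA c n (3 * n)) =
      Pr (fun _ => q) ((trl (-c.1) (-c.2)).mp S) (Circ n ((3 * n : ℕ) : ℤ)) :=
    (LSym.pr (trl (-c.1) (-c.2)) q S _).symm
  rw [h0]
  have hn' : (0 : ℤ) < n := by exact_mod_cast hn
  have hsub : boxE (3 * n) ⊆ (trl (-c.1) (-c.2)).mp S := by
    rw [← trl_bo c (3 * n)]
    exact LSym.mp_mono _ hS
  refine le_trans ?_ (pr_Circ (q := q) (by linarith) h1 (R1 := n)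
      (R2 := ((3 * n : ℕ) : ℤ)) (by positivity) (by push_cast; omega) hsub)
  have k := rsw_p (p := q) hq h1 (n := n) (w := 2 * ((3 * n : ℕ) : ℤ))
      (h := ((3 * n : ℕ) : ℤ) - n) hn' (by push_cast; omega) (by push_cast; omega)
      (by push_cast; omega)
  calc (1 / 2 : ℝ) ^ 188 = ((1 / 2 : ℝ) ^ 47) ^ 4 := by norm_num
      _ ≤ _ := pow_le_pow_left₀ (by positivity) k 4

theorem pr_LAq {q : ℝ} (h0 : 0 ≤ q) (h1 : q ≤ 1) (S : Finset Edg) (v : Vtx) (m : ℕ) :
    Pr (fun _ => q) S (LA v m) ≤ arm q m := by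
  refine le_trans (Pr_mono (okq h0 h1) ?_) (arm_bound (q := q) h0 h1 S v m)
  rintro F _ ⟨w, -, k2, k3⟩
  exact ⟨w, by omega, k3.mono Set.inter_subset_left⟩

/-- two increasing events on disjoint sets of edges -/
theorem indepq {q : ℝ} (h0 : 0 ≤ q) (h1 : q ≤ 1) (S S1 S2 : Finset Edg) (hd : Disjoint S1 S2)
    {A B : Finset Edg → Prop}
    (hA : IncA A) (hB : IncA B) (hA' : LocE S1 A) (hB' : LocE S2 B) :
    Pr (fun _ => q) S (fun F => A F ∧ B F) ≤ Pr (fun _ => q) S1 A * Pr (fun _ => q) S2 B := by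
  have ok := okq h0 h1
  have hi : IncA (fun F => A F ∧ B F) := fun F G h hF => ⟨hA F G h hF.1, hB F G h hF.2⟩
  have hl : LocE (S1 ∪ S2) (fun F => A F ∧ B F) := by
    intro F
    show (A F ∧ B F) ↔ (A (F ∩ (S1 ∪ S2)) ∧ B (F ∩ (S1 ∪ S2)))
    rw [hA' F, hB' F, hA' (F ∩ (S1 ∪ S2)), hB' (F ∩ (S1 ∪ S2))]
    have e1 : F ∩ (S1 ∪ S2) ∩ S1 = F ∩ S1 := by
      ext e; simp only [Finset.mem_inter, Finset.mem_union]; tauto
    have e2 : F ∩ (S1 ∪ S2) ∩ S2 = F ∩ S2 := by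
      ext e; simp only [Finset.mem_inter, Finset.mem_union]; tauto
    rw [e1, e2]
  have h1' : Pr (fun _ => q) S (fun F => A F ∧ B F) ≤
      Pr (fun _ => q) (S1 ∪ S2) (fun F => A F ∧ B F) := by
    have s2 : Pr (fun _ => q) S (fun F => A F ∧ B F) ≤
        Pr (fun _ => q) (S ∪ (S1 ∪ S2)) (fun F => A F ∧ B F) :=
      Pr_mono_set ok Finset.subset_union_left (fun F G h _ => hi F G h)
    have s3 : Pr (fun _ => q) (S ∪ (S1 ∪ S2)) (fun F => A F ∧ B F) =
        Pr (fun _ => q) (S1 ∪ S2) (fun F => A F ∧ B F) :=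
      Pr_local Finset.subset_union_right (fun F _ => hl F)
    linarith
  have h2 : Pr (fun _ => q) (S1 ∪ S2) (fun F => A F ∧ B F) =
      Pr (fun _ => q) (S1 ∪ S2) A * Pr (fun _ => q) (S1 ∪ S2) B :=
    Pr_indep Finset.subset_union_left Finset.subset_union_right hd (fun F _ => hA' F)
      (fun F _ => hB' F)
  have h3 : Pr (fun _ => q) (S1 ∪ S2) A = Pr (fun _ => q) S1 A :=
    Pr_local Finset.subset_union_left (fun F _ => hA' F)
  have h4 : Pr (fun _ => q) (S1 ∪ S2) B = Pr (fun _ => q) S2 B :=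
    Pr_local Finset.subset_union_right (fun F _ => hB' F)
  rw [h2, h3, h4] at h1'
  exact h1'

/-- decoupling the neighbourhood of the new point -/
theorem add_up {q : ℝ} (hq : 1/2 ≤ q) (hq1 : q ≤ 1) {X : Finset Vtx} {x y : Vtx} {a : ℕ}
    (hy : y ∈ X) (hxy : nv (y - x) = a)
    (ha : 3 ≤ a) (hX : ∀ u ∈ X, a ≤ nv (u - x)) {S : Finset Edg} (hS : bo x a ⊆ S) :
    Pr (fun _ => q) S (fun F => Cn (insert x X) (↑F)) ≤
      2 ^ 188 * (arm q (a / 3) * Pr (fun _ => q) S (fun F => Cn X (↑F))) := by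
  classical
  have h0 : 0 ≤ q := by linarith
  have ok := okq h0 hq1
  set r := a / 3 with hr
  have hr1 : 1 ≤ r := by omega
  have h3r : 3 * r ≤ a := by omega
  set B := bo x r with hB
  set S2 := S \ B with hS2
  set E : Finset Edg → Prop := fun F => Cn X (↑(F ∩ S2) ∪ ↑B) with hE
  have hEi : IncA E := by
    intro F G h hF
    refine Cn.mono (Set.union_subset_union_left _ ?_) hF
    exact_mod_cast Finset.inter_subset_inter_right h
  have hEl : LocE S2 E := by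
    intro F
    rw [hE]
    simp only [Finset.inter_assoc, Finset.inter_self]
  have hd : Disjoint B S2 := by rw [hS2]; exact Finset.disjoint_sdiff
  have s1 : Pr (fun _ => q) S (fun F => Cn (insert x X) (↑F)) ≤
      Pr (fun _ => q) S (fun F => LA x r F ∧ E F) := by
    apply Pr_mono ok
    intro F hFS hF
    refine ⟨LA_of_reach (u := y) (by omega)
      (hF x (Finset.mem_insert_self _ _) y (Finset.mem_insert_of_mem hy)), ?_⟩
    intro u hu v hv
    refine (hF u (Finset.mem_insert_of_mem hu) v (Finset.mem_insert_of_mem hv)).mono ?_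
    intro e he
    by_cases h1 : e ∈ B
    · exact Or.inr (by exact_mod_cast h1)
    · left
      rw [Finset.mem_coe, Finset.mem_inter, hS2, Finset.mem_sdiff]
      exact ⟨Finset.mem_coe.mp he, hFS (Finset.mem_coe.mp he), h1⟩
  have s2 := indepq h0 hq1 S B S2 hd (LA_inc x r) hEi (LA_loc (Finset.Subset.refl _)) hEl
  have s3 : Pr (fun _ => q) B (LA x r) ≤ arm q r := pr_LAq h0 hq1 _ _ _
  have s4 : Pr (fun _ => q) S2 E ≤ Pr (fun _ => q) S E :=
    Pr_mono_set ok Finset.sdiff_subset (fun F G h _ => hEi F G h)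
  have hcirc : (1 / 2 : ℝ) ^ 188 ≤ Pr (fun _ => q) S (CA x r (3 * r)) := by
    apply pr_CAq hq hq1 hr1
    refine Finset.Subset.trans ?_ hS
    unfold bo
    apply RE_subset <;> push_cast <;> omega
  have s5 : Pr (fun _ => q) S E * Pr (fun _ => q) S (CA x r (3 * r)) ≤
      Pr (fun _ => q) S (fun F => Cn X (↑F)) := by
    refine (Pr_harris ok (fun F G h _ => hEi F G h) (CA_incr S x r (3 * r))).trans ?_
    apply Pr_mono ok
    rintro F _ ⟨h1, h2⟩
    intro u hu v hv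
    refine unwire_in (c := x) (R1 := r) (R2 := 3 * r) (by omega) h2 (A := ↑B) ?_
      (h3r.trans (hX u hu)) (h3r.trans (hX v hv)) ?_
    · intro e he
      exact bo_ends (Finset.mem_coe.mp he)
    · refine (h1 u hu v hv).mono (Set.union_subset_union_left _ ?_)
      exact_mod_cast Finset.inter_subset_left
  have p0 : 0 ≤ Pr (fun _ => q) S E := Pr_nonneg ok _ _
  have p1 : 0 ≤ arm q r := arm_nonneg h0 hq1 r
  have s6 : Pr (fun _ => q) S E ≤ 2 ^ 188 * Pr (fun _ => q) S (fun F => Cn X (↑F)) := by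
    have h1 : Pr (fun _ => q) S E * (1 / 2 : ℝ) ^ 188 ≤
        Pr (fun _ => q) S (fun F => Cn X (↑F)) :=
      (mul_le_mul_of_nonneg_left hcirc p0).trans s5
    have h2 : Pr (fun _ => q) S E = 2 ^ 188 * (Pr (fun _ => q) S E * (1 / 2 : ℝ) ^ 188) := by
      rw [mul_comm (Pr (fun _ => q) S E), ← mul_assoc, ← mul_pow]; norm_num
    rw [h2]
    exact mul_le_mul_of_nonneg_left h1 (by positivity)
  calc Pr (fun _ => q) S (fun F => Cn (insert x X) (↑F)) ≤
        Pr (fun _ => q) B (LA x r) * Pr (fun _ => q) S2 E := s1.trans s2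
    _ ≤ arm q r * (2 ^ 188 * Pr (fun _ => q) S (fun F => Cn X (↑F))) :=
        mul_le_mul s3 (s4.trans s6) (Pr_nonneg ok _ _) p1
    _ = _ := by ring

/-! ### infinite volume -/

/-- the probability that all the vertices of `X` are connected -/
noncomputable def PXq (p : unitInterval) (X : Finset Vtx) : ℝ :=
  (bondLaw p).real {ω | Cn X (opn ω)}

theorem PXq_nonneg (p : unitInterval) (X : Finset Vtx) : 0 ≤ PXq p X := measureReal_nonneg

theorem law_boxq (p : unitInterval) (m : ℕ) (X : Finset Vtx) :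
    (bondLaw p).real {ω | Cn X (opn ω ∩ ↑(boxE m))} =
      Pr (fun _ => (p:ℝ)) (boxE m) (fun F => Cn X ↑F) := by
  have h := law_event p (boxE m) (fun F => Cn X ↑F)
  have e : {ω | Cn X (opn ω ∩ ↑(boxE m))} =
      {ω | (fun F : Finset Edg => Cn X ↑F) (FF (boxE m) ω)} := by
    ext ω
    simp only [Set.mem_ofPred_eq, FF_coe]
  rw [e, h]

theorem Cn_boxq {X : Finset Vtx} {F : Set Edg} (h : Cn X F) : ∃ m : ℕ, Cn X (F ∩ ↑(boxE m)) := by
  classical
  have h1 : ∀ p : Vtx × Vtx, ∃ m : ℕ, p ∈ X ×ˢ X → Reach (F ∩ ↑(boxE m)) p.1 p.2 := by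
    intro p
    by_cases hp : p ∈ X ×ˢ X
    · rw [Finset.mem_product] at hp
      obtain ⟨m, hm⟩ := InfAux.reach_box (h p.1 hp.1 p.2 hp.2)
      exact ⟨m, fun _ => hm⟩
    · exact ⟨0, fun h => absurd h hp⟩
  choose m hm using h1
  refine ⟨(X ×ˢ X).sup m, fun u hu v hv => ?_⟩
  have hp : (u, v) ∈ X ×ˢ X := Finset.mem_product.mpr ⟨hu, hv⟩
  exact (hm (u, v) hp).mono
    (Set.inter_subset_inter_right _ (InfAux.boxE_coe_mono (Finset.le_sup hp)))

theorem Cn_union (X : Finset Vtx) : {ω : sqLattice.edgeSet → Bool | Cn X (opn ω)} =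
    ⋃ m : ℕ, {ω | Cn X (opn ω ∩ ↑(boxE m))} := by
  ext ω
  rw [Set.mem_iUnion]
  constructor
  · intro hω
    exact Cn_boxq hω
  · rintro ⟨m, hm⟩
    exact Cn.mono Set.inter_subset_left hm

theorem Cn_meas (X : Finset Vtx) :
    MeasurableSet {ω : sqLattice.edgeSet → Bool | Cn X (opn ω)} := by
  rw [Cn_union]
  refine MeasurableSet.iUnion fun m => ?_
  have e : {ω : sqLattice.edgeSet → Bool | Cn X (opn ω ∩ ↑(boxE m))} =
      {ω | (fun F : Finset Edg => Cn X ↑F) (FF (boxE m) ω)} := by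
    ext ω
    simp only [Set.mem_ofPred_eq, FF_coe]
  rw [e]
  exact meas_event (boxE m) (fun F : Finset Edg => Cn X ↑F)

theorem PXq_ge (p : unitInterval) (X : Finset Vtx) (m : ℕ) :
    Pr (fun _ => (p:ℝ)) (boxE m) (fun F => Cn X (↑F)) ≤ PXq p X := by
  rw [← law_boxq]
  exact measureReal_mono (fun ω hω => Cn.mono Set.inter_subset_left hω)

theorem PXq_le (p : unitInterval) (X : Finset Vtx) (c : ℝ)
    (h : ∀ m : ℕ, Pr (fun _ => (p:ℝ)) (boxE m) (fun F => Cn X (↑F)) ≤ c) :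
    PXq p X ≤ c := by
  have hm : Monotone (fun m : ℕ => {ω : sqLattice.edgeSet → Bool |
      Cn X (opn ω ∩ ↑(boxE m))}) := by
    intro m m' hmm ω hω
    exact Cn.mono (Set.inter_subset_inter_right _ (InfAux.boxE_coe_mono hmm)) hω
  have h1 := tendsto_measure_iUnion_atTop (μ := bondLaw p) hm
  rw [← Cn_union] at h1
  have h2 : Filter.Tendsto (fun m : ℕ => (bondLaw p).real {ω | Cn X (opn ω ∩ ↑(boxE m))})
      Filter.atTop (nhds ((bondLaw p).real {ω | Cn X (opn ω)})) :=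
    (ENNReal.tendsto_toReal (measure_ne_top _ _)).comp h1
  refine le_of_tendsto' h2 (fun m => ?_)
  rw [law_boxq]
  exact h m

theorem Pr_box_monoq (p : unitInterval) {X : Finset Vtx} {m m' : ℕ} (h : m ≤ m') :
    Pr (fun _ => (p:ℝ)) (boxE m) (fun F => Cn X (↑F)) ≤
      Pr (fun _ => (p:ℝ)) (boxE m') (fun F => Cn X (↑F)) :=
  Pr_mono_set (okq p.2.1 p.2.2) (boxE_mono h) (Cn_incr _ X)

theorem PXq_mono {p q : unitInterval} (h : (p:ℝ) ≤ q) (X : Finset Vtx) : PXq p X ≤ PXq q X := by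
  apply PXq_le
  intro m
  exact (Pr_mono_param (okq p.2.1 p.2.2) (okq q.2.1 q.2.2) (fun _ => h) (Cn_incr _ X)).trans
    (PXq_ge q X m)

theorem PXq_insert_le (p : unitInterval) (X : Finset Vtx) (x : Vtx) :
    PXq p (insert x X) ≤ PXq p X :=
  measureReal_mono (fun _ hω u hu v hv =>
    hω u (Finset.mem_insert_of_mem hu) v (Finset.mem_insert_of_mem hv))

theorem inf_up {p : unitInterval} (hp : (1/2 : ℝ) ≤ p) {X : Finset Vtx} {x y : Vtx} {a : ℕ}
    (hy : y ∈ X) (hxy : nv (y - x) = a) (ha : 3 ≤ a) (hX : ∀ u ∈ X, a ≤ nv (u - x)) :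
    PXq p (insert x X) ≤ 2 ^ 188 * (arm p (a / 3) * PXq p X) := by
  have h0 : (0:ℝ) ≤ p := p.2.1
  have h1 : (p:ℝ) ≤ 1 := p.2.2
  apply PXq_le
  intro m
  have hA := arm_nonneg h0 h1 (a / 3)
  calc Pr (fun _ => (p:ℝ)) (boxE m) (fun F => Cn (insert x X) (↑F))
      ≤ Pr (fun _ => (p:ℝ)) (boxE (nv x + a + m)) (fun F => Cn (insert x X) (↑F)) :=
        Pr_box_monoq p (by omega)
    _ ≤ 2 ^ 188 * (arm p (a / 3) *
          Pr (fun _ => (p:ℝ)) (boxE (nv x + a + m)) (fun F => Cn X (↑F))) :=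
        add_up hp h1 hy hxy ha hX (bo_sub.trans (boxE_mono (by omega)))
    _ ≤ _ := by
        apply mul_le_mul_of_nonneg_left _ (by positivity)
        exact mul_le_mul_of_nonneg_left (PXq_ge p X _) hA

/-- the kernel -/
noncomputable def hk (s : ℝ) (k : ℕ) : ℝ := ((k:ℝ) + 1)^(-(5/48) : ℝ) + s^(5/36 : ℝ)

theorem hk_nonneg {s : ℝ} (hs : 0 ≤ s) (k : ℕ) : 0 ≤ hk s k := by unfold hk; positivity

/-- adding a point to a connected set -/
theorem add_pt : ∃ C : ℝ, 0 < C ∧ ∀ p : unitInterval, (1/2 : ℝ) ≤ p → ∀ (X : Finset Vtx),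
    X.Nonempty → ∀ x : Vtx,
    PXq p (insert x X) ≤ C * (∑ u ∈ X, hk ((p:ℝ) - 1/2) (nv (u - x))) * PXq p X := by
  obtain ⟨C1, hC1, hup⟩ := arm_up
  refine ⟨2 + 2^188 * (C1 * 8), by positivity, ?_⟩
  intro p hp X hX x
  have h0 : (0:ℝ) ≤ p := p.2.1
  have h1 : (p:ℝ) ≤ 1 := p.2.2
  obtain ⟨s, hs⟩ : ∃ s : ℝ, s = (p:ℝ) - 1/2 := ⟨_, rfl⟩
  have hs0 : 0 ≤ s := by rw [hs]; linarith
  rw [← hs]
  obtain ⟨y, hy, hmin⟩ := Finset.exists_min_image X (fun u => nv (u - x)) hX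
  obtain ⟨a, ha⟩ : ∃ a : ℕ, a = nv (y - x) := ⟨_, rfl⟩
  have hsum : hk s a ≤ ∑ u ∈ X, hk s (nv (u - x)) := by
    rw [ha]
    exact Finset.single_le_sum (f := fun u => hk s (nv (u - x)))
      (fun u _ => hk_nonneg hs0 _) hy
  have hka := hk_nonneg hs0 a
  have hP := PXq_nonneg p X
  have ha0 : (0:ℝ) ≤ a := Nat.cast_nonneg _
  have hpa : 0 < ((a:ℝ) + 1)^(-(5/48) : ℝ) := by positivity
  have hse : 0 ≤ s^(5/36 : ℝ) := by positivity
  have main : PXq p (insert x X) ≤ (2 + 2^188 * (C1 * 8)) * hk s a * PXq p X := by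
    rcases Nat.lt_or_ge a 3 with h3 | h3
    · have k1 : (1/2 : ℝ) ≤ ((a:ℝ) + 1)^(-(5/48) : ℝ) := by
        have k2 : (a:ℝ) + 1 ≤ 4 := by
          have : (a:ℝ) ≤ 2 := by exact_mod_cast (by omega : a ≤ 2)
          linarith
        calc (1/2 : ℝ) = (4:ℝ)^(-(1/2) : ℝ) := by
              rw [show (4:ℝ) = 2^(2:ℝ) by norm_num, ← Real.rpow_mul (by norm_num)]
              norm_num
          _ ≤ (4:ℝ)^(-(5/48) : ℝ) := Real.rpow_le_rpow_of_exponent_le (by norm_num) (by norm_num)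
          _ ≤ _ := Real.rpow_le_rpow_of_nonpos (by positivity) k2 (by norm_num)
      have k3 : 1 ≤ (2 + 2^188 * (C1 * 8)) * hk s a := by
        unfold hk
        have k4 : 0 ≤ 2^188 * (C1 * 8) := by positivity
        nlinarith
      calc PXq p (insert x X) ≤ 1 * PXq p X := by rw [one_mul]; exact PXq_insert_le p X x
        _ ≤ _ := mul_le_mul_of_nonneg_right k3 hP
    · have k1 := inf_up hp hy ha.symm h3 (fun u hu => by rw [ha]; exact hmin u hu)
      have k2 := hup p hp h1 (a / 3) (by omega)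
      rw [← hs] at k2
      have k3 : (((a / 3 : ℕ)) : ℝ)^(-(5/48) : ℝ) ≤ 8 * ((a:ℝ) + 1)^(-(5/48) : ℝ) := by
        have k4 : ((a:ℝ) + 1) / 8 ≤ ((a / 3 : ℕ) : ℝ) := by
          rw [div_le_iff₀ (by norm_num)]
          exact_mod_cast (by omega : a + 1 ≤ a / 3 * 8)
        calc (((a / 3 : ℕ)) : ℝ)^(-(5/48) : ℝ) ≤ (((a:ℝ) + 1) / 8)^(-(5/48) : ℝ) :=
              Real.rpow_le_rpow_of_nonpos (by positivity) k4 (by norm_num)
          _ = (8:ℝ)^(5/48 : ℝ) * ((a:ℝ) + 1)^(-(5/48) : ℝ) := by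
              rw [Real.div_rpow (by positivity) (by norm_num),
                Real.rpow_neg (by norm_num : (0:ℝ) ≤ 8), div_inv_eq_mul, mul_comm]
          _ ≤ _ := by
              apply mul_le_mul_of_nonneg_right _ hpa.le
              calc (8:ℝ)^(5/48 : ℝ) ≤ (8:ℝ)^(1:ℝ) :=
                    Real.rpow_le_rpow_of_exponent_le (by norm_num) (by norm_num)
                _ = 8 := Real.rpow_one _
      have k5 : arm p (a / 3) ≤ C1 * (8 * hk s a) := by
        refine k2.trans (mul_le_mul_of_nonneg_left (max_le ?_ ?_) (by linarith))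
        · unfold hk; linarith
        · unfold hk; linarith
      calc PXq p (insert x X) ≤ 2 ^ 188 * (arm p (a / 3) * PXq p X) := k1
        _ ≤ 2 ^ 188 * (C1 * (8 * hk s a) * PXq p X) := by
            apply mul_le_mul_of_nonneg_left _ (by positivity)
            exact mul_le_mul_of_nonneg_right k5 hP
        _ = (2^188 * (C1 * 8)) * hk s a * PXq p X := by ring
        _ ≤ _ := by
            apply mul_le_mul_of_nonneg_right _ hP
            apply mul_le_mul_of_nonneg_right _ hka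
            linarith
  calc PXq p (insert x X) ≤ (2 + 2^188 * (C1 * 8)) * hk s a * PXq p X := main
    _ ≤ _ := by
        apply mul_le_mul_of_nonneg_right _ hP
        exact mul_le_mul_of_nonneg_left hsum (by positivity)

end Pool.Agent.V11321.RS
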