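import Pool.Agent.V11321.RS.Two

/-!
Bond percolation on `ℤ²` near the critical point: the connectivity function above the critical
point.
-/

set_option autoImplicit false

namespace Pool.Agent.V11321.RS

open H974 Finset MeasureTheory Pool.Agent.W424.NC H31K

/-- The two-point function from below, by gluing (primal crossings only). -/
theorem two_glue {q κ : ℝ} (h0 : 0 ≤ q) (h1 : q ≤ 1) (hκ : 0 < κ) {n : ℕ} (hm : 1 ≤ n)
    (hpri : ∀ h : ℕ, 1 ≤ h → h ≤ n → κ ≤ hh q (16 * h) h)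
    {x1 x2 : ℤ} (hx1 : |x1| ≤ n) (hx2 : |x2| ≤ n) :
    (arm q (2 * n))^2 * κ^8 * κ^2 ≤
      Pr (fun _ => q) (boxE (3 * n)) (TP (x1, x2)) := by
  have ok := okq h0 h1
  have hx1' := abs_le.mp hx1
  have hx2' := abs_le.mp hx2
  obtain ⟨S, hS⟩ : ∃ S : Finset Edg, S = boxE (3 * n) := ⟨_, rfl⟩
  rw [← hS]
  have s1 : boxE (2 * n) ⊆ S := by rw [hS]; exact boxE_mono (by omega)
  have s2 : RE (x1 - ((2 * n : ℕ) : ℤ)) (x1 + ((2 * n : ℕ) : ℤ)) (x2 - ((2 * n : ℕ) : ℤ))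
      (x2 + ((2 * n : ℕ) : ℤ)) ⊆ S := by
    rw [hS]
    unfold boxE
    apply RE_subset <;> push_cast <;> omega
  obtain ⟨a, ha⟩ : ∃ a : ℤ, a = min 0 x1 - ((2 * n : ℕ) : ℤ) := ⟨_, rfl⟩
  obtain ⟨b, hb⟩ : ∃ b : ℤ, b = max 0 x1 + ((2 * n : ℕ) : ℤ) := ⟨_, rfl⟩
  obtain ⟨c, hc⟩ : ∃ c : ℤ, c = min 0 x2 - ((2 * n : ℕ) : ℤ) := ⟨_, rfl⟩
  obtain ⟨d, hd⟩ : ∃ d : ℤ, d = max 0 x2 + ((2 * n : ℕ) : ℤ) := ⟨_, rfl⟩
  push_cast at ha hb hc hd
  have s3 : LRE a b (-(n:ℤ)) n ⊆ S := by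
    refine LRE_subset_RE.trans ?_
    rw [hS]
    unfold boxE
    apply RE_subset <;> push_cast <;> omega
  have s4 : TBE (x1 - n) (x1 + n) c d ⊆ S := by
    refine TBE_subset_RE.trans ?_
    rw [hS]
    unfold boxE
    apply RE_subset <;> push_cast <;> omega
  have e1 := pr_Arm q s1
  have e2 := pr_shift_arm q s2
  have hcirc : κ^4 ≤ (hh q (2 * ((2 * n : ℕ) : ℤ)) (((2 * n : ℕ) : ℤ) - n))^4 := by
    apply pow_le_pow_left₀ hκ.le
    refine (hpri n hm le_rfl).trans ?_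
    apply hh_mono h0 h1
    · push_cast; omega
    · push_cast; omega
    · push_cast; omega
  have e3 : κ^4 ≤ Pr (fun _ => q) S (Circ n ((2 * n : ℕ) : ℤ)) :=
    hcirc.trans (pr_Circ h0 h1 (R1 := n) (R2 := ((2 * n : ℕ) : ℤ)) (by positivity)
      (by push_cast; omega) s1)
  have e4 : κ^4 ≤ Pr (fun _ => q) S
      (fun F => Circ n ((2 * n : ℕ) : ℤ) ((trl (-x1) (-x2)).mp F)) :=
    hcirc.trans (pr_shift_circ h0 h1 (by omega) s2)
  have e0 : κ ≤ hh q ((5 * n : ℕ) : ℤ) n := by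
    refine (hpri n hm le_rfl).trans ?_
    apply hh_mono h0 h1 <;> push_cast <;> omega
  have e5 : κ ≤ Pr (fun _ => q) S (LRc a b (-n) n) := by
    refine e0.trans ?_
    rw [pr_LRc q s3]
    apply hh_mono h0 h1 <;> push_cast <;> omega
  have e6 : κ ≤ Pr (fun _ => q) S (TBc (x1 - n) (x1 + n) c d) := by
    refine e0.trans ?_
    rw [pr_TBc q s4]
    apply hh_mono h0 h1 <;> push_cast <;> omega
  have i1 := Pr_harris ok (S := S) (A := Arm (2 * n))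
    (B := fun F => Arm (2 * n) ((trl (-x1) (-x2)).mp F)) (Arm_incr S _)
    (fun F G h _ hF => hF.mono (LSym.mp_mono _ h))
  rw [e1, e2] at i1
  have i2 := Pr_harris ok (S := S) (A := Circ n ((2 * n : ℕ) : ℤ))
    (B := fun F => Circ n ((2 * n : ℕ) : ℤ) ((trl (-x1) (-x2)).mp F))
    (fun F G h _ hF => hF.mono h) (fun F G h _ hF => hF.mono (LSym.mp_mono _ h))
  have i3 := Pr_harris ok (S := S) (LRc_incr S a b (-n) n) (TBc_incr S (x1 - n) (x1 + n) c d)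
  have i4 := Pr_harris ok (S := S)
    (A := fun F => Arm (2 * n) F ∧ Arm (2 * n) ((trl (-x1) (-x2)).mp F))
    (B := fun F => Circ n ((2 * n : ℕ) : ℤ) F ∧
      Circ n ((2 * n : ℕ) : ℤ) ((trl (-x1) (-x2)).mp F))
    (fun F G h _ hF => ⟨hF.1.mono h, hF.2.mono (LSym.mp_mono _ h)⟩)
    (fun F G h _ hF => ⟨hF.1.mono h, hF.2.mono (LSym.mp_mono _ h)⟩)
  have i5 := Pr_harris ok (S := S)
    (A := fun F => (Arm (2 * n) F ∧ Arm (2 * n) ((trl (-x1) (-x2)).mp F)) ∧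
      (Circ n ((2 * n : ℕ) : ℤ) F ∧ Circ n ((2 * n : ℕ) : ℤ) ((trl (-x1) (-x2)).mp F)))
    (B := fun F => LRc a b (-n) n F ∧ TBc (x1 - n) (x1 + n) c d F)
    (fun F G h _ hF => ⟨⟨hF.1.1.mono h, hF.1.2.mono (LSym.mp_mono _ h)⟩,
      ⟨hF.2.1.mono h, hF.2.2.mono (LSym.mp_mono _ h)⟩⟩)
    (fun F G h _ hF => ⟨hF.1.mono h, hF.2.mono h⟩)
  have i6 : Pr (fun _ => q) S (fun F => ((Arm (2 * n) F ∧
      Arm (2 * n) ((trl (-x1) (-x2)).mp F)) ∧
      (Circ n ((2 * n : ℕ) : ℤ) F ∧ Circ n ((2 * n : ℕ) : ℤ) ((trl (-x1) (-x2)).mp F))) ∧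
      (LRc a b (-n) n F ∧ TBc (x1 - n) (x1 + n) c d F)) ≤ Pr (fun _ => q) S (TP (x1, x2)) := by
    apply Pr_mono ok
    rintro F _ ⟨⟨⟨k1, k2⟩, k3, k4⟩, k5, k6⟩
    refine tp_of_L hm ?_ ?_ ?_ ?_ ?_ ?_ ?_ ?_ k1 k3 k2 k4 k5 k6 <;> push_cast <;> omega
  have hA0 : 0 ≤ arm q (2 * n) := arm_nonneg h0 h1 _
  have j2 : κ^4 * κ^4 ≤ Pr (fun _ => q) S (fun F => Circ n ((2 * n : ℕ) : ℤ) F ∧
      Circ n ((2 * n : ℕ) : ℤ) ((trl (-x1) (-x2)).mp F)) :=
    (mul_le_mul e3 e4 (by positivity) ((by positivity : 0 ≤ κ^4).trans e3)).trans i2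
  have j3 : κ * κ ≤ Pr (fun _ => q) S
      (fun F => LRc a b (-n) n F ∧ TBc (x1 - n) (x1 + n) c d F) :=
    (mul_le_mul e5 e6 hκ.le (hκ.le.trans e5)).trans i3
  have j4 := (mul_le_mul i1 j2 (by positivity) ((mul_nonneg hA0 hA0).trans i1)).trans i4
  have j4n : 0 ≤ arm q (2 * n) * arm q (2 * n) * (κ^4 * κ^4) := by positivity
  have j5 := (mul_le_mul j4 j3 (by positivity) (j4n.trans j4)).trans i5
  calc (arm q (2 * n))^2 * κ^8 * κ^2
      = arm q (2 * n) * arm q (2 * n) * (κ^4 * κ^4) * (κ * κ) := by ring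
    _ ≤ _ := j5
    _ ≤ _ := i6

/-- The two-point function at and above the critical point. -/
theorem conn : ∃ c C : ℝ, 0 < c ∧ 0 < C ∧ ∀ p : unitInterval, (1/2 : ℝ) ≤ p → ∀ x : ℤ × ℤ,
    c * max (((nm x : ℝ) + 1)^(-(5/24) : ℝ)) (((p:ℝ) - 1/2)^(5/18 : ℝ)) ≤ tau p x ∧
    tau p x ≤ C * max (((nm x : ℝ) + 1)^(-(5/24) : ℝ)) (((p:ℝ) - 1/2)^(5/18 : ℝ)) := by
  obtain ⟨C1, hC1, hup⟩ := arm_up
  obtain ⟨cc, C, hcc, hC, harm⟩ := Pool.Agent.W424.NC.arm_crit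
  obtain ⟨κ, hκ, hW⟩ := H12S.win_half
  obtain ⟨ct, hct, hth⟩ := Pool.Agent.Y554.NC.theta_lower'
  obtain ⟨c0, hc0⟩ : ∃ c0 : ℝ, c0 = min (cc * (2:ℝ)^(-(5/48) : ℝ)) ct := ⟨_, rfl⟩
  have hc00 : 0 < c0 := by rw [hc0]; positivity
  refine ⟨c0^2 * κ^8 * κ^2, C1^2 * 9, by positivity, by positivity, ?_⟩
  intro p hp x
  have h0 : (0:ℝ) ≤ p := p.2.1
  have h1 : (p:ℝ) ≤ 1 := p.2.2
  obtain ⟨r, hr⟩ : ∃ r : ℕ, r = nm x := ⟨_, rfl⟩
  obtain ⟨x1a, x2a, x3a⟩ := nm_eq x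
  rw [← hr] at x1a x2a x3a ⊢
  have hr0 : (0:ℝ) ≤ r := Nat.cast_nonneg _
  have hr1 : (0:ℝ) < (r:ℝ) + 1 := by positivity
  obtain ⟨s, hs⟩ : ∃ s : ℝ, s = (p:ℝ) - 1/2 := ⟨_, rfl⟩
  have hs0 : 0 ≤ s := by rw [hs]; linarith
  rw [← hs]
  have hsq : s^(5/18 : ℝ) = (s^(5/36 : ℝ))^2 := by
    rw [← Real.rpow_natCast, ← Real.rpow_mul hs0]
    norm_num
  have hsqr : ((r:ℝ) + 1)^(-(5/24) : ℝ) = (((r:ℝ) + 1)^(-(5/48) : ℝ))^2 := by
    rw [← Real.rpow_natCast, ← Real.rpow_mul hr1.le]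
    norm_num
  have hmax : max (((r:ℝ) + 1)^(-(5/24) : ℝ)) (s^(5/18 : ℝ)) =
      (max (((r:ℝ) + 1)^(-(5/48) : ℝ)) (s^(5/36 : ℝ)))^2 := by
    have g1 : 0 ≤ ((r:ℝ) + 1)^(-(5/48) : ℝ) := by positivity
    have g2 : 0 ≤ s^(5/36 : ℝ) := by positivity
    rw [hsq, hsqr]
    rcases le_total (((r:ℝ) + 1)^(-(5/48) : ℝ)) (s^(5/36 : ℝ)) with h | h
    · rw [max_eq_right h, max_eq_right (pow_le_pow_left₀ g1 h 2)]
    · rw [max_eq_left h, max_eq_left (pow_le_pow_left₀ g2 h 2)]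
  have hm0 : 0 ≤ max (((r:ℝ) + 1)^(-(5/48) : ℝ)) (s^(5/36 : ℝ)) :=
    le_max_of_le_left (by positivity)
  rw [hmax]
  constructor
  · obtain ⟨n, hn⟩ : ∃ n : ℕ, n = max 1 r := ⟨_, rfl⟩
    have hn1 : 1 ≤ n := by omega
    have hnr : r ≤ n := by omega
    have hnr' : n ≤ r + 1 := by omega
    have hn0 : (0:ℝ) < n := by exact_mod_cast hn1
    have a1 := two_glue h0 h1 hκ hn1 (fun h k1 k2 => ((hW n).pri h k1 k2).trans
      (hh_mono_param (by norm_num) hp h1 _ _)) (x1 := x.1) (x2 := x.2)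
      (by refine x1a.trans ?_; exact_mod_cast hnr) (by refine x2a.trans ?_; exact_mod_cast hnr)
    have a2 : c0 * max (((r:ℝ) + 1)^(-(5/48) : ℝ)) (s^(5/36 : ℝ)) ≤ arm p (2 * n) := by
      rw [mul_max_of_nonneg _ _ hc00.le]
      apply max_le
      · have k1 := arm_mono_param (by norm_num) hp h1 (2 * n)
        have k2 := (harm (2 * n) (by omega)).1
        refine le_trans ?_ (k2.trans k1)
        push_cast
        rw [Real.mul_rpow (by norm_num) hn0.le, ← mul_assoc]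
        apply mul_le_mul
        · rw [hc0]; exact min_le_left _ _
        · exact Real.rpow_le_rpow_of_nonpos hn0 (by exact_mod_cast hnr') (by norm_num)
        · positivity
        · positivity
      · rcases hs0.eq_or_lt with hs0' | hs0'
        · rw [← hs0', Real.zero_rpow (by norm_num), mul_zero]
          exact arm_nonneg h0 h1 _
        · have k1 := hth p (by linarith)
          have k2 := theta_le_arm p (2 * n)
          refine le_trans ?_ (k1.trans k2)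
          rw [← hs]
          apply mul_le_mul_of_nonneg_right _ (by positivity)
          rw [hc0]; exact min_le_right _ _
    have a3 := pow_le_pow_left₀ (by positivity) a2 2
    calc c0^2 * κ^8 * κ^2 * (max (((r:ℝ) + 1)^(-(5/48) : ℝ)) (s^(5/36 : ℝ)))^2 =
          (c0 * max (((r:ℝ) + 1)^(-(5/48) : ℝ)) (s^(5/36 : ℝ)))^2 * κ^8 * κ^2 := by ring
      _ ≤ (arm p (2 * n))^2 * κ^8 * κ^2 := by
          apply mul_le_mul_of_nonneg_right _ (by positivity)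
          exact mul_le_mul_of_nonneg_right a3 (by positivity)
      _ ≤ _ := a1
      _ ≤ _ := tau_ge p _ _
  · rcases Nat.lt_or_ge r 3 with hr3 | hr3
    · have k1 : tau p x ≤ 1 := measureReal_le_one
      have k2 : (1/3 : ℝ) ≤ max (((r:ℝ) + 1)^(-(5/48) : ℝ)) (s^(5/36 : ℝ)) := by
        refine le_max_of_le_left ?_
        have k3 : (r:ℝ) + 1 ≤ 3 := by
          have : (r:ℝ) ≤ 2 := by exact_mod_cast (by omega : r ≤ 2)
          linarith
        calc (1/3 : ℝ) = (3:ℝ)^(-1 : ℝ) := by rw [Real.rpow_neg_one]; norm_num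
          _ ≤ (3:ℝ)^(-(5/48) : ℝ) := Real.rpow_le_rpow_of_exponent_le (by norm_num) (by norm_num)
          _ ≤ _ := Real.rpow_le_rpow_of_nonpos hr1 k3 (by norm_num)
      have k3 : (1/9 : ℝ) ≤ (max (((r:ℝ) + 1)^(-(5/48) : ℝ)) (s^(5/36 : ℝ)))^2 := by nlinarith
      have k4 : 1 ≤ C1^2 := one_le_pow₀ hC1
      nlinarith
    · obtain ⟨m, hm⟩ : ∃ m : ℕ, m = (r - 1)/2 := ⟨_, rfl⟩
      have hm1 : 1 ≤ m := by omega
      have hmn : r + 1 ≤ 8 * m := by omega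
      have k1 : tau p x ≤ (arm p m)^2 := by
        refine tau_le_arm_sq p ?_
        have : 2 * (m:ℤ) < r := by omega
        rcases x3a with h | h
        · left; omega
        · right; omega
      have k2 : arm p m ≤ C1 * (3 * max (((r:ℝ) + 1)^(-(5/48) : ℝ)) (s^(5/36 : ℝ))) := by
        have k3 := hup p hp h1 m hm1
        rw [← hs] at k3
        refine k3.trans (mul_le_mul_of_nonneg_left (max_le ?_ ?_) (by linarith))
        · have k4 : ((r:ℝ) + 1) / 8 ≤ m := by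
            rw [div_le_iff₀ (by positivity)]
            have : (r:ℝ) + 1 ≤ 8 * m := by exact_mod_cast hmn
            linarith
          have k5 : (8:ℝ)^(5/48 : ℝ) ≤ 3 := by
            calc (8:ℝ)^(5/48 : ℝ) ≤ (8:ℝ)^(1/3 : ℝ) :=
                  Real.rpow_le_rpow_of_exponent_le (by norm_num) (by norm_num)
              _ = 2 := by
                  rw [show (8:ℝ) = 2^(3:ℝ) by norm_num, ← Real.rpow_mul (by norm_num)]
                  norm_num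
              _ ≤ 3 := by norm_num
          calc (m:ℝ)^(-(5/48) : ℝ) ≤ (((r:ℝ) + 1) / 8)^(-(5/48) : ℝ) :=
                Real.rpow_le_rpow_of_nonpos (by positivity) k4 (by norm_num)
            _ = (8:ℝ)^(5/48 : ℝ) * ((r:ℝ) + 1)^(-(5/48) : ℝ) := by
                rw [Real.div_rpow hr1.le (by norm_num), Real.rpow_neg (by norm_num : (0:ℝ) ≤ 8),
                  div_inv_eq_mul, mul_comm]
            _ ≤ 3 * ((r:ℝ) + 1)^(-(5/48) : ℝ) := mul_le_mul_of_nonneg_right k5 (by positivity)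
            _ ≤ _ := mul_le_mul_of_nonneg_left (le_max_left _ _) (by norm_num)
        · have : s^(5/36 : ℝ) ≤ max (((r:ℝ) + 1)^(-(5/48) : ℝ)) (s^(5/36 : ℝ)) := le_max_right _ _
          linarith
      have k5 := pow_le_pow_left₀ (arm_nonneg h0 h1 m) k2 2
      refine k1.trans (k5.trans (le_of_eq ?_))
      ring

end Pool.Agent.V11321.RS
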