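import Pool.Agent.V11321.RS.Add

/-!
Moments of the number of points of the cluster of the origin in a box, bond percolation on `ℤ²`.
-/

set_option autoImplicit false

namespace Pool.Agent.V11321.RS

open H974 Finset MeasureTheory Pool.Agent.W424.NC H31K H362P
open Pool.Agent.H160R2.CV Pool.Agent.H160R2.CV.Quad

theorem ker_sum {e c : ℝ} (he0 : 0 ≤ e) (he1 : e ≤ 1) (hc : 0 ≤ c) {m : ℕ} (hm : 1 ≤ m) :
    ∑ k ∈ range (2 * m + 1), ((k:ℝ) + 1) * (((k:ℝ) + 1)^(-e) + c) ≤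
      9 * ((m:ℝ)^2 * ((m:ℝ)^(-e) + c)) := by
  have hm0 : (0:ℝ) < m := by exact_mod_cast hm
  have hm1 : (1:ℝ) ≤ m := by exact_mod_cast hm
  have hterm : ∀ k ∈ range (2 * m + 1), ((k:ℝ) + 1) * (((k:ℝ) + 1)^(-e) + c) ≤
      3 * (m * ((m:ℝ)^(-e) + c)) := by
    intro k hk
    rw [Finset.mem_range] at hk
    have hk3 : (k:ℝ) + 1 ≤ 3 * m := by exact_mod_cast (by omega : k + 1 ≤ 3 * m)
    have hk0 : (0:ℝ) < (k:ℝ) + 1 := by positivity
    have e1 : ((k:ℝ) + 1) * ((k:ℝ) + 1)^(-e) = ((k:ℝ) + 1)^(1 - e) := by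
      rw [mul_comm, ← Real.rpow_add_one hk0.ne']
      congr 1
      ring
    have e2 : (m:ℝ) * (m:ℝ)^(-e) = (m:ℝ)^(1 - e) := by
      rw [mul_comm, ← Real.rpow_add_one hm0.ne']
      congr 1
      ring
    have h1 : ((k:ℝ) + 1)^(1 - e) ≤ 3 * (m:ℝ)^(1 - e) := by
      calc ((k:ℝ) + 1)^(1 - e) ≤ (3 * (m:ℝ))^(1 - e) :=
            Real.rpow_le_rpow hk0.le hk3 (by linarith)
        _ = (3:ℝ)^(1 - e) * (m:ℝ)^(1 - e) := Real.mul_rpow (by norm_num) hm0.le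
        _ ≤ (3:ℝ)^(1:ℝ) * (m:ℝ)^(1 - e) := by
            apply mul_le_mul_of_nonneg_right _ (by positivity)
            exact Real.rpow_le_rpow_of_exponent_le (by norm_num) (by linarith)
        _ = _ := by rw [Real.rpow_one]
    calc ((k:ℝ) + 1) * (((k:ℝ) + 1)^(-e) + c) = ((k:ℝ) + 1)^(1 - e) + ((k:ℝ) + 1) * c := by
          rw [mul_add, e1]
      _ ≤ 3 * (m:ℝ)^(1 - e) + (3 * m) * c := add_le_add h1 (mul_le_mul_of_nonneg_right hk3 hc)
      _ = _ := by rw [← e2]; ring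
  have hpos : 0 ≤ 3 * ((m:ℝ) * ((m:ℝ)^(-e) + c)) := by positivity
  calc _ ≤ ∑ k ∈ range (2 * m + 1), 3 * ((m:ℝ) * ((m:ℝ)^(-e) + c)) := Finset.sum_le_sum hterm
    _ = (2 * (m:ℝ) + 1) * (3 * ((m:ℝ) * ((m:ℝ)^(-e) + c))) := by
        rw [Finset.sum_const, Finset.card_range, nsmul_eq_mul]
        push_cast
        ring
    _ ≤ (3 * (m:ℝ)) * (3 * ((m:ℝ) * ((m:ℝ)^(-e) + c))) :=
        mul_le_mul_of_nonneg_right (by linarith) hpos
    _ = _ := by ring

/-- the order of the one-arm probability -/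
noncomputable def ab (s : ℝ) (m : ℕ) : ℝ := (m:ℝ)^(-(5/48) : ℝ) + s^(5/36 : ℝ)

theorem ab_pos {s : ℝ} (hs : 0 ≤ s) {m : ℕ} (hm : 1 ≤ m) : 0 < ab s m := by
  have : (0:ℝ) < m := by exact_mod_cast hm
  unfold ab
  positivity

theorem hk_sum {s : ℝ} (hs : 0 ≤ s) {m : ℕ} (hm : 1 ≤ m) {u : Vtx} (hu : u ∈ bx m) :
    ∑ x ∈ bx m, hk s (nv (u - x)) ≤ 72 * ((m:ℝ)^2 * ab s m) := by
  have h1 := sum_bx_shift m u hu (hk s) (hk_nonneg hs)
  have h2 := ker_sum (e := 5/48) (c := s^(5/36 : ℝ)) (by norm_num) (by norm_num) (by positivity) hm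
  have h3 : ∑ x ∈ bx m, hk s (nv (u - x)) = ∑ x ∈ bx m, hk s (nv (x - u)) :=
    Finset.sum_congr rfl fun x _ => by rw [w_nv_comm]
  rw [h3]
  unfold ab
  unfold hk at h1 ⊢
  linarith

/-- adding a point, summed over the box -/
theorem add_sum : ∃ C : ℝ, 0 < C ∧ ∀ p : unitInterval, (1/2 : ℝ) ≤ p → ∀ m : ℕ, 1 ≤ m →
    ∀ X : Finset Vtx, X.Nonempty → X ⊆ bx m →
    ∑ x ∈ bx m, PXq p (insert x X) ≤
      C * (X.card * ((m:ℝ)^2 * ab ((p:ℝ) - 1/2) m)) * PXq p X := by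
  obtain ⟨C, hC, h⟩ := add_pt
  refine ⟨C * 72, by positivity, ?_⟩
  intro p hp m hm X hX hXm
  have hs0 : 0 ≤ (p:ℝ) - 1/2 := by linarith
  have hP := PXq_nonneg p X
  calc ∑ x ∈ bx m, PXq p (insert x X)
      ≤ ∑ x ∈ bx m, C * (∑ u ∈ X, hk ((p:ℝ) - 1/2) (nv (u - x))) * PXq p X :=
        Finset.sum_le_sum fun x _ => h p hp X hX x
    _ = C * (∑ u ∈ X, ∑ x ∈ bx m, hk ((p:ℝ) - 1/2) (nv (u - x))) * PXq p X := by
        rw [← Finset.sum_mul, ← Finset.mul_sum, Finset.sum_comm]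
    _ ≤ C * (∑ u ∈ X, 72 * ((m:ℝ)^2 * ab ((p:ℝ) - 1/2) m)) * PXq p X := by
        apply mul_le_mul_of_nonneg_right _ hP
        apply mul_le_mul_of_nonneg_left _ hC.le
        exact Finset.sum_le_sum fun u hu => hk_sum hs0 hm (hXm hu)
    _ = _ := by
        rw [Finset.sum_const, nsmul_eq_mul]
        ring

/-- sums of connection probabilities -/
noncomputable def Wq (p : unitInterval) (m : ℕ) : ℕ → Finset Vtx → ℝ
  | 0, X => PXq p X
  | k + 1, X => ∑ x ∈ bx m, Wq p m k (insert x X)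

theorem Wq_nonneg (p : unitInterval) (m k : ℕ) (X : Finset Vtx) : 0 ≤ Wq p m k X := by
  induction k generalizing X with
  | zero => exact PXq_nonneg p X
  | succ k ih => exact Finset.sum_nonneg fun x _ => ih _

theorem Wq_mono {p q : unitInterval} (h : (p:ℝ) ≤ q) (m k : ℕ) (X : Finset Vtx) :
    Wq p m k X ≤ Wq q m k X := by
  induction k generalizing X with
  | zero => exact PXq_mono h X
  | succ k ih => exact Finset.sum_le_sum fun x _ => ih _

theorem Wq_bound {p : unitInterval} {m : ℕ} {B : ℝ} (hB : 0 ≤ B)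
    (h : ∀ X : Finset Vtx, X.Nonempty → X ⊆ bx m →
      ∑ x ∈ bx m, PXq p (insert x X) ≤ (X.card * B) * PXq p X) (k : ℕ) :
    ∀ (X : Finset Vtx) (J : ℕ), X.Nonempty → X ⊆ bx m → X.card + k ≤ J →
    Wq p m k X ≤ ((J:ℝ) * B)^k * PXq p X := by
  induction k with
  | zero =>
    intro X J _ _ _
    rw [pow_zero, one_mul]
    exact le_rfl
  | succ k ih =>
    intro X J hX hXn hJ
    have hJB : 0 ≤ (J:ℝ) * B := by positivity
    show ∑ x ∈ bx m, Wq p m k (insert x X) ≤ ((J:ℝ) * B)^(k + 1) * PXq p X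
    calc ∑ x ∈ bx m, Wq p m k (insert x X) ≤ ∑ x ∈ bx m, ((J:ℝ) * B)^k * PXq p (insert x X) := by
          apply Finset.sum_le_sum
          intro x hx
          apply ih _ J (Finset.insert_nonempty _ _) (Finset.insert_subset hx hXn)
          have := Finset.card_insert_le x X
          omega
      _ = ((J:ℝ) * B)^k * ∑ x ∈ bx m, PXq p (insert x X) := by rw [Finset.mul_sum]
      _ ≤ ((J:ℝ) * B)^k * (((J:ℝ) * B) * PXq p X) := by
          apply mul_le_mul_of_nonneg_left _ (by positivity)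
          refine (h X hX hXn).trans ?_
          apply mul_le_mul_of_nonneg_right _ (PXq_nonneg p X)
          apply mul_le_mul_of_nonneg_right _ hB
          exact_mod_cast (by omega : X.card ≤ J)
      _ = ((J:ℝ) * B)^(k + 1) * PXq p X := by ring

theorem PXq_pair (p : unitInterval) (x : Vtx) : PXq p (insert x {(0, 0)}) ≤ tau p x := by
  refine measureReal_mono ?_
  intro ω hω
  have h1 : Reach (opn ω) (0, 0) x := hω (0, 0) (by simp) x (by simp)
  exact (open_reach ω _ _).mpr h1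

/-- the sum of the two-point function over a box, above the critical point -/
theorem pair_sumq : ∃ C : ℝ, 0 < C ∧ ∀ p : unitInterval, (1/2 : ℝ) ≤ p → ∀ m : ℕ, 1 ≤ m →
    ∑ x ∈ bx m, PXq p (insert x {(0, 0)}) ≤ C * ((m:ℝ)^2 * (ab ((p:ℝ) - 1/2) m)^2) := by
  obtain ⟨c, C, hc, hC, h⟩ := conn
  refine ⟨C * 72, by positivity, ?_⟩
  intro p hp m hm
  obtain ⟨s, hs⟩ : ∃ s : ℝ, s = (p:ℝ) - 1/2 := ⟨_, rfl⟩
  have hs0 : 0 ≤ s := by rw [hs]; linarith
  rw [← hs]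
  have hm0 : (0:ℝ) < m := by exact_mod_cast hm
  have hs18 : 0 ≤ s^(5/18 : ℝ) := by positivity
  have h1 : ∀ x ∈ bx m, PXq p (insert x {(0, 0)}) ≤
      C * (((nv (x - (0, 0)) : ℝ) + 1)^(-(5/24) : ℝ) + s^(5/18 : ℝ)) := by
    intro x _
    have h2 := (h p hp x).2
    rw [← hs] at h2
    refine (PXq_pair p x).trans (h2.trans ?_)
    apply mul_le_mul_of_nonneg_left _ hC.le
    have e1 : nv (x - (0, 0)) = nm x := by
      unfold nv nm
      simp
    rw [e1]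
    have h3 : 0 ≤ ((nm x : ℝ) + 1)^(-(5/24) : ℝ) := by positivity
    exact max_le (by linarith) (by linarith)
  have h0 : ((0:ℤ), (0:ℤ)) ∈ bx m := by
    unfold bx
    rw [Finset.mem_product, Finset.mem_Icc]
    simp
  have h2 := sum_bx_shift m (0, 0) h0 (fun k => ((k:ℝ) + 1)^(-(5/24) : ℝ) + s^(5/18 : ℝ))
    (fun k => by positivity)
  have h3 := ker_sum (e := 5/24) (c := s^(5/18 : ℝ)) (by norm_num) (by norm_num) hs18 hm
  have h4 : (m:ℝ)^(-(5/24) : ℝ) + s^(5/18 : ℝ) ≤ (ab s m)^2 := by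
    have e1 : (m:ℝ)^(-(5/24) : ℝ) = ((m:ℝ)^(-(5/48) : ℝ))^2 := by
      rw [← Real.rpow_natCast, ← Real.rpow_mul hm0.le]
      norm_num
    have e2 : s^(5/18 : ℝ) = (s^(5/36 : ℝ))^2 := by
      rw [← Real.rpow_natCast, ← Real.rpow_mul hs0]
      norm_num
    rw [e1, e2]
    unfold ab
    have g1 : 0 ≤ (m:ℝ)^(-(5/48) : ℝ) := by positivity
    have g2 : 0 ≤ s^(5/36 : ℝ) := by positivity
    nlinarith [mul_nonneg g1 g2]
  calc ∑ x ∈ bx m, PXq p (insert x {(0, 0)})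
      ≤ ∑ x ∈ bx m, C * (((nv (x - (0, 0)) : ℝ) + 1)^(-(5/24) : ℝ) + s^(5/18 : ℝ)) :=
        Finset.sum_le_sum h1
    _ = C * ∑ x ∈ bx m, (((nv (x - (0, 0)) : ℝ) + 1)^(-(5/24) : ℝ) + s^(5/18 : ℝ)) := by
        rw [Finset.mul_sum]
    _ ≤ C * (8 * (9 * ((m:ℝ)^2 * ((m:ℝ)^(-(5/24) : ℝ) + s^(5/18 : ℝ))))) := by
        apply mul_le_mul_of_nonneg_left _ hC.le
        refine h2.trans ?_
        exact mul_le_mul_of_nonneg_left h3 (by norm_num)
    _ ≤ C * (8 * (9 * ((m:ℝ)^2 * (ab s m)^2))) := by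
        apply mul_le_mul_of_nonneg_left _ hC.le
        apply mul_le_mul_of_nonneg_left _ (by norm_num)
        apply mul_le_mul_of_nonneg_left _ (by norm_num)
        exact mul_le_mul_of_nonneg_left h4 (by positivity)
    _ = _ := by ring

/-- The moments of the number of points of the cluster in a box. -/
theorem Wq_zero (k : ℕ) : ∃ C : ℝ, 0 < C ∧ ∀ p : unitInterval, ∀ m : ℕ, 1 ≤ m →
    Wq p m (k + 1) {(0, 0)} ≤
      C * (((m:ℝ)^2 * ab |(p:ℝ) - 1/2| m)^(k + 1) * ab |(p:ℝ) - 1/2| m) := by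
  obtain ⟨C1, hC1, h1⟩ := add_sum
  obtain ⟨C2, hC2, h2⟩ := pair_sumq
  refine ⟨(((k + 2 : ℕ) : ℝ) * C1)^k * C2, by positivity, ?_⟩
  have main : ∀ p : unitInterval, (1/2 : ℝ) ≤ p → ∀ m : ℕ, 1 ≤ m →
      Wq p m (k + 1) {(0, 0)} ≤ (((k + 2 : ℕ) : ℝ) * C1)^k * C2 *
        (((m:ℝ)^2 * ab ((p:ℝ) - 1/2) m)^(k + 1) * ab ((p:ℝ) - 1/2) m) := by
    intro p hp m hm
    obtain ⟨s, hs⟩ : ∃ s : ℝ, s = (p:ℝ) - 1/2 := ⟨_, rfl⟩
    have hs0 : 0 ≤ s := by rw [hs]; linarith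
    have hab := ab_pos hs0 hm
    have k1 := h1 p hp m hm
    have k2 := h2 p hp m hm
    rw [← hs] at k1 k2 ⊢
    obtain ⟨B, hB⟩ : ∃ B : ℝ, B = C1 * ((m:ℝ)^2 * ab s m) := ⟨_, rfl⟩
    have hB0 : 0 ≤ B := by rw [hB]; positivity
    have k3 := Wq_bound (p := p) (m := m) hB0 (by
      intro X hX hXm
      refine (k1 X hX hXm).trans (le_of_eq ?_)
      rw [hB]
      ring) k
    have h0 : ((0:ℤ), (0:ℤ)) ∈ bx m := by
      unfold bx
      rw [Finset.mem_product, Finset.mem_Icc]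
      simp
    show ∑ x ∈ bx m, Wq p m k (insert x {(0, 0)}) ≤ _
    calc ∑ x ∈ bx m, Wq p m k (insert x {(0, 0)})
        ≤ ∑ x ∈ bx m, (((k + 2 : ℕ) : ℝ) * B)^k * PXq p (insert x {(0, 0)}) := by
          apply Finset.sum_le_sum
          intro x hx
          apply k3 _ (k + 2) (Finset.insert_nonempty _ _)
          · exact Finset.insert_subset hx (by simpa using h0)
          · have := Finset.card_insert_le x {((0:ℤ), (0:ℤ))}
            rw [Finset.card_singleton] at this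
            omega
      _ = (((k + 2 : ℕ) : ℝ) * B)^k * ∑ x ∈ bx m, PXq p (insert x {(0, 0)}) := by
          rw [Finset.mul_sum]
      _ ≤ (((k + 2 : ℕ) : ℝ) * B)^k * (C2 * ((m:ℝ)^2 * (ab s m)^2)) :=
          mul_le_mul_of_nonneg_left k2 (by positivity)
      _ = _ := by
          rw [hB]
          ring
  intro p m hm
  rcases le_total (1/2 : ℝ) p with hp | hp
  · rw [abs_of_nonneg (by linarith : 0 ≤ (p:ℝ) - 1/2)]
    exact main p hp m hm
  · have k1 : Wq p m (k + 1) {(0, 0)} ≤ Wq hlf m (k + 1) {(0, 0)} :=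
      Wq_mono (by rw [show ((hlf : unitInterval) : ℝ) = 1/2 from rfl]; exact hp) _ _ _
    have k2 := main hlf (by rw [show ((hlf : unitInterval) : ℝ) = 1/2 from rfl]) m hm
    rw [show ((hlf : unitInterval) : ℝ) = 1/2 from rfl, sub_self] at k2
    refine k1.trans (k2.trans ?_)
    have k3 : ab 0 m ≤ ab |(p:ℝ) - 1/2| m := by
      unfold ab
      rw [Real.zero_rpow (by norm_num)]
      have : 0 ≤ |(p:ℝ) - 1/2|^(5/36 : ℝ) := by positivity
      linarith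
    have k4 := ab_pos (le_refl (0:ℝ)) hm
    have hm0 : (0:ℝ) < m := by exact_mod_cast hm
    apply mul_le_mul_of_nonneg_left _ (by positivity)
    apply mul_le_mul _ k3 k4.le (by have := ab_pos (abs_nonneg ((p:ℝ) - 1/2)) hm; positivity)
    apply pow_le_pow_left₀ (by positivity)
    exact mul_le_mul_of_nonneg_left k3 (by positivity)

end Pool.Agent.V11321.RS
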