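import Pool.Agent.V11321.RS.MomU

/-!
Lower bounds for the truncated moments of the cluster size, bond percolation on `ℤ²`.
-/

set_option autoImplicit false

namespace Pool.Agent.V11321.RS

open H974 Finset MeasureTheory Pool.Agent.W424.NC H31K H362P
open Pool.Agent.H160R2.CV Pool.Agent.H160R2.CV.Quad

/-- the shell of radii `n`, `2 n` -/
noncomputable def sh (n : ℕ) : Finset Vtx := (bx (2 * n)).filter (fun x => n ≤ nm x)

theorem mem_sh {n : ℕ} {x : Vtx} : x ∈ sh n ↔ x ∈ bx (2 * n) ∧ n ≤ nm x := by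
  unfold sh
  rw [Finset.mem_filter]

theorem sh_nm {n : ℕ} {x : Vtx} (h : x ∈ sh n) : n ≤ nm x ∧ nm x ≤ 2 * n := by
  rw [mem_sh] at h
  refine ⟨h.2, ?_⟩
  have h1 := h.1
  unfold bx at h1
  rw [Finset.mem_product, Finset.mem_Icc, Finset.mem_Icc] at h1
  unfold nm
  omega

theorem sh_card {n : ℕ} : ((n:ℝ)^2) ≤ (sh n).card := by
  have h1 : Finset.Icc (n:ℤ) (2 * n) ×ˢ Finset.Icc (n:ℤ) (2 * n) ⊆ sh n := by
    intro x hx
    rw [Finset.mem_product, Finset.mem_Icc, Finset.mem_Icc] at hx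
    rw [mem_sh]
    refine ⟨?_, ?_⟩
    · unfold bx
      rw [Finset.mem_product, Finset.mem_Icc, Finset.mem_Icc]
      push_cast
      omega
    · unfold nm
      omega
  have h2 := Finset.card_le_card h1
  rw [Finset.card_product, Int.card_Icc] at h2
  have e : ((2:ℤ) * n + 1 - n).toNat = n + 1 := by omega
  rw [e] at h2
  have h3 : (((n + 1) * (n + 1) : ℕ) : ℝ) ≤ (sh n).card := by exact_mod_cast h2
  push_cast at h3
  have hn0 : (0:ℝ) ≤ n := Nat.cast_nonneg _
  nlinarith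

/-- the number of points of a finite cluster in the shell -/
noncomputable def XX (n : ℕ) (ω : sqLattice.edgeSet → Bool) : ENNReal :=
  ∑ x ∈ sh n, Set.indicator {ω | x ∈ cluster0 ω ∧ (cluster0 ω).Finite} (fun _ => (1:ENNReal)) ω

theorem meas_xf (x : Vtx) :
    MeasurableSet {ω : sqLattice.edgeSet → Bool | x ∈ cluster0 ω ∧ (cluster0 ω).Finite} :=
  (t10_meas x).inter meas_fin

theorem lintegral_XX (p : unitInterval) (n : ℕ) :
    ∫⁻ ω, XX n ω ∂(bondLaw p) = ENNReal.ofReal (∑ x ∈ sh n, tauF p x) := by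
  unfold XX
  rw [lintegral_finsetSum _ (fun x _ => (measurable_const (a := (1:ENNReal))).indicator
    (meas_xf x)), ENNReal.ofReal_sum_of_nonneg (fun x _ => tauF_nonneg p x)]
  apply Finset.sum_congr rfl
  intro x _
  have h2 : ∫⁻ ω, Set.indicator {ω | x ∈ cluster0 ω ∧ (cluster0 ω).Finite}
      (fun _ => (1:ENNReal)) ω ∂(bondLaw p) =
      (bondLaw p) {ω | x ∈ cluster0 ω ∧ (cluster0 ω).Finite} := lintegral_indicator_one (meas_xf x)
  rw [h2]
  unfold tauF
  rw [measureReal_def, ENNReal.ofReal_toReal (measure_ne_top _ _)]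

/-- The basic inequality: `λ ^ (k-1) X ≤ |C| ^ k + λ ^ k` on the event that the radius is
large. -/
theorem low_pt {k : ℕ} {n : ℕ} {l : ℝ} (hl : 0 < l)
    {ω : sqLattice.edgeSet → Bool} :
    ENNReal.ofReal (l^k) * XX n ω ≤
      Set.indicator {ω | (cluster0 ω).Finite} (fun ω => ((cluster0 ω).ncard : ENNReal)^(k+1)) ω +
      ENNReal.ofReal (l^(k+1)) * Set.indicator (BB n) (fun _ => (1:ENNReal)) ω := by
  classical
  by_cases hf : (cluster0 ω).Finite
  · rw [Set.indicator_of_mem (show ω ∈ {ω | (cluster0 ω).Finite} from hf)]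
    obtain ⟨T, hT⟩ : ∃ T : Finset Vtx, T = (sh n).filter (fun x => x ∈ cluster0 ω) := ⟨_, rfl⟩
    have e1 : XX n ω = ((T.card : ℕ) : ENNReal) := by
      unfold XX
      rw [hT, Finset.card_filter, Nat.cast_sum]
      apply Finset.sum_congr rfl
      intro x _
      by_cases hx : x ∈ cluster0 ω
      · rw [Set.indicator_of_mem (show ω ∈ {ω | x ∈ cluster0 ω ∧ (cluster0 ω).Finite} from
          ⟨hx, hf⟩), if_pos hx]
        simp
      · rw [Set.indicator_of_notMem (show ω ∉ {ω | x ∈ cluster0 ω ∧ (cluster0 ω).Finite} from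
          fun h => hx h.1), if_neg hx]
        simp
    rw [e1]
    rcases Nat.eq_zero_or_pos T.card with h0 | h0
    · rw [h0]
      simp
    · obtain ⟨x, hx⟩ := Finset.card_pos.1 h0
      have hx' : x ∈ sh n ∧ x ∈ cluster0 ω := by
        rw [hT, Finset.mem_filter] at hx
        exact hx
      have hB : ω ∈ BB n := ⟨hf, x, hx'.2, (sh_nm hx'.1).1⟩
      rw [Set.indicator_of_mem hB, mul_one]
      have hTC : T.card ≤ (cluster0 ω).ncard := by
        rw [Set.ncard_eq_toFinset_card _ hf]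
        apply Finset.card_le_card
        intro y hy
        rw [hT, Finset.mem_filter] at hy
        exact hf.mem_toFinset.2 hy.2
      have h2 : l^k * (T.card : ℝ) ≤ ((cluster0 ω).ncard : ℝ)^(k+1) + l^(k+1) := by
        have h3 : (T.card : ℝ) ≤ (cluster0 ω).ncard := by exact_mod_cast hTC
        have h4 : (0:ℝ) ≤ (T.card : ℝ) := Nat.cast_nonneg _
        rcases le_total (T.card : ℝ) l with h5 | h5
        · have h6 : l^k * (T.card : ℝ) ≤ l^(k+1) := by
            rw [pow_succ]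
            exact mul_le_mul_of_nonneg_left h5 (by positivity)
          have h7 : 0 ≤ ((cluster0 ω).ncard : ℝ)^(k+1) := by positivity
          linarith
        · have h6 : l^k * (T.card : ℝ) ≤ ((cluster0 ω).ncard : ℝ)^(k+1) := by
            rw [pow_succ]
            exact mul_le_mul (pow_le_pow_left₀ hl.le (h5.trans h3) k) h3 h4 (by positivity)
          have h7 : 0 ≤ l^(k+1) := by positivity
          linarith
      have h8 := ENNReal.ofReal_le_ofReal h2
      rw [ENNReal.ofReal_add (by positivity) (by positivity), ENNReal.ofReal_mul (by positivity),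
        ENNReal.ofReal_natCast, ENNReal.ofReal_pow (by positivity : (0:ℝ) ≤ (cluster0 ω).ncard),
        ENNReal.ofReal_natCast] at h8
      exact h8
  · have e1 : XX n ω = 0 := by
      unfold XX
      apply Finset.sum_eq_zero
      intro x _
      exact Set.indicator_of_notMem (fun h => hf h.2) _
    rw [e1, mul_zero]
    exact zero_le

theorem meas_ncard : Measurable (fun ω : sqLattice.edgeSet → Bool =>
    Set.indicator {ω | (cluster0 ω).Finite} (fun ω => ((cluster0 ω).ncard : ENNReal)) ω) := by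
  have h1 : (fun ω : sqLattice.edgeSet → Bool =>
      Set.indicator {ω | (cluster0 ω).Finite} (fun ω => ((cluster0 ω).ncard : ENNReal)) ω) =
      fun ω => ∑' x : Vtx, Set.indicator {ω | x ∈ cluster0 ω ∧ (cluster0 ω).Finite}
        (fun _ => (1:ENNReal)) ω := by
    funext ω
    by_cases hf : (cluster0 ω).Finite
    · rw [Set.indicator_of_mem (show ω ∈ {ω | (cluster0 ω).Finite} from hf)]
      have h2 : ∀ x : Vtx, Set.indicator {ω | x ∈ cluster0 ω ∧ (cluster0 ω).Finite}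
          (fun _ => (1:ENNReal)) ω = Set.indicator (cluster0 ω) (fun _ => (1:ENNReal)) x := by
        intro x
        by_cases hx : x ∈ cluster0 ω
        · rw [Set.indicator_of_mem (show ω ∈ {ω | x ∈ cluster0 ω ∧ (cluster0 ω).Finite} from
            ⟨hx, hf⟩), Set.indicator_of_mem hx]
        · rw [Set.indicator_of_notMem (show ω ∉ {ω | x ∈ cluster0 ω ∧ (cluster0 ω).Finite} from
            fun h => hx h.1), Set.indicator_of_notMem hx]
      rw [tsum_congr h2, ← tsum_subtype (cluster0 ω) (fun _ => (1 : ENNReal)),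
        ENNReal.tsum_set_one, hf.encard_eq_coe_toFinset_card, Set.ncard_eq_toFinset_card _ hf]
      rfl
    · rw [Set.indicator_of_notMem (show ω ∉ {ω | (cluster0 ω).Finite} from hf)]
      symm
      rw [ENNReal.tsum_eq_zero]
      intro x
      exact Set.indicator_of_notMem (fun h => hf h.2) _
  rw [h1]
  exact Measurable.ennreal_tsum fun x => (measurable_const (a := (1:ENNReal))).indicator (meas_xf x)

theorem mom_low_aux (p : unitInterval) (k n : ℕ) {l : ℝ} (hl : 0 < l) :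
    ENNReal.ofReal (l^k * ∑ x ∈ sh n, tauF p x) ≤
      TM (k + 1) p + ENNReal.ofReal (l^(k+1) * (bondLaw p).real (BB n)) := by
  have h1 : ∫⁻ ω, ENNReal.ofReal (l^k) * XX n ω ∂(bondLaw p) ≤ ∫⁻ ω,
      (Set.indicator {ω | (cluster0 ω).Finite} (fun ω => ((cluster0 ω).ncard : ENNReal)^(k+1)) ω +
      ENNReal.ofReal (l^(k+1)) * Set.indicator (BB n) (fun _ => (1:ENNReal)) ω) ∂(bondLaw p) :=
    lintegral_mono (fun ω => low_pt hl)
  have hm : Measurable (XX n) := by
    unfold XX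
    exact Finset.measurable_fun_sum _ (fun x _ =>
      (measurable_const (a := (1:ENNReal))).indicator (meas_xf x))
  have h2 : ∫⁻ ω, Set.indicator (BB n) (fun _ => (1:ENNReal)) ω ∂(bondLaw p) =
      (bondLaw p) (BB n) := lintegral_indicator_one (meas_BB _)
  rw [lintegral_const_mul _ hm, lintegral_XX, lintegral_add_right _
    (((measurable_const (a := (1:ENNReal))).indicator (meas_BB _)).const_mul _),
    lintegral_const_mul _ ((measurable_const (a := (1:ENNReal))).indicator (meas_BB _)), h2,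
    lintegral_indicator meas_fin] at h1
  rw [ENNReal.ofReal_mul (by positivity), ENNReal.ofReal_mul (by positivity), measureReal_def,
    ENNReal.ofReal_toReal (measure_ne_top _ _)]
  exact h1

theorem TM_one_le {p : unitInterval} (hp : (p:ℝ) ≤ 1/2) (k : ℕ) : 1 ≤ TM k p := by
  have h0 : (bondLaw p) {ω | (cluster0 ω).Infinite} = 0 := by
    have h1 : (bondLaw p).real {ω | (cluster0 ω).Infinite} = 0 := theta_half_le hp
    rw [measureReal_def, ENNReal.toReal_eq_zero_iff] at h1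
    rcases h1 with h1 | h1
    · exact h1
    · exact absurd h1 (measure_ne_top _ _)
  have h1 : (bondLaw p) {ω | (cluster0 ω).Finite} = 1 := by
    have h5 : {ω : sqLattice.edgeSet → Bool | (cluster0 ω).Finite} =
        {ω | (cluster0 ω).Infinite}ᶜ := by
      ext ω
      show (cluster0 ω).Finite ↔ ¬ (cluster0 ω).Infinite
      exact Set.not_infinite.symm
    rw [h5, prob_compl_eq_one_iff₀]
    · exact h0
    · have := meas_fin.compl
      rw [h5, compl_compl] at this
      exact this.nullMeasurableSet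
  calc (1:ENNReal) = ∫⁻ ω in {ω | (cluster0 ω).Finite}, 1 ∂(bondLaw p) := by
        rw [setLIntegral_one, h1]
    _ ≤ TM k p := by
        apply setLIntegral_mono' meas_fin
        intro ω hω
        have h2 : 1 ≤ (cluster0 ω).ncard :=
          (Set.ncard_pos hω).2 ⟨_, origin_mem ω⟩
        have h3 : (1:ENNReal) ≤ ((cluster0 ω).ncard : ENNReal) := by exact_mod_cast h2
        exact one_le_pow₀ h3

theorem mom_lower (k : ℕ) (hk : 1 ≤ k) : ∃ c : ℝ, 0 < c ∧ ∀ p : unitInterval, (p:ℝ) ≠ 1/2 →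
    (p:ℝ) ≤ 3/4 → ENNReal.ofReal (c * |(p:ℝ) - 1/2|^(-((91 * (k:ℝ) - 5)/36))) ≤ TM k p := by
  obtain ⟨a, C1, ha, hC1, hrad⟩ := rad_up
  obtain ⟨a', A, c2, C', ha', hA, hc2, hC', htwo⟩ := two_sides
  obtain ⟨j, rfl⟩ : ∃ j : ℕ, k = j + 1 := ⟨k - 1, by omega⟩
  obtain ⟨c3, hc3⟩ : ∃ c3 : ℝ, c3 = c2 * (3:ℝ)^(-(5/24) : ℝ) * Real.exp (-(4 * A)) := ⟨_, rfl⟩
  have hc30 : 0 < c3 := by rw [hc3]; positivity
  obtain ⟨q, hq⟩ : ∃ q : ℝ, q = c3 / (2 * C1) := ⟨_, rfl⟩
  have hq0 : 0 < q := by rw [hq]; positivity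
  obtain ⟨γ, hγ⟩ : ∃ γ : ℝ, γ = (91 * ((j + 1 : ℕ) : ℝ) - 5)/36 := ⟨_, rfl⟩
  have hγ0 : 0 < γ := by rw [hγ]; push_cast; have : (0:ℝ) ≤ j := Nat.cast_nonneg _; linarith
  refine ⟨min (q^j * (c3/2)) ((1/4 : ℝ)^γ), by positivity, ?_⟩
  intro p hp hp34
  rw [← hγ]
  obtain ⟨s, hs⟩ : ∃ s : ℝ, s = |(p:ℝ) - 1/2| := ⟨_, rfl⟩
  have hs0 : 0 < s := by rw [hs]; exact abs_pos.2 (sub_ne_zero.2 hp)
  have hs1 : s ≤ 1 := by
    rw [hs, abs_le]
    constructor
    · linarith [p.2.1]
    · linarith [p.2.2]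
  rw [← hs]
  have hsγ : 0 < s^(-γ) := Real.rpow_pos_of_pos hs0 _
  rcases lt_or_ge (p:ℝ) (1/4) with hp14 | hp14
  · refine le_trans ?_ (TM_one_le (by linarith) _)
    rw [← ENNReal.ofReal_one]
    apply ENNReal.ofReal_le_ofReal
    have hs4 : 1/4 ≤ s := by
      rw [hs, abs_sub_comm, abs_of_nonneg (by linarith)]
      linarith
    calc min (q^j * (c3/2)) ((1/4 : ℝ)^γ) * s^(-γ) ≤ (1/4 : ℝ)^γ * s^(-γ) :=
          mul_le_mul_of_nonneg_right (min_le_right _ _) hsγ.le
      _ ≤ s^γ * s^(-γ) := by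
          apply mul_le_mul_of_nonneg_right _ hsγ.le
          exact Real.rpow_le_rpow (by norm_num) hs4 hγ0.le
      _ = 1 := by rw [← Real.rpow_add hs0, add_neg_cancel, Real.rpow_zero]
  · obtain ⟨x, hx⟩ : ∃ x : ℝ, x = s^(-(4/3) : ℝ) := ⟨_, rfl⟩
    have hx1 : 1 ≤ x := by
      rw [hx]
      exact Real.one_le_rpow_of_pos_of_le_one_of_nonpos hs0 hs1 (by norm_num)
    obtain ⟨n, hn⟩ : ∃ n : ℕ, n = ⌈x⌉₊ := ⟨_, rfl⟩
    have hn1 : x ≤ n := by rw [hn]; exact Nat.le_ceil x
    have hn2 : (n:ℝ) ≤ 2 * x := by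
      have := Nat.ceil_lt_add_one (a := x) (by linarith)
      rw [hn]
      linarith
    have hn0 : (0:ℝ) < n := by linarith
    have hnN : 1 ≤ n := by exact_mod_cast hn0
    have hxs : x * s^(4/3 : ℝ) = 1 := by
      rw [hx, ← Real.rpow_add hs0]
      norm_num
    have hs43 : 0 < s^(4/3 : ℝ) := by positivity
    -- the radius
    have r1 : (bondLaw p).real (BB n) ≤ C1 * (n:ℝ)^(-(5/48) : ℝ) := by
      have h1 := hrad p n hnN
      rw [← hs] at h1
      refine h1.trans ?_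
      have h2 : Real.exp (-(a * (n * s^(4/3 : ℝ)))) ≤ 1 := by
        rw [Real.exp_le_one_iff]
        have : 0 ≤ a * (n * s^(4/3 : ℝ)) := by positivity
        linarith
      calc _ ≤ C1 * (n:ℝ)^(-(5/48) : ℝ) * 1 := mul_le_mul_of_nonneg_left h2 (by positivity)
        _ = _ := mul_one _
    -- the points
    have r2 : c3 * (n:ℝ)^(43/24 : ℝ) ≤ ∑ x ∈ sh n, tauF p x := by
      have h1 : ∀ z ∈ sh n, c3 * (n:ℝ)^(-(5/24) : ℝ) ≤ tauF p z := by
        intro z hz
        obtain ⟨z1, z2⟩ := sh_nm hz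
        have h2 := (htwo p hp14 hp34 z).1
        rw [← hs] at h2
        refine le_trans ?_ h2
        have z2' : (nm z : ℝ) ≤ 2 * n := by exact_mod_cast z2
        have h3 : (3:ℝ)^(-(5/24) : ℝ) * (n:ℝ)^(-(5/24) : ℝ) ≤ ((nm z : ℝ) + 1)^(-(5/24) : ℝ) := by
          rw [← Real.mul_rpow (by norm_num) hn0.le]
          apply Real.rpow_le_rpow_of_nonpos (by positivity) _ (by norm_num)
          have : (1:ℝ) ≤ n := by linarith
          linarith
        have h4 : Real.exp (-(4 * A)) ≤ Real.exp (-(A * (nm z * s^(4/3 : ℝ)))) := by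
          apply Real.exp_le_exp.2
          have h5 : (nm z : ℝ) * s^(4/3 : ℝ) ≤ 4 := by
            calc (nm z : ℝ) * s^(4/3 : ℝ) ≤ (4 * x) * s^(4/3 : ℝ) :=
                  mul_le_mul_of_nonneg_right (by linarith) hs43.le
              _ = 4 * (x * s^(4/3 : ℝ)) := by ring
              _ = 4 := by rw [hxs]; norm_num
          nlinarith
        calc c3 * (n:ℝ)^(-(5/24) : ℝ) = c2 * ((3:ℝ)^(-(5/24) : ℝ) * (n:ℝ)^(-(5/24) : ℝ)) *
              Real.exp (-(4 * A)) := by rw [hc3]; ring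
          _ ≤ _ := by
              apply mul_le_mul _ h4 (Real.exp_pos _).le (by positivity)
              exact mul_le_mul_of_nonneg_left h3 hc2.le
      calc c3 * (n:ℝ)^(43/24 : ℝ) = (n:ℝ)^2 * (c3 * (n:ℝ)^(-(5/24) : ℝ)) := by
            have : (n:ℝ)^(43/24 : ℝ) = (n:ℝ)^2 * (n:ℝ)^(-(5/24) : ℝ) := by
              rw [← Real.rpow_natCast (n:ℝ) 2, ← Real.rpow_add hn0]
              norm_num
            rw [this]
            ring
        _ ≤ (sh n).card * (c3 * (n:ℝ)^(-(5/24) : ℝ)) :=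
            mul_le_mul_of_nonneg_right sh_card (by positivity)
        _ = ∑ x ∈ sh n, (c3 * (n:ℝ)^(-(5/24) : ℝ)) := by
            rw [Finset.sum_const, nsmul_eq_mul]
        _ ≤ _ := Finset.sum_le_sum h1
    obtain ⟨l, hl⟩ : ∃ l : ℝ, l = q * (n:ℝ)^(91/48 : ℝ) := ⟨_, rfl⟩
    have hl0 : 0 < l := by rw [hl]; positivity
    have h1 := mom_low_aux p j n hl0
    have e1 : l * (C1 * (n:ℝ)^(-(5/48) : ℝ)) = c3/2 * (n:ℝ)^(43/24 : ℝ) := by
      have : (n:ℝ)^(43/24 : ℝ) = (n:ℝ)^(91/48 : ℝ) * (n:ℝ)^(-(5/48) : ℝ) := by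
        rw [← Real.rpow_add hn0]
        norm_num
      rw [this, hl, hq]
      field_simp
    have h2 : l^(j+1) * (bondLaw p).real (BB n) ≤ l^j * (c3/2 * (n:ℝ)^(43/24 : ℝ)) := by
      calc l^(j+1) * (bondLaw p).real (BB n) ≤ l^(j+1) * (C1 * (n:ℝ)^(-(5/48) : ℝ)) :=
            mul_le_mul_of_nonneg_left r1 (by positivity)
        _ = l^j * (l * (C1 * (n:ℝ)^(-(5/48) : ℝ))) := by ring
        _ = _ := by rw [e1]
    have h3 : l^j * (c3 * (n:ℝ)^(43/24 : ℝ)) ≤ l^j * ∑ x ∈ sh n, tauF p x :=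
      mul_le_mul_of_nonneg_left r2 (by positivity)
    have h4 : ENNReal.ofReal (l^j * (c3 * (n:ℝ)^(43/24 : ℝ))) ≤
        TM (j + 1) p + ENNReal.ofReal (l^j * (c3/2 * (n:ℝ)^(43/24 : ℝ))) :=
      (ENNReal.ofReal_le_ofReal h3).trans (h1.trans (by gcongr))
    have h5 : ENNReal.ofReal (l^j * (c3/2 * (n:ℝ)^(43/24 : ℝ))) ≤ TM (j + 1) p := by
      have h6 : ENNReal.ofReal (l^j * (c3 * (n:ℝ)^(43/24 : ℝ))) =
          ENNReal.ofReal (l^j * (c3/2 * (n:ℝ)^(43/24 : ℝ))) +
          ENNReal.ofReal (l^j * (c3/2 * (n:ℝ)^(43/24 : ℝ))) := by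
        rw [← ENNReal.ofReal_add (by positivity) (by positivity)]
        congr 1
        ring
      rw [h6] at h4
      exact (ENNReal.add_le_add_iff_right ENNReal.ofReal_ne_top).1 h4
    refine le_trans (ENNReal.ofReal_le_ofReal ?_) h5
    have e2 : l^j * (c3/2 * (n:ℝ)^(43/24 : ℝ)) = (q^j * (c3/2)) *
        (n:ℝ)^((91 * ((j + 1 : ℕ) : ℝ) - 5)/48) := by
      have e3 : (n:ℝ)^((91 * ((j + 1 : ℕ) : ℝ) - 5)/48) =
          ((n:ℝ)^(91/48 : ℝ))^j * (n:ℝ)^(43/24 : ℝ) := by
        rw [← Real.rpow_natCast ((n:ℝ)^(91/48 : ℝ)), ← Real.rpow_mul hn0.le, ← Real.rpow_add hn0]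
        congr 1
        push_cast
        ring
      rw [e3, hl, mul_pow]
      ring
    rw [e2]
    have e4 : s^(-γ) = x^((91 * ((j + 1 : ℕ) : ℝ) - 5)/48) := by
      rw [hx, ← Real.rpow_mul hs0.le]
      congr 1
      rw [hγ]
      ring
    rw [e4]
    apply mul_le_mul (min_le_left _ _) _ (by positivity) (by positivity)
    apply Real.rpow_le_rpow (by linarith) hn1
    push_cast
    have : (0:ℝ) ≤ j := Nat.cast_nonneg _
    linarith

end Pool.Agent.V11321.RS

namespace Pool.Agent.V11321.RS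

open H974 Finset MeasureTheory Pool.Agent.W424.NC H31K H362P

/-- Below and at the critical point the moments are the truncated ones. -/
theorem moment_eq {p : unitInterval} (hp : (p:ℝ) ≤ 1/2) (k : ℕ) :
    ∫⁻ ω, ((cluster0 ω).encard : ENNReal) ^ k ∂(bondLaw p) = TM k p := by
  have h0 : (bondLaw p) {ω | (cluster0 ω).Infinite} = 0 := by
    have h1 : (bondLaw p).real {ω | (cluster0 ω).Infinite} = 0 := theta_half_le hp
    rw [measureReal_def, ENNReal.toReal_eq_zero_iff] at h1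
    rcases h1 with h1 | h1
    · exact h1
    · exact absurd h1 (measure_ne_top _ _)
  have h5 : {ω : sqLattice.edgeSet → Bool | (cluster0 ω).Finite}ᶜ =
      {ω | (cluster0 ω).Infinite} := rfl
  rw [← lintegral_add_compl _ meas_fin, h5, setLIntegral_measure_zero _ _ h0, add_zero]
  unfold TM
  apply setLIntegral_congr_fun meas_fin
  intro ω hω
  simp only
  have h6 : (cluster0 ω).encard = ((cluster0 ω).ncard : ℕ∞) := (Set.Finite.cast_ncard_eq hω).symm
  rw [h6]
  simp

end Pool.Agent.V11321.RS
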