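import Pool.Agent.V11321.RS.Mom

/-!
Upper bounds for the truncated moments of the cluster size, bond percolation on `ℤ²`.
-/

set_option autoImplicit false

namespace Pool.Agent.V11321.RS

open H974 Finset MeasureTheory Pool.Agent.W424.NC H31K H362P
open Pool.Agent.H160R2.CV Pool.Agent.H160R2.CV.Quad

/-- The truncated `k`-th moment of the cluster size. -/
noncomputable def TM (k : ℕ) (p : unitInterval) : ENNReal :=
  ∫⁻ ω in {ω | (cluster0 ω).Finite}, ((cluster0 ω).ncard : ENNReal) ^ k ∂(bondLaw p)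

/-- numbers of connected tuples -/
noncomputable def Uq (m : ℕ) : ℕ → Finset Vtx → (sqLattice.edgeSet → Bool) → ENNReal
  | 0, X => Set.indicator {ω | Cn X (opn ω)} (fun _ => 1)
  | k + 1, X => fun ω => ∑ x ∈ bx m, Uq m k (insert x X) ω

theorem Uq_meas (m k : ℕ) (X : Finset Vtx) : Measurable (Uq m k X) := by
  induction k generalizing X with
  | zero => exact measurable_one.indicator (Cn_meas X)
  | succ k ih =>
    show Measurable (fun ω => ∑ x ∈ bx m, Uq m k (insert x X) ω)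
    exact Finset.measurable_fun_sum _ (fun x _ => ih _)

theorem lintegral_Uq (p : unitInterval) (m k : ℕ) (X : Finset Vtx) :
    ∫⁻ ω, Uq m k X ω ∂(bondLaw p) = ENNReal.ofReal (Wq p m k X) := by
  induction k generalizing X with
  | zero =>
    show ∫⁻ ω, Set.indicator {ω | Cn X (opn ω)} (fun _ => (1:ENNReal)) ω ∂(bondLaw p) =
      ENNReal.ofReal (PXq p X)
    have h2 : ∫⁻ ω, Set.indicator {ω | Cn X (opn ω)} (fun _ => (1:ENNReal)) ω ∂(bondLaw p) =
        (bondLaw p) {ω | Cn X (opn ω)} := lintegral_indicator_one (Cn_meas X)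
    rw [h2]
    unfold PXq
    rw [measureReal_def, ENNReal.ofReal_toReal (measure_ne_top _ _)]
  | succ k ih =>
    show ∫⁻ ω, ∑ x ∈ bx m, Uq m k (insert x X) ω ∂(bondLaw p) =
      ENNReal.ofReal (∑ x ∈ bx m, Wq p m k (insert x X))
    rw [lintegral_finsetSum _ (fun x _ => Uq_meas m k _),
      ENNReal.ofReal_sum_of_nonneg (fun x _ => Wq_nonneg p m k _)]
    exact Finset.sum_congr rfl (fun x _ => ih _)

theorem Uq_ge {m : ℕ} {ω : sqLattice.edgeSet → Bool} {T : Finset Vtx} (hT : T ⊆ bx m)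
    (hc : Cn T (opn ω)) (k : ℕ) (X : Finset Vtx) (hX : X ⊆ T) :
    ((T.card : ℕ) : ENNReal)^k ≤ Uq m k X ω := by
  induction k generalizing X with
  | zero =>
    show ((T.card : ℕ) : ENNReal)^0 ≤ Set.indicator {ω | Cn X (opn ω)} (fun _ => 1) ω
    have h1 : ω ∈ {ω | Cn X (opn ω)} := fun u hu v hv => hc u (hX hu) v (hX hv)
    rw [pow_zero, Set.indicator_of_mem h1]
  | succ k ih =>
    show ((T.card : ℕ) : ENNReal)^(k + 1) ≤ ∑ x ∈ bx m, Uq m k (insert x X) ω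
    calc ((T.card : ℕ) : ENNReal)^(k + 1) = ∑ x ∈ T, ((T.card : ℕ) : ENNReal)^k := by
          rw [Finset.sum_const, nsmul_eq_mul, pow_succ, mul_comm]
      _ ≤ ∑ x ∈ T, Uq m k (insert x X) ω :=
          Finset.sum_le_sum fun x hx => ih _ (Finset.insert_subset hx hX)
      _ ≤ _ := Finset.sum_le_sum_of_subset hT

theorem origin_mem (ω : sqLattice.edgeSet → Bool) : ((0:ℤ), (0:ℤ)) ∈ cluster0 ω :=
  SimpleGraph.Reachable.refl _

theorem mem_bx_nm {m : ℕ} {x : Vtx} (h : nm x ≤ m) : x ∈ bx m := by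
  unfold bx
  unfold nm at h
  rw [Finset.mem_product, Finset.mem_Icc, Finset.mem_Icc]
  omega

theorem clus_pow {m : ℕ} {ω : sqLattice.edgeSet → Bool} (hf : (cluster0 ω).Finite)
    (h : ∀ x ∈ cluster0 ω, nm x ≤ m) (k : ℕ) :
    ((cluster0 ω).ncard : ENNReal)^k ≤ Uq m k {(0, 0)} ω := by
  have e : (cluster0 ω).ncard = hf.toFinset.card := Set.ncard_eq_toFinset_card _ hf
  rw [e]
  apply Uq_ge
  · intro x hx
    exact mem_bx_nm (h x (hf.mem_toFinset.1 hx))
  · intro u hu v hv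
    have h1 := t10_reach (hf.mem_toFinset.1 hu)
    have h2 := t10_reach (hf.mem_toFinset.1 hv)
    exact h1.symm.trans h2
  · rw [Finset.singleton_subset_iff]
    exact hf.mem_toFinset.2 (origin_mem ω)

theorem meas_fin : MeasurableSet {ω : sqLattice.edgeSet → Bool | (cluster0 ω).Finite} := by
  have h4 : MeasurableSet {ω : sqLattice.edgeSet → Bool | (cluster0 ω).Infinite} := by
    rw [infinite_eq]
    exact MeasurableSet.iInter fun n => meas_event (boxE n) (Arm n)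
  have h5 : {ω : sqLattice.edgeSet → Bool | (cluster0 ω).Finite} =
      {ω | (cluster0 ω).Infinite}ᶜ := by
    ext ω
    show (cluster0 ω).Finite ↔ ¬ (cluster0 ω).Infinite
    exact Set.not_infinite.symm
  rw [h5]
  exact h4.compl

/-- a finite cluster of radius at least `n` -/
def BB (n : ℕ) : Set (sqLattice.edgeSet → Bool) :=
  {ω | (cluster0 ω).Finite ∧ ∃ x ∈ cluster0 ω, n ≤ nm x}

theorem meas_BB (n : ℕ) : MeasurableSet (BB n) := by
  have h1 : BB n = {ω | (cluster0 ω).Finite} ∩ ArmE n := by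
    ext ω
    have h2 := armE_reach n ω
    constructor
    · rintro ⟨h3, h4⟩
      exact ⟨h3, h2.2 h4⟩
    · rintro ⟨h3, h4⟩
      exact ⟨h3, h2.1 h4⟩
  rw [h1]
  exact meas_fin.inter (meas_event (boxE n) (Arm n))

theorem rad_up : ∃ a C : ℝ, 0 < a ∧ 0 < C ∧ ∀ p : unitInterval, ∀ n : ℕ, 1 ≤ n →
    (bondLaw p).real (BB n) ≤
      C * (n:ℝ)^(-(5/48) : ℝ) * Real.exp (-(a * (n * |(p:ℝ) - 1/2|^(4/3 : ℝ)))) := by
  obtain ⟨a1, C1, ha1, hC1, u1⟩ := trunc_up
  obtain ⟨a2, C2, ha2, hC2, u2⟩ := Pool.Agent.W424.NC.arm_upper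
  refine ⟨min a1 a2, max C1 C2, lt_min ha1 ha2, lt_max_of_lt_left hC1, ?_⟩
  intro p n hn
  have h0 : (bondLaw p).real (BB n) = arm p n - theta p := law_trunc p n
  rw [h0]
  have hn0 : (0:ℝ) < n := by exact_mod_cast hn
  have hpn : 0 < (n:ℝ)^(-(5/48) : ℝ) := by positivity
  have comp : ∀ {c c' A A' y : ℝ}, 0 ≤ y → c ≤ c' → 0 ≤ c' → A' ≤ A →
      c * (n:ℝ)^(-(5/48) : ℝ) * Real.exp (-(A * y)) ≤
        c' * (n:ℝ)^(-(5/48) : ℝ) * Real.exp (-(A' * y)) := by
    intro c c' A A' y hy hc hc' hA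
    have e1 : Real.exp (-(A * y)) ≤ Real.exp (-(A' * y)) := by
      apply Real.exp_le_exp.2
      nlinarith
    have e2 : 0 < Real.exp (-(A * y)) := Real.exp_pos _
    calc c * (n:ℝ)^(-(5/48) : ℝ) * Real.exp (-(A * y)) ≤
          c' * (n:ℝ)^(-(5/48) : ℝ) * Real.exp (-(A * y)) := by
          apply mul_le_mul_of_nonneg_right _ e2.le
          exact mul_le_mul_of_nonneg_right hc hpn.le
      _ ≤ _ := mul_le_mul_of_nonneg_left e1 (by positivity)
  rcases le_total (p:ℝ) (1/2) with h | h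
  · have e1 : |(p:ℝ) - 1/2| = 1/2 - p := by rw [abs_sub_comm, abs_of_nonneg (by linarith)]
    have e2 : theta p = 0 := theta_half_le h
    have hy : 0 ≤ n * (1/2 - (p:ℝ))^(4/3 : ℝ) :=
      mul_nonneg hn0.le (Real.rpow_nonneg (by linarith) _)
    rw [e1, e2, sub_zero]
    exact (u2 p p.2.1 h n hn).trans
      (comp hy (le_max_right _ _) (lt_max_of_lt_left hC1).le (min_le_right _ _))
  · have e1 : |(p:ℝ) - 1/2| = p - 1/2 := abs_of_nonneg (by linarith)
    have hy : 0 ≤ n * ((p:ℝ) - 1/2)^(4/3 : ℝ) :=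
      mul_nonneg hn0.le (Real.rpow_nonneg (by linarith) _)
    rw [e1]
    exact (u1 p h n hn).trans (comp hy (le_max_left _ _) (lt_max_of_lt_left hC1).le
        (min_le_left _ _))

/-! ### numerical part -/

theorem pow_exp_bd {b : ℝ} (hb : 0 < b) (N : ℕ) : ∃ K : ℝ, 0 < K ∧ ∀ y : ℝ, 0 ≤ y →
    (1 + y)^N * Real.exp (-(b * y)) ≤ K := by
  refine ⟨N.factorial / b^N * Real.exp b, by positivity, fun y hy => ?_⟩
  have h1 := Real.pow_div_factorial_le_exp (x := b * (1 + y)) (by positivity) N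
  have hf : (0:ℝ) < N.factorial := by positivity
  have h2 : (1 + y)^N ≤ N.factorial / b^N * Real.exp (b * (1 + y)) := by
    rw [mul_pow, div_le_iff₀ hf] at h1
    rw [div_mul_eq_mul_div, le_div_iff₀ (by positivity)]
    linarith
  calc (1 + y)^N * Real.exp (-(b * y)) ≤
        (N.factorial / b^N * Real.exp (b * (1 + y))) * Real.exp (-(b * y)) :=
        mul_le_mul_of_nonneg_right h2 (Real.exp_pos _).le
    _ = N.factorial / b^N * (Real.exp (b * (1 + y)) * Real.exp (-(b * y))) := by ring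
    _ = _ := by
        rw [← Real.exp_add]
        congr 2
        ring

theorem ab_eq {s : ℝ} (hs : 0 < s) {m : ℕ} (hm : 1 ≤ m) :
    ab s m = (m:ℝ)^(-(5/48) : ℝ) * (1 + (m * s^(4/3 : ℝ))^(5/48 : ℝ)) := by
  have hm0 : (0:ℝ) < m := by exact_mod_cast hm
  unfold ab
  rw [Real.mul_rpow hm0.le (by positivity), ← Real.rpow_mul hs.le, mul_add, mul_one, ← mul_assoc,
    ← Real.rpow_add hm0]
  norm_num

theorem term_bd {b : ℝ} (hb : 0 < b) (k : ℕ) (hk : 1 ≤ k) : ∃ K : ℝ, 0 < K ∧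
    ∀ s : ℝ, 0 < s → ∀ m : ℕ, 1 ≤ m →
    ((m:ℝ)^2)^k * (ab s m)^(k + 1) * Real.exp (-(b * (m * s^(4/3 : ℝ)))) ≤
      K * s^(-((91 * (k:ℝ) - 5)/36)) *
        ((m * s^(4/3 : ℝ)) / (1 + m * s^(4/3 : ℝ))^2) := by
  obtain ⟨K0, hK0, h0⟩ := pow_exp_bd hb (3 * k + 3)
  refine ⟨2^(k + 1) * K0, by positivity, ?_⟩
  intro s hs m hm
  have hm0 : (0:ℝ) < m := by exact_mod_cast hm
  have hk0 : (1:ℝ) ≤ k := by exact_mod_cast hk
  obtain ⟨y, hy⟩ : ∃ y : ℝ, y = m * s^(4/3 : ℝ) := ⟨_, rfl⟩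
  have hy0 : 0 < y := by rw [hy]; positivity
  rw [ab_eq hs hm, ← hy]
  obtain ⟨δ, hδ⟩ : ∃ δ : ℝ, δ = (91 * (k:ℝ) - 5)/48 := ⟨_, rfl⟩
  have e1 : ((m:ℝ)^2)^k * ((m:ℝ)^(-(5/48) : ℝ))^(k + 1) = (m:ℝ)^δ := by
    rw [← pow_mul, ← Real.rpow_natCast, ← Real.rpow_natCast ((m:ℝ)^(-(5/48) : ℝ)),
      ← Real.rpow_mul hm0.le, ← Real.rpow_add hm0]
    congr 1
    rw [hδ]
    push_cast
    ring
  have e2 : (m:ℝ)^δ = y^δ * s^(-((91 * (k:ℝ) - 5)/36)) := by
    rw [hy, Real.mul_rpow hm0.le (by positivity), ← Real.rpow_mul hs.le, mul_assoc,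
      ← Real.rpow_add hs]
    have : 4 / 3 * δ + -((91 * (k:ℝ) - 5)/36) = 0 := by rw [hδ]; ring
    rw [this, Real.rpow_zero, mul_one]
  have h1 : 1 + y^(5/48 : ℝ) ≤ 2 * (1 + y) := by
    have : y^(5/48 : ℝ) ≤ 1 + y := by
      rcases le_total y 1 with h | h
      · have := Real.rpow_le_one hy0.le h (by norm_num : (0:ℝ) ≤ 5/48)
        linarith
      · have : y^(5/48 : ℝ) ≤ y^(1:ℝ) := Real.rpow_le_rpow_of_exponent_le h (by norm_num)
        rw [Real.rpow_one] at this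
        linarith
    linarith
  have h2 : y^δ ≤ y * (1 + y)^(2 * k) := by
    have g1 : y^δ = y * y^(δ - 1) := by
      rw [mul_comm, ← Real.rpow_add_one hy0.ne']
      congr 1
      ring
    rw [g1]
    apply mul_le_mul_of_nonneg_left _ hy0.le
    calc y^(δ - 1) ≤ (1 + y)^(δ - 1) := Real.rpow_le_rpow hy0.le (by linarith) (by
          rw [hδ]; linarith)
      _ ≤ (1 + y)^(((2 * k : ℕ)) : ℝ) := by
          apply Real.rpow_le_rpow_of_exponent_le (by linarith)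
          rw [hδ]
          push_cast
          linarith
      _ = _ := Real.rpow_natCast _ _
  have hse : 0 < s^(-((91 * (k:ℝ) - 5)/36)) := Real.rpow_pos_of_pos hs _
  have hex : 0 < Real.exp (-(b * y)) := Real.exp_pos _
  have hyp : 0 ≤ 1 + y^(5/48 : ℝ) := by positivity
  calc ((m:ℝ)^2)^k * ((m:ℝ)^(-(5/48) : ℝ) * (1 + y^(5/48 : ℝ)))^(k + 1) * Real.exp (-(b * y))
      = (((m:ℝ)^2)^k * ((m:ℝ)^(-(5/48) : ℝ))^(k + 1)) * (1 + y^(5/48 : ℝ))^(k + 1) *
          Real.exp (-(b * y)) := by rw [mul_pow]; ring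
    _ = (y^δ * s^(-((91 * (k:ℝ) - 5)/36))) * (1 + y^(5/48 : ℝ))^(k + 1) *
          Real.exp (-(b * y)) := by rw [e1, e2]
    _ ≤ ((y * (1 + y)^(2 * k)) * s^(-((91 * (k:ℝ) - 5)/36))) * (2 * (1 + y))^(k + 1) *
          Real.exp (-(b * y)) := by
        apply mul_le_mul_of_nonneg_right _ hex.le
        apply mul_le_mul
        · exact mul_le_mul_of_nonneg_right h2 hse.le
        · exact pow_le_pow_left₀ hyp h1 _
        · positivity
        · positivity
    _ = 2^(k + 1) * s^(-((91 * (k:ℝ) - 5)/36)) * (y / (1 + y)^2) *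
          ((1 + y)^(3 * k + 3) * Real.exp (-(b * y))) := by
        have h3 : (1 + y) ≠ 0 := by positivity
        have h4 : (1 + y)^(3 * k + 3) = (1 + y)^(2 * k) * (1 + y)^(k + 1) * (1 + y)^2 := by ring
        rw [h4, mul_pow]
        field_simp
    _ ≤ 2^(k + 1) * s^(-((91 * (k:ℝ) - 5)/36)) * (y / (1 + y)^2) * K0 := by
        apply mul_le_mul_of_nonneg_left (h0 y hy0.le)
        positivity
    _ = _ := by ring

theorem tele {t : ℝ} (ht : 0 < t) (N : ℕ) :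
    ∑ i ∈ range N, (((2^(i+1) : ℕ) : ℝ) * t) / (1 + ((2^(i+1) : ℕ) : ℝ) * t)^2 ≤
      2 * ((((2^(N+1) : ℕ) : ℝ) * t) / (1 + ((2^(N+1) : ℕ) : ℝ) * t)) := by
  induction N with
  | zero => rw [Finset.sum_range_zero]; positivity
  | succ N ih =>
    rw [Finset.sum_range_succ]
    obtain ⟨z, hz⟩ : ∃ z : ℝ, z = ((2^(N+1) : ℕ) : ℝ) * t := ⟨_, rfl⟩
    have hz0 : 0 < z := by rw [hz]; positivity
    have e : ((2^(N+1+1) : ℕ) : ℝ) * t = 2 * z := by
      rw [hz]; push_cast; ring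
    rw [e]
    rw [← hz] at ih ⊢
    have h1 : z / (1 + z)^2 ≤ 2 * ((2 * z) / (1 + 2 * z)) - 2 * (z / (1 + z)) := by
      have e2 : 2 * ((2 * z) / (1 + 2 * z)) - 2 * (z / (1 + z)) =
          2 * z / ((1 + 2 * z) * (1 + z)) := by
        field_simp
        ring
      rw [e2, div_le_div_iff₀ (by positivity) (by positivity)]
      nlinarith [mul_pos hz0 hz0]
    linarith

theorem amgm {t l : ℝ} (hl : 0 < l) : t ≤ l * t^2 + l⁻¹ := by
  have h1 : l * t^2 + l⁻¹ - t = l * ((t - (2*l)⁻¹)^2 + 3 * (2*l)⁻¹^2) := by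
    field_simp
    ring
  have h2 : 0 ≤ l * ((t - (2*l)⁻¹)^2 + 3 * (2*l)⁻¹^2) := by positivity
  linarith

theorem amgmE (c k : ℕ) {l : ℝ} (hl : 0 < l) :
    (c : ENNReal)^k ≤ ENNReal.ofReal l * (c : ENNReal)^(2 * k) + ENNReal.ofReal l⁻¹ := by
  have e1 : (c : ENNReal)^k = ENNReal.ofReal ((c:ℝ)^k) := by
    rw [ENNReal.ofReal_pow (by positivity), ENNReal.ofReal_natCast]
  have e2 : (c : ENNReal)^(2 * k) = ENNReal.ofReal (((c:ℝ)^k)^2) := by
    rw [← pow_mul, mul_comm k 2, ENNReal.ofReal_pow (by positivity), ENNReal.ofReal_natCast]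
  rw [e1, e2, ← ENNReal.ofReal_mul hl.le, ← ENNReal.ofReal_add (by positivity) (by positivity)]
  exact ENNReal.ofReal_le_ofReal (amgm hl)

/-! ### the upper bound -/

theorem dyadic (k : ℕ) (l : ℕ → ℝ) (hl : ∀ i, 0 < l i) {ω : sqLattice.edgeSet → Bool}
    (hf : (cluster0 ω).Finite) :
    ((cluster0 ω).ncard : ENNReal)^k ≤ 1 + ∑' i : ℕ,
      (ENNReal.ofReal (l i) * Uq (2^(i+1)) (2 * k) {(0, 0)} ω +
        ENNReal.ofReal (l i)⁻¹ * Set.indicator (BB (2^i)) (fun _ => (1:ENNReal)) ω) := by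
  obtain ⟨x, hx, hmax⟩ := Set.exists_max_image (cluster0 ω) nm hf ⟨_, origin_mem ω⟩
  rcases Nat.eq_zero_or_pos (nm x) with h0 | h0
  · have h1 : cluster0 ω ⊆ {((0:ℤ), (0:ℤ))} := by
      intro y hy
      have h2 := hmax y hy
      rw [h0] at h2
      unfold nm at h2
      rw [Set.mem_singleton_iff]
      apply Prod.ext
      · simp only; omega
      · simp only; omega
    have h2 : (cluster0 ω).ncard ≤ 1 := by
      calc (cluster0 ω).ncard ≤ ({((0:ℤ), (0:ℤ))} : Set (ℤ × ℤ)).ncard :=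
            Set.ncard_le_ncard h1 (Set.finite_singleton _)
        _ = 1 := Set.ncard_singleton _
    refine le_trans ?_ le_self_add
    calc ((cluster0 ω).ncard : ENNReal)^k ≤ 1^k := by
          apply pow_le_pow_left₀ (by positivity)
          exact_mod_cast h2
      _ = 1 := one_pow _
  · obtain ⟨i, hi⟩ : ∃ i : ℕ, i = Nat.log 2 (nm x) := ⟨_, rfl⟩
    have h1 : 2^i ≤ nm x := by rw [hi]; exact Nat.pow_log_le_self 2 (by omega)
    have h2 : nm x < 2^(i+1) := by rw [hi]; exact Nat.lt_pow_succ_log_self (by norm_num) _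
    have h3 : ω ∈ BB (2^i) := ⟨hf, x, hx, h1⟩
    have h4 := clus_pow hf (m := 2^(i+1)) (fun y hy => (hmax y hy).trans h2.le) (2 * k)
    have h5 := amgmE (cluster0 ω).ncard k (hl i)
    have h6 := ENNReal.le_tsum (f := fun i : ℕ =>
      (ENNReal.ofReal (l i) * Uq (2^(i+1)) (2 * k) {(0, 0)} ω +
        ENNReal.ofReal (l i)⁻¹ * Set.indicator (BB (2^i)) (fun _ => (1:ENNReal)) ω)) i
    refine le_trans ?_ (h6.trans le_add_self)
    have h7 : Set.indicator (BB (2^i)) (fun _ => (1:ENNReal)) ω = 1 :=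
      Set.indicator_of_mem h3 _
    calc ((cluster0 ω).ncard : ENNReal)^k ≤ _ := h5
      _ ≤ ENNReal.ofReal (l i) * Uq (2^(i+1)) (2 * k) {(0, 0)} ω +
          ENNReal.ofReal (l i)⁻¹ * 1 := by rw [mul_one]; gcongr
      _ = ENNReal.ofReal (l i) * Uq (2^(i+1)) (2 * k) {(0, 0)} ω +
          ENNReal.ofReal (l i)⁻¹ * Set.indicator (BB (2^i)) (fun _ => (1:ENNReal)) ω := by
          rw [h7]

theorem mom_upper (k : ℕ) (hk : 1 ≤ k) : ∃ C : ℝ, 0 < C ∧ ∀ p : unitInterval, (p:ℝ) ≠ 1/2 →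
    TM k p ≤ ENNReal.ofReal (C * |(p:ℝ) - 1/2|^(-((91 * (k:ℝ) - 5)/36))) := by
  obtain ⟨a, C1, ha, hC1, hrad⟩ := rad_up
  obtain ⟨C2, hC2, hmom⟩ := Wq_zero (2 * k - 1)
  obtain ⟨K, hK, hterm⟩ := term_bd (b := a/4) (by positivity) k hk
  have e2k : 2 * k - 1 + 1 = 2 * k := by omega
  rw [e2k] at hmom
  have hk0 : (1:ℝ) ≤ k := by exact_mod_cast hk
  refine ⟨1 + (C2 + 2 * C1) * K * 2, by positivity, ?_⟩
  intro p hp
  obtain ⟨s, hs⟩ : ∃ s : ℝ, s = |(p:ℝ) - 1/2| := ⟨_, rfl⟩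
  have hs0 : 0 < s := by rw [hs]; exact abs_pos.2 (sub_ne_zero.2 hp)
  have hs1 : s ≤ 1 := by
    rw [hs, abs_le]
    constructor
    · linarith [p.2.1]
    · linarith [p.2.2]
  have hrad' := hrad p
  have hmom' := hmom p
  rw [← hs] at hrad' hmom' ⊢
  obtain ⟨t, ht⟩ : ∃ t : ℝ, t = s^(4/3 : ℝ) := ⟨_, rfl⟩
  have ht0 : 0 < t := by rw [ht]; positivity
  obtain ⟨M, hM⟩ : ∃ M : ℝ, M = s^(-((91 * (k:ℝ) - 5)/36)) := ⟨_, rfl⟩
  have hM1 : 1 ≤ M := by
    rw [hM]
    exact Real.one_le_rpow_of_pos_of_le_one_of_nonpos hs0 hs1 (by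
      have : 0 ≤ (91 * (k:ℝ) - 5)/36 := by linarith
      linarith)
  rw [← hM]
  -- the weights
  obtain ⟨l, hl⟩ : ∃ l : ℕ → ℝ, l = fun i => ((((2^(i+1) : ℕ) : ℝ)^2 * ab s (2^(i+1)))^k)⁻¹ *
    Real.exp (-(a/4 * (((2^(i+1) : ℕ) : ℝ) * t))) := ⟨_, rfl⟩
  have hab : ∀ i : ℕ, 0 < ab s (2^(i+1)) := fun i => ab_pos hs0.le Nat.one_le_two_pow
  have hl0 : ∀ i, 0 < l i := by
    intro i
    have := hab i
    rw [hl]
    simp only
    positivity
  have hpt : ∀ i : ℕ, ENNReal.ofReal (l i) * ENNReal.ofReal (Wq p (2^(i+1)) (2 * k) {(0, 0)}) +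
      ENNReal.ofReal (l i)⁻¹ * ENNReal.ofReal ((bondLaw p).real (BB (2^i))) ≤
      ENNReal.ofReal ((C2 + 2 * C1) * K * M * ((((2^(i+1) : ℕ) : ℝ) * t) /
        (1 + ((2^(i+1) : ℕ) : ℝ) * t)^2)) := by
    intro i
    obtain ⟨m, hm⟩ : ∃ m : ℕ, m = 2^(i+1) := ⟨_, rfl⟩
    have hm1 : 1 ≤ m := by rw [hm]; exact Nat.one_le_two_pow
    have hm0 : (0:ℝ) < m := by exact_mod_cast hm1
    have hl1 : l i = (((m:ℝ)^2 * ab s m)^k)⁻¹ * Real.exp (-(a/4 * ((m:ℝ) * t))) := by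
      rw [hl, hm]
    have hbm := ab_pos hs0.le hm1
    have k1 := hmom' m hm1
    have k2 := hrad' (2^i) Nat.one_le_two_pow
    have k3 := hterm s hs0 m hm1
    rw [← ht] at k2 k3
    rw [← hM] at k3
    rw [← hm]
    have hl0i := hl0 i
    have em : ((2^i : ℕ) : ℝ) = m / 2 := by
      rw [hm]; push_cast; ring
    rw [em] at k2
    have hPB : 0 ≤ (bondLaw p).real (BB (2^i)) := measureReal_nonneg
    have hW := Wq_nonneg p m (2 * k) {(0, 0)}
    obtain ⟨e, he⟩ : ∃ e : ℝ, e = Real.exp (-(a/4 * ((m:ℝ) * t))) := ⟨_, rfl⟩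
    have he0 : 0 < e := by rw [he]; exact Real.exp_pos _
    rw [← he] at hl1 k3
    have ee : Real.exp (-(a * (m / 2 * t))) = e * e := by
      rw [he, ← Real.exp_add]; congr 1; ring
    rw [ee] at k2
    obtain ⟨D, hD⟩ : ∃ D : ℝ, D = ((m:ℝ)^2 * ab s m)^k := ⟨_, rfl⟩
    have hD0 : 0 < D := by rw [hD]; positivity
    rw [← hD] at hl1
    have eD : ((m:ℝ)^2 * ab s m)^(2 * k) = D * D := by
      rw [hD, ← pow_add]; congr 1; ring
    rw [eD] at k1
    have f1 : l i * Wq p m (2 * k) {(0, 0)} ≤ C2 * (D * ab s m * e) := by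
      calc l i * Wq p m (2 * k) {(0, 0)} ≤ l i * (C2 * (D * D * ab s m)) :=
            mul_le_mul_of_nonneg_left k1 hl0i.le
        _ = C2 * (D * ab s m * e) := by
            rw [hl1]
            field_simp
    have f2 : (l i)⁻¹ * (bondLaw p).real (BB (2^i)) ≤ (2 * C1) * (D * ab s m * e) := by
      have g1 : ((m:ℝ) / 2)^(-(5/48) : ℝ) ≤ 2 * ab s m := by
        have : (2:ℝ)^(5/48 : ℝ) ≤ 2 := by
          calc (2:ℝ)^(5/48 : ℝ) ≤ (2:ℝ)^(1:ℝ) :=
                Real.rpow_le_rpow_of_exponent_le (by norm_num) (by norm_num)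
            _ = 2 := Real.rpow_one _
        rw [Real.div_rpow hm0.le (by norm_num), Real.rpow_neg (by norm_num : (0:ℝ) ≤ 2),
          div_inv_eq_mul, mul_comm]
        have g2 : (m:ℝ)^(-(5/48) : ℝ) ≤ ab s m := by
          unfold ab
          have : 0 ≤ s^(5/36 : ℝ) := by positivity
          linarith
        exact mul_le_mul this g2 (by positivity) (by norm_num)
      calc (l i)⁻¹ * (bondLaw p).real (BB (2^i)) ≤
            (l i)⁻¹ * (C1 * ((m:ℝ) / 2)^(-(5/48) : ℝ) * (e * e)) :=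
            mul_le_mul_of_nonneg_left k2 (inv_nonneg.2 hl0i.le)
        _ ≤ (l i)⁻¹ * (C1 * (2 * ab s m) * (e * e)) := by
            apply mul_le_mul_of_nonneg_left _ (inv_nonneg.2 hl0i.le)
            apply mul_le_mul_of_nonneg_right _ (by positivity)
            exact mul_le_mul_of_nonneg_left g1 hC1.le
        _ = (2 * C1) * (D * ab s m * e) := by
            rw [hl1]
            field_simp
    have f3 : D * ab s m * e ≤ K * M * (((m:ℝ) * t) / (1 + (m:ℝ) * t)^2) := by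
      refine le_trans (le_of_eq ?_) k3
      rw [hD, mul_pow]
      ring
    rw [← ENNReal.ofReal_mul hl0i.le, ← ENNReal.ofReal_mul (inv_nonneg.2 hl0i.le),
      ← ENNReal.ofReal_add (mul_nonneg hl0i.le hW) (mul_nonneg (inv_nonneg.2 hl0i.le) hPB)]
    apply ENNReal.ofReal_le_ofReal
    calc l i * Wq p m (2 * k) {(0, 0)} + (l i)⁻¹ * (bondLaw p).real (BB (2^i))
        ≤ (C2 + 2 * C1) * (D * ab s m * e) := by linarith
      _ ≤ (C2 + 2 * C1) * (K * M * (((m:ℝ) * t) / (1 + (m:ℝ) * t)^2)) :=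
          mul_le_mul_of_nonneg_left f3 (by positivity)
      _ = _ := by ring
  have hmeas : ∀ i : ℕ, Measurable (fun ω : sqLattice.edgeSet → Bool =>
      (ENNReal.ofReal (l i) * Uq (2^(i+1)) (2 * k) {(0, 0)} ω +
        ENNReal.ofReal (l i)⁻¹ * Set.indicator (BB (2^i)) (fun _ => (1:ENNReal)) ω)) := by
    intro i
    exact ((Uq_meas _ _ _).const_mul _).add
      ((measurable_one.indicator (meas_BB _)).const_mul _)
  calc TM k p ≤ ∫⁻ ω in {ω | (cluster0 ω).Finite}, (1 + ∑' i : ℕ,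
      (ENNReal.ofReal (l i) * Uq (2^(i+1)) (2 * k) {(0, 0)} ω +
        ENNReal.ofReal (l i)⁻¹ * Set.indicator (BB (2^i)) (fun _ => (1:ENNReal)) ω))
          ∂(bondLaw p) :=
        setLIntegral_mono' meas_fin (fun ω hω => dyadic k l hl0 hω)
    _ ≤ ∫⁻ ω, (1 + ∑' i : ℕ,
      (ENNReal.ofReal (l i) * Uq (2^(i+1)) (2 * k) {(0, 0)} ω +
        ENNReal.ofReal (l i)⁻¹ * Set.indicator (BB (2^i)) (fun _ => (1:ENNReal)) ω))
          ∂(bondLaw p) := setLIntegral_le_lintegral _ _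
    _ = 1 + ∑' i : ℕ, ∫⁻ ω,
      (ENNReal.ofReal (l i) * Uq (2^(i+1)) (2 * k) {(0, 0)} ω +
        ENNReal.ofReal (l i)⁻¹ * Set.indicator (BB (2^i)) (fun _ => (1:ENNReal)) ω)
          ∂(bondLaw p) := by
        rw [lintegral_add_left measurable_const, lintegral_const, measure_univ, one_mul,
          lintegral_tsum (fun i => (hmeas i).aemeasurable)]
    _ = 1 + ∑' i : ℕ, (ENNReal.ofReal (l i) * ENNReal.ofReal (Wq p (2^(i+1)) (2 * k) {(0, 0)}) +
      ENNReal.ofReal (l i)⁻¹ * ENNReal.ofReal ((bondLaw p).real (BB (2^i)))) := by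
        congr 1
        refine tsum_congr fun i => ?_
        have h2 : ∫⁻ ω, Set.indicator (BB (2^i)) (fun _ => (1:ENNReal)) ω ∂(bondLaw p) =
            (bondLaw p) (BB (2^i)) := lintegral_indicator_one (meas_BB _)
        rw [lintegral_add_left ((Uq_meas _ _ _).const_mul _),
          lintegral_const_mul _ (Uq_meas _ _ _), lintegral_Uq,
          lintegral_const_mul _ ((measurable_const (a := (1:ENNReal))).indicator (meas_BB _)), h2,
          measureReal_def,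
          ENNReal.ofReal_toReal (measure_ne_top _ _)]
    _ ≤ 1 + ∑' i : ℕ, ENNReal.ofReal ((C2 + 2 * C1) * K * M * ((((2^(i+1) : ℕ) : ℝ) * t) /
        (1 + ((2^(i+1) : ℕ) : ℝ) * t)^2)) := by
        gcongr with i
        exact hpt i
    _ ≤ 1 + ENNReal.ofReal ((C2 + 2 * C1) * K * M * 2) := by
        gcongr
        apply ENNReal.tsum_le_of_sum_range_le
        intro N
        rw [← ENNReal.ofReal_sum_of_nonneg (fun i _ => by positivity)]
        apply ENNReal.ofReal_le_ofReal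
        rw [← Finset.mul_sum]
        apply mul_le_mul_of_nonneg_left _ (by positivity)
        refine (tele ht0 N).trans ?_
        have h5 : (((2^(N+1) : ℕ) : ℝ) * t) / (1 + ((2^(N+1) : ℕ) : ℝ) * t) ≤ 1 := by
          rw [div_le_one (by positivity)]
          linarith
        linarith
    _ ≤ _ := by
        rw [← ENNReal.ofReal_one, ← ENNReal.ofReal_add (by norm_num) (by positivity)]
        apply ENNReal.ofReal_le_ofReal
        nlinarith

end Pool.Agent.V11321.RS
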