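import Pool.Agent.Y554.NC.Theta
import Pool.Agent.W424.NC.Win
import Pool.Agent.W424.NC.Corr

/-!
Bond percolation on `ℤ²` near the critical point: the radius of a finite cluster.
-/

set_option autoImplicit false

namespace Pool.Agent.V11321.RS

open H974 Finset MeasureTheory Pool.Agent.W424.NC

/-! ### failure probabilities -/

theorem eps_pow2 {p : ℝ} (h0 : 0 ≤ p) (h1 : p ≤ 1) {N : ℕ} (hN : 2 ≤ N)
    (he : eps p N ≤ 1/100) (j : ℕ) : 25 * eps p (2^j * N) ≤ (1/4 : ℝ)^(2^j) := by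
  induction j with
  | zero => simp; linarith
  | succ j ih =>
    have hN2 : 2 ≤ 2^j * N := le_trans hN (Nat.le_mul_of_pos_left _ (by positivity))
    have h := eps_double h0 h1 hN2
    have h2 : 2 * (2^j * N) = 2^(j+1) * N := by ring
    rw [h2] at h
    have h3 := eps_nonneg h0 h1 (2^j * N)
    have h4 : (25 * eps p (2^j * N))^2 ≤ ((1/4 : ℝ)^(2^j))^2 :=
      pow_le_pow_left₀ (by positivity) ih 2
    have h5 : ((1/4 : ℝ)^(2^j))^2 = (1/4 : ℝ)^(2^(j+1)) := by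
      rw [← pow_mul, pow_succ]
    rw [← h5]
    nlinarith

theorem quarter_add (a b : ℕ) (hb : 1 ≤ b) : (1/4 : ℝ)^(2^(a+b)) ≤ (1/4 : ℝ)^(2^a) * (1/2)^(b+1) := by
  have h1 : 2^(a+b) = 2^a + 2^a * (2^b - 1) := by
    obtain ⟨t, ht⟩ : ∃ t, 2^b = t + 1 :=
      ⟨2^b - 1, (Nat.sub_add_cancel (Nat.one_le_two_pow)).symm⟩
    rw [pow_add, ht, Nat.add_sub_cancel]
    ring
  rw [h1, pow_add]
  apply mul_le_mul_of_nonneg_left _ (by positivity)
  have h2 : b ≤ 2^b - 1 := by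
    have : b < 2^b := Nat.lt_two_pow_self
    omega
  have h3 : 2^b - 1 ≤ 2^a * (2^b - 1) := Nat.le_mul_of_pos_left _ (by positivity)
  have h4 : (1/4 : ℝ)^(2^a * (2^b - 1)) ≤ (1/4 : ℝ)^b :=
    pow_le_pow_of_le_one (by norm_num) (by norm_num) (h2.trans h3)
  refine h4.trans ?_
  have h5 : (1/4 : ℝ)^b = (1/2)^b * (1/2)^b := by
    rw [← mul_pow]; norm_num
  rw [h5, pow_succ]
  apply mul_le_mul_of_nonneg_left _ (by positivity)
  calc (1/2 : ℝ)^b ≤ (1/2)^1 := pow_le_pow_of_le_one (by norm_num) (by norm_num) hb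
    _ = 1/2 := by norm_num

/-- All the crossings from the scale `2 ^ j N` on. -/
theorem pr_all {p : ℝ} (h0 : 0 ≤ p) (h1 : p ≤ 1) {N : ℕ} (hN : 2 ≤ N)
    (he : eps p N ≤ 1/100) (j J : ℕ) {S : Finset Edg}
    (hS : boxE (2 * (2^J * (2^j * N))) ⊆ S) :
    1 - (1/4 : ℝ)^(2^j) ≤ Pr (fun _ => p) S (fun F => Circ (2^j * N : ℕ) (2 * (2^j * N) : ℕ) F ∧
      ∀ i ≤ J, Step (2^j * N) i F) := by
  have ok := okq h0 h1
  obtain ⟨M, hM⟩ : ∃ M, M = 2^j * N := ⟨_, rfl⟩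
  have hM2 : 2 ≤ M := by rw [hM]; exact le_trans hN (Nat.le_mul_of_pos_left _ (by positivity))
  rw [← hM] at hS ⊢
  have hle : M ≤ 2^J * M := Nat.le_mul_of_pos_left _ (by positivity)
  have hbox : boxE (2 * M) ⊆ S := (boxE_mono (by omega)).trans hS
  have e1 := pr_circ_ge h0 h1 hM2 hbox
  have e2 := eps_pow2 h0 h1 hN he j
  rw [← hM] at e2
  have e3 : ∀ J : ℕ, boxE (2 * (2^J * M)) ⊆ S → 1 - (1/25) * ((1/4 : ℝ)^(2^j) * (2 - (1/2)^(J+1))) ≤
      Pr (fun _ => p) S (fun F => ∀ i ≤ J, Step M i F) := by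
    intro J
    induction J with
    | zero =>
      intro hS
      have e : Pr (fun _ => p) S (fun F => ∀ j ≤ 0, Step M j F) = Pr (fun _ => p) S (Step M 0) := by
        apply Pr_congr
        intro F _
        constructor
        · intro h; exact h 0 le_rfl
        · intro h j hj
          have : j = 0 := by omega
          rw [this]; exact h
      rw [e, pr_step hS]
      simp only [pow_zero, one_mul]
      have : (0:ℝ) < (1/4)^(2^j) := by positivity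
      norm_num
      nlinarith
    | succ J ih =>
      intro hS
      have hle : 2 * (2^J * M) ≤ 2 * (2^(J+1) * M) := by
        rw [pow_succ]
        nlinarith [Nat.zero_le (2^J * M)]
      have hS' : boxE (2 * (2^J * M)) ⊆ S := (boxE_mono hle).trans hS
      have i1 := ih hS'
      have i2 := Pr_and_ge ok S (fun F => ∀ j ≤ J, Step M j F) (Step M (J + 1))
      have i3 : Pr (fun _ => p) S (fun F => (∀ j ≤ J, Step M j F) ∧ Step M (J + 1) F) =
          Pr (fun _ => p) S (fun F => ∀ j ≤ J + 1, Step M j F) := by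
        apply Pr_congr
        intro F _
        constructor
        · rintro ⟨h, h'⟩ j hj
          rcases Nat.lt_or_ge j (J + 1) with hlt | hge
          · exact h j (by omega)
          · have : j = J + 1 := by omega
            rw [this]; exact h'
        · intro h
          exact ⟨fun j hj => h j (by omega), h _ le_rfl⟩
      rw [pr_step hS, i3] at i2
      have h3 := eps_pow2 h0 h1 hN he (j + (J + 1))
      have h4 : 2^(j + (J + 1)) * N = 2^(J+1) * M := by rw [hM, pow_add]; ring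
      rw [h4] at h3
      have h5 := quarter_add j (J + 1) (by omega)
      have h6 : (1/2 : ℝ)^(J + 1) = 2 * (1/2)^(J + 1 + 1) := by rw [pow_succ (1/2 : ℝ) (J+1)]; ring
      have h7 : (1/4 : ℝ)^(2^j) * (2 - (1/2)^(J + 1)) =
          (1/4 : ℝ)^(2^j) * (2 - (1/2)^(J + 1 + 1)) - (1/4 : ℝ)^(2^j) * (1/2)^(J + 1 + 1) := by
        rw [h6]; ring
      rw [h7] at i1
      linarith
  have e4 := e3 J hS
  have i1 := Pr_and_ge ok S (Circ (M : ℕ) (2 * M : ℕ)) (fun F => ∀ i ≤ J, Step M i F)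
  have h5 : (0:ℝ) < (1/4)^(2^j) := by positivity
  have h6 : (0:ℝ) < (1/4)^(2^j) * (1/2)^(J+1) := by positivity
  nlinarith

/-- The one-arm probabilities beyond the scale `2 ^ j N`. -/
theorem arm_drop {p : unitInterval} {N : ℕ} (hN : 2 ≤ N) (he : eps (p:ℝ) N ≤ 1/100) (j : ℕ) :
    arm p (2 * (2^j * N)) - theta p ≤ arm p (2 * (2^j * N)) * (1/4 : ℝ)^(2^j) := by
  have h0 : (0:ℝ) ≤ p := p.2.1
  have h1 : (p:ℝ) ≤ 1 := p.2.2
  have ok := okq h0 h1
  have key : arm p (2 * (2^j * N)) * (1 - (1/4 : ℝ)^(2^j)) ≤ theta p := by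
    apply le_theta
    intro m
    obtain ⟨M, hM⟩ : ∃ M, M = 2^j * N := ⟨_, rfl⟩
    have hM2 : 2 ≤ M := by rw [hM]; exact le_trans hN (Nat.le_mul_of_pos_left _ (by positivity))
    have e1 := pr_all h0 h1 hN he j m (Finset.Subset.refl _)
    rw [← hM] at e1 ⊢
    have hm : m ≤ 2 * (2^m * M) := by
      have h2 : m < 2^m := Nat.lt_two_pow_self
      nlinarith [Nat.zero_le (2^m * M)]
    have hle : M ≤ 2^m * M := Nat.le_mul_of_pos_left _ (by positivity)
    have hbox : boxE (2 * M) ⊆ boxE (2 * (2^m * M)) := boxE_mono (by omega)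
    have e2 := pr_Arm (p:ℝ) hbox
    have i2 := Pr_harris ok (Arm_incr (boxE (2 * (2^m * M))) (2 * M))
      (B := fun F => Circ (M : ℕ) (2 * M : ℕ) F ∧ ∀ j ≤ m, Step M j F)
      (fun F G h _ hF => ⟨hF.1.mono h, fun j hj => (hF.2 j hj).mono h⟩)
    have i3 : Pr (fun _ => (p:ℝ)) (boxE (2 * (2^m * M))) (fun F => Arm (2 * M) F ∧
        (Circ (M : ℕ) (2 * M : ℕ) F ∧ ∀ j ≤ m, Step M j F)) ≤ arm p (2 * (2^m * M)) := by
      unfold arm
      apply Pr_mono ok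
      rintro F _ ⟨k1, k2, k3⟩
      exact arm_of_chain hM2 m k1 k2 k3
    rw [e2] at i2
    have ha := arm_nonneg h0 h1 (2 * M)
    calc arm p (2 * M) * (1 - (1/4 : ℝ)^(2^j)) ≤ _ := mul_le_mul_of_nonneg_left e1 ha
      _ ≤ _ := i2
      _ ≤ _ := i3
      _ ≤ _ := arm_anti h0 h1 hm
  linarith

/-! ### upper bound for the one-arm probabilities above the critical point -/

/-- The order of the one-arm probability at and above the critical point. -/
theorem arm_up : ∃ C : ℝ, 1 ≤ C ∧ ∀ p : ℝ, 1/2 ≤ p → p ≤ 1 → ∀ n : ℕ, 1 ≤ n →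
    arm p n ≤ C * max ((n:ℝ)^(-(5/48) : ℝ)) ((p - 1/2)^(5/36 : ℝ)) := by
  obtain ⟨κ, β, hκ, hβ, hst⟩ := armS
  obtain ⟨cc, C, hcc, hC, harm⟩ := Pool.Agent.W424.NC.arm_crit
  refine ⟨3 * C + (3 * (C * ((2:ℝ)^(5/48 : ℝ) * β^(-(5/36) : ℝ))) + β^(-(5/36) : ℝ)) + 1,
    by have : 0 < 3 * (C * ((2:ℝ)^(5/48 : ℝ) * β^(-(5/36) : ℝ))) + β^(-(5/36) : ℝ) := by positivity
       linarith, ?_⟩
  intro p hp hp1 n hn
  obtain ⟨s, hs⟩ : ∃ s : ℝ, s = p - 1/2 := ⟨_, rfl⟩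
  have hs0' : 0 ≤ s := by rw [hs]; linarith
  have hn0 : (0:ℝ) < n := by exact_mod_cast hn
  rw [← hs]
  have m1 : (n:ℝ)^(-(5/48) : ℝ) ≤ max ((n:ℝ)^(-(5/48) : ℝ)) (s^(5/36 : ℝ)) := le_max_left _ _
  have m2 : s^(5/36 : ℝ) ≤ max ((n:ℝ)^(-(5/48) : ℝ)) (s^(5/36 : ℝ)) := le_max_right _ _
  have m0 : 0 < max ((n:ℝ)^(-(5/48) : ℝ)) (s^(5/36 : ℝ)) := lt_of_lt_of_le (by positivity) m1
  have hK : 0 < 3 * (C * ((2:ℝ)^(5/48 : ℝ) * β^(-(5/36) : ℝ))) + β^(-(5/36) : ℝ) := by positivity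
  by_cases hwin : |p - 1/2| ≤ β * (n:ℝ)^(-(3/4 : ℝ))
  · obtain ⟨-, h5, -⟩ := hst n hn p hwin
    have h6 := (harm n hn).2
    calc arm p n ≤ 3 * (C * (n:ℝ)^(-(5/48) : ℝ)) := by linarith
      _ = (3 * C) * (n:ℝ)^(-(5/48) : ℝ) := by ring
      _ ≤ (3 * C) * max ((n:ℝ)^(-(5/48) : ℝ)) (s^(5/36 : ℝ)) :=
          mul_le_mul_of_nonneg_left m1 (by positivity)
      _ ≤ _ := by
          apply mul_le_mul_of_nonneg_right _ m0.le
          linarith
  · push Not at hwin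
    rw [← hs, abs_of_nonneg hs0'] at hwin
    have hs0 : 0 < s := lt_of_le_of_lt (by positivity) hwin
    have hse : 0 < s^(5/36 : ℝ) := Real.rpow_pos_of_pos hs0 _
    have main : arm p n ≤ (3 * (C * ((2:ℝ)^(5/48 : ℝ) * β^(-(5/36) : ℝ))) + β^(-(5/36) : ℝ)) *
        s^(5/36 : ℝ) := by
      have hb36 : 0 < β^(-(5/36) : ℝ) := Real.rpow_pos_of_pos hβ _
      rcases lt_or_ge β s with hbs | hbs
      · have h2 : β^(5/36 : ℝ) ≤ s^(5/36 : ℝ) := Real.rpow_le_rpow hβ.le hbs.le (by norm_num)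
        have h3 : 1 ≤ β^(-(5/36) : ℝ) * s^(5/36 : ℝ) := by
          rw [Real.rpow_neg hβ.le, ← div_eq_inv_mul, le_div_iff₀ (Real.rpow_pos_of_pos hβ _),
            one_mul]
          exact h2
        calc arm p n ≤ 1 := arm_le_one (by linarith) hp1 n
          _ ≤ β^(-(5/36) : ℝ) * s^(5/36 : ℝ) := h3
          _ ≤ _ := by
              apply mul_le_mul_of_nonneg_right _ hse.le
              have : 0 < 3 * (C * ((2:ℝ)^(5/48 : ℝ) * β^(-(5/36) : ℝ))) := by positivity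
              linarith
      · obtain ⟨k, hk1, hwin', hkx, hxk⟩ := Pool.Agent.Y554.NC.scale_exists hβ hs0 hbs
        have hk0 : (0:ℝ) < k := by exact_mod_cast hk1
        have hwin2 : |p - 1/2| ≤ β * (k:ℝ)^(-(3/4 : ℝ)) := by
          rw [← hs, abs_of_pos hs0]
          exact hwin'
        obtain ⟨-, h5, -⟩ := hst k hk1 p hwin2
        have h6 := (harm k hk1).2
        have hx0 : 0 < (β/s)^(4/3 : ℝ) := by positivity
        -- `k ≤ n`
        have hkn : k ≤ n := by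
          by_contra hcon
          push Not at hcon
          have h8 : (n:ℝ) ≤ k := by exact_mod_cast hcon.le
          have h9 : (k:ℝ)^(-(3/4 : ℝ)) ≤ (n:ℝ)^(-(3/4 : ℝ)) :=
            Real.rpow_le_rpow_of_nonpos hn0 h8 (by norm_num)
          have h10 := mul_le_mul_of_nonneg_left h9 hβ.le
          have h11 : s ≤ β * (k:ℝ)^(-(3/4 : ℝ)) := hwin'
          linarith
        have h7 : (k:ℝ)^(-(5/48) : ℝ) ≤ (2:ℝ)^(5/48 : ℝ) * β^(-(5/36) : ℝ) * s^(5/36 : ℝ) := by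
          calc (k:ℝ)^(-(5/48) : ℝ) ≤ ((β/s)^(4/3 : ℝ)/2)^(-(5/48) : ℝ) :=
                Real.rpow_le_rpow_of_nonpos (by positivity) (by linarith) (by norm_num)
            _ = (2:ℝ)^(5/48 : ℝ) * ((β/s)^(4/3 : ℝ))^(-(5/48) : ℝ) := by
                rw [Real.div_rpow hx0.le (by norm_num), Real.rpow_neg (by norm_num : (0:ℝ) ≤ 2),
                  div_inv_eq_mul, mul_comm]
            _ = (2:ℝ)^(5/48 : ℝ) * (β/s)^(-(5/36) : ℝ) := by
                rw [← Real.rpow_mul (by positivity)]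
                norm_num
            _ = (2:ℝ)^(5/48 : ℝ) * β^(-(5/36) : ℝ) * s^(5/36 : ℝ) := by
                rw [Real.div_rpow hβ.le hs0.le, Real.rpow_neg hs0.le, div_inv_eq_mul, mul_assoc]
        calc arm p n ≤ arm p k := arm_anti (by linarith) hp1 hkn
          _ ≤ 3 * arm (1/2) k := h5
          _ ≤ 3 * (C * (k:ℝ)^(-(5/48) : ℝ)) := by linarith
          _ ≤ 3 * (C * ((2:ℝ)^(5/48 : ℝ) * β^(-(5/36) : ℝ) * s^(5/36 : ℝ))) := by
              have := mul_le_mul_of_nonneg_left h7 hC.le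
              linarith
          _ = (3 * (C * ((2:ℝ)^(5/48 : ℝ) * β^(-(5/36) : ℝ)))) * s^(5/36 : ℝ) := by ring
          _ ≤ _ := by
              apply mul_le_mul_of_nonneg_right _ hse.le
              linarith
    calc arm p n ≤ _ := main
      _ ≤ _ * max ((n:ℝ)^(-(5/48) : ℝ)) (s^(5/36 : ℝ)) := mul_le_mul_of_nonneg_left m2 hK.le
      _ ≤ _ := by
          apply mul_le_mul_of_nonneg_right _ m0.le
          linarith

/-! ### a closed circuit -/

theorem pr_Blk_ge {q : ℝ} (h0 : 0 ≤ q) (h1 : q ≤ 1) {n : ℕ} (hn : 1 ≤ n) {S : Finset Edg}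
    (hS : annE n (2 * n) ⊆ S) :
    (1 - hh q n (4 * n))^4 ≤ Pr (fun _ => q) S (Blk n (2 * n : ℕ)) := by
  have ok := okq h0 h1
  obtain ⟨s1, s2, s3, s4⟩ := ann_sub (n := n) (m := 2 * n) (by omega)
  obtain ⟨R2, hR2⟩ : ∃ R2 : ℤ, R2 = ((2 * n : ℕ) : ℤ) := ⟨_, rfl⟩
  rw [← hR2] at s1 s2 s3 s4 ⊢
  have hR2' : R2 = 2 * n := by rw [hR2]; push_cast; ring
  have e1 := pr_LRc q (s1.trans hS)
  have e2 := pr_LRc q (s2.trans hS)
  have e3 := pr_TBc q (s3.trans hS)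
  have e4 := pr_TBc q (s4.trans hS)
  have d1 : R2 - n = n := by omega
  have d2 : R2 - -R2 = 4 * n := by omega
  have d3 : -(n:ℤ) - -R2 = n := by omega
  rw [d1, d2] at e1
  rw [d3, d2] at e2
  rw [d1, d2] at e3
  rw [d3, d2] at e4
  have hz1 : 0 ≤ 1 - hh q n (4 * n) := by
    have := hh_le_one h0 h1 n (4 * n)
    linarith
  have i1 := Pr_harris_dd ok (LRc_incr S n R2 (-R2) R2) (LRc_incr S (-R2) (-n) (-R2) R2)
  have i2 := Pr_harris_dd ok (TBc_incr S (-R2) R2 n R2) (TBc_incr S (-R2) R2 (-R2) (-n))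
  rw [e1, e2] at i1
  rw [e3, e4] at i2
  have c1 : IncrE S (fun F => LRc n R2 (-R2) R2 F ∨ LRc (-R2) (-n) (-R2) R2 F) :=
    fun F G hFG _ hF => hF.imp (LRc.mono hFG) (LRc.mono hFG)
  have c2 : IncrE S (fun F => TBc (-R2) R2 n R2 F ∨ TBc (-R2) R2 (-R2) (-n) F) :=
    fun F G hFG _ hF => hF.imp (TBc.mono hFG) (TBc.mono hFG)
  have i3 := Pr_harris_dd ok c1 c2
  rw [← Pr_not, ← Pr_not] at i3
  have j1 : Pr (fun _ => q) S (fun F => ¬ (LRc n R2 (-R2) R2 F ∨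
      LRc (-R2) (-n) (-R2) R2 F)) = Pr (fun _ => q) S (fun F => ¬ LRc n R2 (-R2) R2 F ∧
      ¬ LRc (-R2) (-n) (-R2) R2 F) := Pr_congr (fun F _ => not_or)
  have j2 : Pr (fun _ => q) S (fun F => ¬ (TBc (-R2) R2 n R2 F ∨
      TBc (-R2) R2 (-R2) (-n) F)) = Pr (fun _ => q) S (fun F => ¬ TBc (-R2) R2 n R2 F ∧
      ¬ TBc (-R2) R2 (-R2) (-n) F) := Pr_congr (fun F _ => not_or)
  rw [j1, j2] at i3
  have k2 : ((1 - hh q n (4 * n)) * (1 - hh q n (4 * n))) *
      ((1 - hh q n (4 * n)) * (1 - hh q n (4 * n))) ≤ _ := mul_le_mul i1 i2 (by positivity)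
    ((by positivity : 0 ≤ (1 - hh q n (4 * n)) * (1 - hh q n (4 * n))).trans i1)
  calc (1 - hh q n (4 * n))^4 = ((1 - hh q n (4 * n)) * (1 - hh q n (4 * n))) *
      ((1 - hh q n (4 * n)) * (1 - hh q n (4 * n))) := by ring
    _ ≤ _ := k2
    _ ≤ _ := i3

/-! ### the radius of a finite cluster -/

theorem pow_exp_le {b : ℝ} (hb : 0 < b) {y : ℝ} (hy : 0 ≤ y) :
    y^(5/48 : ℝ) * Real.exp (-(b * y)) ≤ (1 + 2/b) * Real.exp (-(b/2 * y)) := by
  have h1 : y^(5/48 : ℝ) ≤ 1 + y := by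
    rcases le_total y 1 with h | h
    · have := Real.rpow_le_one hy h (by norm_num : (0:ℝ) ≤ 5/48)
      linarith
    · have : y^(5/48 : ℝ) ≤ y^(1:ℝ) := Real.rpow_le_rpow_of_exponent_le h (by norm_num)
      rw [Real.rpow_one] at this
      linarith
  have h2 : 1 + b/2 * y ≤ Real.exp (b/2 * y) := by
    have := Real.add_one_le_exp (b/2 * y)
    linarith
  have h3 : 1 ≤ Real.exp (b/2 * y) := by
    have : 0 ≤ b/2 * y := by positivity
    linarith
  have h4 : y ≤ 2/b * Real.exp (b/2 * y) := by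
    have : b/2 * y ≤ Real.exp (b/2 * y) := by linarith
    calc y = 2/b * (b/2 * y) := by field_simp
      _ ≤ _ := mul_le_mul_of_nonneg_left this (by positivity)
  have h5 : Real.exp (-(b * y)) = Real.exp (-(b/2 * y)) * Real.exp (-(b/2 * y)) := by
    rw [← Real.exp_add]; congr 1; ring
  have h6 : Real.exp (b/2 * y) * Real.exp (-(b/2 * y)) = 1 := by
    rw [← Real.exp_add]; simp
  have h7 : 0 < Real.exp (-(b/2 * y)) := Real.exp_pos _
  rw [h5, ← mul_assoc]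
  apply mul_le_mul_of_nonneg_right _ h7.le
  calc y^(5/48 : ℝ) * Real.exp (-(b/2 * y)) ≤ ((1 + 2/b) * Real.exp (b/2 * y)) *
        Real.exp (-(b/2 * y)) := by
        apply mul_le_mul_of_nonneg_right _ h7.le
        linarith
    _ = 1 + 2/b := by rw [mul_assoc, h6, mul_one]

/-- The scale `N` of order `(p - 1/2) ^ (-4/3)`. -/
theorem farM : ∃ E : ℝ, 1 ≤ E ∧ ∀ p : ℝ, 1/2 < p → p ≤ 1 → ∃ N : ℕ, 2 ≤ N ∧
    (p - 1/2)^(-(4/3) : ℝ) ≤ N ∧ (N:ℝ) ≤ E * (p - 1/2)^(-(4/3) : ℝ) ∧ eps p N ≤ 1/100 := by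
  obtain ⟨E, hE, hfar⟩ := farS
  refine ⟨E + 3, by linarith, ?_⟩
  intro p hp hp1
  obtain ⟨s, hs⟩ : ∃ s : ℝ, s = p - 1/2 := ⟨_, rfl⟩
  have hs0 : 0 < s := by rw [hs]; linarith
  have hs1 : s ≤ 1 := by rw [hs]; linarith
  obtain ⟨x, hx⟩ : ∃ x : ℝ, x = s^(-(4/3) : ℝ) := ⟨_, rfl⟩
  have hx1 : 1 ≤ x := by
    rw [hx]
    exact Real.one_le_rpow_of_pos_of_le_one_of_nonpos hs0 hs1 (by norm_num)
  rw [← hs, ← hx]
  have hle := Nat.le_ceil (E * x)
  have hlt := Nat.ceil_lt_add_one (a := E * x) (by positivity)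
  have hEx : x ≤ E * x := by nlinarith
  refine ⟨⌈E * x⌉₊ + 2, by omega, ?_, ?_, ?_⟩
  · push_cast; linarith
  · push_cast; nlinarith
  · apply hfar p hp hp1
    rw [← hs, ← hx]
    push_cast
    linarith

theorem trunc_up : ∃ a C : ℝ, 0 < a ∧ 0 < C ∧ ∀ p : unitInterval, (1/2 : ℝ) ≤ p →
    ∀ n : ℕ, 1 ≤ n → arm p n - theta p ≤
      C * (n:ℝ)^(-(5/48) : ℝ) * Real.exp (-(a * (n * ((p:ℝ) - 1/2)^(4/3 : ℝ)))) := by
  obtain ⟨C1, hC1, hup⟩ := arm_up
  obtain ⟨E, hE, hfar⟩ := farM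
  obtain ⟨b, hb⟩ : ∃ b : ℝ, b = 1 / (4 * E) := ⟨_, rfl⟩
  have hb0 : 0 < b := by rw [hb]; positivity
  have hexp0 := Real.exp_pos (b/2 * (4 * E))
  refine ⟨b/2, C1 * (4 * E)^(5/48 : ℝ) * Real.exp (b/2 * (4 * E)) + C1 * (1 + 2/b), by positivity,
    by positivity, ?_⟩
  intro p hp n hn
  have hn0 : (0:ℝ) < n := by exact_mod_cast hn
  have hpn : 0 < (n:ℝ)^(-(5/48) : ℝ) := by positivity
  have h0 : (0:ℝ) ≤ p := p.2.1
  have h1 : (p:ℝ) ≤ 1 := p.2.2
  have hup' := hup p hp h1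
  have hth := theta_nonneg p
  have h4E : 1 ≤ (4 * E)^(5/48 : ℝ) := Real.one_le_rpow (by linarith) (by norm_num)
  have hT2 : 0 < C1 * (1 + 2/b) := by positivity
  have hT1 : 0 < C1 * (4 * E)^(5/48 : ℝ) * Real.exp (b/2 * (4 * E)) := by positivity
  obtain ⟨s, hs⟩ : ∃ s : ℝ, s = (p:ℝ) - 1/2 := ⟨_, rfl⟩
  have hs0 : 0 ≤ s := by rw [hs]; linarith
  rw [← hs]
  -- the case of small `n`
  have small : ∀ (y : ℝ), y = n * s^(4/3 : ℝ) → s^(5/36 : ℝ) ≤ (4 * E)^(5/48 : ℝ) *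
      (n:ℝ)^(-(5/48) : ℝ) → y ≤ 4 * E → arm p n - theta p ≤
      (C1 * (4 * E)^(5/48 : ℝ) * Real.exp (b/2 * (4 * E)) + C1 * (1 + 2/b)) *
        (n:ℝ)^(-(5/48) : ℝ) * Real.exp (-(b/2 * y)) := by
    intro y hy h2 h3
    have h4 : max ((n:ℝ)^(-(5/48) : ℝ)) (s^(5/36 : ℝ)) ≤ (4 * E)^(5/48 : ℝ) *
        (n:ℝ)^(-(5/48) : ℝ) := by
      apply max_le _ h2
      nlinarith
    have h5 : arm p n ≤ C1 * ((4 * E)^(5/48 : ℝ) * (n:ℝ)^(-(5/48) : ℝ)) := by
      have h6 := hup' n hn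
      rw [← hs] at h6
      exact h6.trans (mul_le_mul_of_nonneg_left h4 (by linarith))
    have h7 : 1 ≤ Real.exp (b/2 * (4 * E)) * Real.exp (-(b/2 * y)) := by
      rw [← Real.exp_add]
      apply Real.one_le_exp
      nlinarith
    have h8 : 0 < Real.exp (-(b/2 * y)) := Real.exp_pos _
    calc arm p n - theta p ≤ C1 * ((4 * E)^(5/48 : ℝ) * (n:ℝ)^(-(5/48) : ℝ)) * 1 := by linarith
      _ ≤ C1 * ((4 * E)^(5/48 : ℝ) * (n:ℝ)^(-(5/48) : ℝ)) *
          (Real.exp (b/2 * (4 * E)) * Real.exp (-(b/2 * y))) :=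
          mul_le_mul_of_nonneg_left h7 (by positivity)
      _ = (C1 * (4 * E)^(5/48 : ℝ) * Real.exp (b/2 * (4 * E))) * (n:ℝ)^(-(5/48) : ℝ) *
          Real.exp (-(b/2 * y)) := by ring
      _ ≤ _ := by
          apply mul_le_mul_of_nonneg_right _ h8.le
          apply mul_le_mul_of_nonneg_right _ hpn.le
          linarith
  rcases hs0.eq_or_lt with hs0' | hs0'
  · apply small _ rfl
    · rw [← hs0', Real.zero_rpow (by norm_num)]
      positivity
    · rw [← hs0', Real.zero_rpow (by norm_num), mul_zero]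
      linarith
  · have hp' : 1/2 < (p:ℝ) := by rw [hs] at hs0'; linarith
    obtain ⟨N, hN2, hxN, hNx, heps⟩ := hfar p hp' h1
    rw [← hs] at hxN hNx
    obtain ⟨x, hx⟩ : ∃ x : ℝ, x = s^(-(4/3) : ℝ) := ⟨_, rfl⟩
    rw [← hx] at hxN hNx
    have hx0 : 0 < x := by rw [hx]; positivity
    have hN0 : (0:ℝ) < N := by exact_mod_cast (by omega : 0 < N)
    obtain ⟨y, hy⟩ : ∃ y : ℝ, y = n * s^(4/3 : ℝ) := ⟨_, rfl⟩
    have hyx : y = n / x := by
      rw [hy, hx, Real.rpow_neg hs0, div_inv_eq_mul]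
    have hy0 : 0 < y := by rw [hyx]; positivity
    have hse : s^(5/36 : ℝ) = x^(-(5/48) : ℝ) := by
      rw [hx, ← Real.rpow_mul hs0]
      norm_num
    rcases lt_or_ge n (4 * N) with hlt | hge
    · have hlt' : (n:ℝ) ≤ 4 * E * x := by
        have : (n:ℝ) ≤ ((4 * N : ℕ) : ℝ) := by exact_mod_cast hlt.le
        push_cast at this
        nlinarith
      rw [← hy]
      apply small y hy
      · rw [hse]
        have h2 : (n:ℝ) / (4 * E) ≤ x := by
          rw [div_le_iff₀ (by positivity)]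
          linarith
        calc x^(-(5/48) : ℝ) ≤ ((n:ℝ) / (4 * E))^(-(5/48) : ℝ) :=
              Real.rpow_le_rpow_of_nonpos (by positivity) h2 (by norm_num)
          _ = _ := by
              rw [Real.div_rpow hn0.le (by positivity), Real.rpow_neg (by positivity : 0 ≤ 4 * E),
                div_inv_eq_mul, mul_comm]
      · rw [hyx, div_le_iff₀ hx0]
        exact hlt'
    · -- large `n`
      obtain ⟨m, hm⟩ : ∃ m : ℕ, m = n / (2 * N) := ⟨_, rfl⟩
      have hm1 : 2 ≤ m := by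
        rw [hm, Nat.le_div_iff_mul_le (by omega)]
        omega
      obtain ⟨j, hj⟩ : ∃ j : ℕ, j = Nat.log 2 m := ⟨_, rfl⟩
      have hj1 : 2^j ≤ m := by rw [hj]; exact Nat.pow_log_le_self 2 (by omega)
      have hj2 : m < 2^(j+1) := by rw [hj]; exact Nat.lt_pow_succ_log_self (by norm_num) m
      have hk1 : 2 * (2^j * N) ≤ n := by
        have : 2^j * (2 * N) ≤ n := by
          rw [← Nat.le_div_iff_mul_le (by omega : 0 < 2 * N), ← hm]
          exact hj1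
        calc 2 * (2^j * N) = 2^j * (2 * N) := by ring
          _ ≤ n := this
      have hk2 : n < 4 * (2^j * N) := by
        have : n < 2^(j+1) * (2 * N) := by
          rw [← Nat.div_lt_iff_lt_mul (by omega : 0 < 2 * N), ← hm]
          exact hj2
        calc n < 2^(j+1) * (2 * N) := this
          _ = 4 * (2^j * N) := by ring
      have d1 : arm p n ≤ arm p (2 * (2^j * N)) := arm_anti h0 h1 hk1
      have d2 := arm_drop (p := p) hN2 heps j
      have d3 : arm p (2 * (2^j * N)) ≤ C1 * x^(-(5/48) : ℝ) := by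
        have h2 := hup' (2 * (2^j * N)) (by
          have : 1 ≤ 2^j * N := Nat.mul_pos (by positivity) (by omega)
          omega)
        rw [← hs, hse] at h2
        refine h2.trans (mul_le_mul_of_nonneg_left (max_le ?_ le_rfl) (by linarith))
        apply Real.rpow_le_rpow_of_nonpos hx0 _ (by norm_num)
        refine hxN.trans ?_
        have : N ≤ 2 * (2^j * N) := by
          have := Nat.le_mul_of_pos_left N (by positivity : 0 < 2^j)
          omega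
        exact_mod_cast this
      have d4 : (1/4 : ℝ)^(2^j) ≤ Real.exp (-(b * y)) := by
        apply quarter_pow_le
        have h2 : (n:ℝ) ≤ 4 * ((2:ℝ)^j * N) := by exact_mod_cast hk2.le
        rw [hb, hyx]
        have h3 : (n:ℝ) ≤ 4 * ((2:ℝ)^j * (E * x)) := by
          refine h2.trans ?_
          have : (0:ℝ) < 2^j := by positivity
          nlinarith
        rw [div_mul_div_comm, one_mul, div_le_iff₀ (by positivity)]
        linarith
      have d5 : (0:ℝ) ≤ (1/4)^(2^j) := by positivity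
      have d6 : arm p n - theta p ≤ C1 * x^(-(5/48) : ℝ) * Real.exp (-(b * y)) := by
        calc arm p n - theta p ≤ arm p (2 * (2^j * N)) * (1/4)^(2^j) := by linarith
          _ ≤ (C1 * x^(-(5/48) : ℝ)) * (1/4)^(2^j) := mul_le_mul_of_nonneg_right d3 d5
          _ ≤ _ := mul_le_mul_of_nonneg_left d4 (by positivity)
      have d7 : x^(-(5/48) : ℝ) = (n:ℝ)^(-(5/48) : ℝ) * y^(5/48 : ℝ) := by
        rw [hyx, Real.div_rpow hn0.le hx0.le, Real.rpow_neg hn0.le, Real.rpow_neg hx0.le]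
        have : (n:ℝ)^(5/48 : ℝ) ≠ 0 := by positivity
        field_simp
      rw [← hy]
      calc arm p n - theta p ≤ C1 * x^(-(5/48) : ℝ) * Real.exp (-(b * y)) := d6
        _ = (C1 * (n:ℝ)^(-(5/48) : ℝ)) * (y^(5/48 : ℝ) * Real.exp (-(b * y))) := by
            rw [d7]; ring
        _ ≤ (C1 * (n:ℝ)^(-(5/48) : ℝ)) * ((1 + 2/b) * Real.exp (-(b/2 * y))) :=
            mul_le_mul_of_nonneg_left (pow_exp_le hb0 hy0.le) (by positivity)
        _ = (C1 * (1 + 2/b)) * (n:ℝ)^(-(5/48) : ℝ) * Real.exp (-(b/2 * y)) := by ring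
        _ ≤ _ := by
            have h8 : 0 < Real.exp (-(b/2 * y)) := Real.exp_pos _
            apply mul_le_mul_of_nonneg_right _ h8.le
            apply mul_le_mul_of_nonneg_right _ hpn.le
            linarith

theorem arm_blk {p : ℝ} (h0 : 0 ≤ p) (h1 : p ≤ 1) {n : ℕ} (hn : 1 ≤ n) :
    arm p n * (1 - hh p n (4 * n))^4 ≤ arm p n - arm p (2 * n) := by
  have ok := okq h0 h1
  have hd : Disjoint (boxE n) (annE n (2 * n)) := Finset.disjoint_sdiff
  have hs1 : boxE n ⊆ boxE (2 * n) := boxE_mono (by omega)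
  have hs2 : annE n (2 * n) ⊆ boxE (2 * n) := Finset.sdiff_subset
  have e1 : Pr (fun _ => p) (boxE (2 * n)) (fun F => Arm n F ∧ Blk n (2 * n : ℕ) F) =
      Pr (fun _ => p) (boxE (2 * n)) (Arm n) * Pr (fun _ => p) (boxE (2 * n))
        (Blk n (2 * n : ℕ)) := by
    apply Pr_indep hs1 hs2 hd
    · intro F _
      exact Arm_local (Finset.Subset.refl _)
    · intro F _
      exact Blk_local (by omega) (Finset.Subset.refl _) F
  have e2 := pr_Blk_ge h0 h1 hn hs2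
  have e3 := pr_Arm p hs1
  have e4 : Pr (fun _ => p) (boxE (2 * n)) (fun F => Arm n F ∧ Blk n (2 * n : ℕ) F) +
      arm p (2 * n) ≤ arm p n := by
    rw [← e3]
    unfold arm Pr
    rw [← Ex_add]
    apply Ex_mono ok
    intro F hF
    by_cases h : Arm (2 * n) F
    · have h' := h
      obtain ⟨v, hv, hr⟩ := h
      have hb : ¬ Blk n (2 * n : ℕ) F := by
        apply not_blk_of_arm (by positivity) (by push_cast; omega)
          (hr.mono Set.inter_subset_left)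
        obtain ⟨h2, h3⟩ := hv
        unfold inR at h2
        omega
      have hA : Arm n F := by
        obtain ⟨w, k1, k2, k3⟩ := first_exit (a := -n) (b := n) (c := -n) (d := n)
          (by unfold inR; simp) hr (by unfold onB at hv; omega)
        exact ⟨w, ⟨k1, k2⟩, k3.mono (by rintro e ⟨⟨h4, -⟩, h5⟩; exact ⟨h4, h5⟩)⟩
      rw [ind_not_of (fun h => hb h.2), ind_of h', ind_of hA]
      norm_num
    · rw [ind_not_of h, add_zero]
      exact ind_mono (fun h => h.1)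
  rw [e1, e3] at e4
  have := mul_le_mul_of_nonneg_left e2 (arm_nonneg h0 h1 n)
  linarith

theorem trunc_low : ∃ A c : ℝ, 0 < A ∧ 0 < c ∧ ∀ p : unitInterval, (1/2 : ℝ) ≤ p →
    (p:ℝ) ≤ 3/4 → ∀ n : ℕ, 1 ≤ n →
      c * (n:ℝ)^(-(5/48) : ℝ) * Real.exp (-(A * (n * ((p:ℝ) - 1/2)^(4/3 : ℝ)))) ≤
        arm p n - theta p := by
  obtain ⟨c1, C1, hc1, hC1, hlow⟩ := win_lower_dual 4 (by norm_num)
  obtain ⟨cc, C, hcc, hC, harm⟩ := Pool.Agent.W424.NC.arm_crit
  refine ⟨4 * C1, cc * c1^4, by positivity, by positivity, ?_⟩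
  intro p hp hp' n hn
  have h0 : (0:ℝ) ≤ p := p.2.1
  have h1 : (p:ℝ) ≤ 1 := p.2.2
  have h2 := hlow (1 - p) (by linarith) (by linarith) n (4 * n) hn (by omega) (by omega) (by omega)
  have e1 : (1:ℝ) - (1 - (p:ℝ)) = p := by ring
  have e2 : 1/2 - (1 - (p:ℝ)) = p - 1/2 := by ring
  rw [e1, e2] at h2
  obtain ⟨y, hy⟩ : ∃ y : ℝ, y = n * ((p:ℝ) - 1/2)^(4/3 : ℝ) := ⟨_, rfl⟩
  rw [← hy] at h2 ⊢
  have h3 := arm_blk h0 h1 hn
  have h4 : arm (1/2) n ≤ arm p n := arm_mono_param (by norm_num) hp h1 n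
  have h5 := (harm n hn).1
  have h6 := theta_le_arm p (2 * n)
  have h7 : (c1 * Real.exp (-(C1 * y)))^4 ≤ (1 - hh (p:ℝ) n (4 * n))^4 := by
    push_cast at h2
    exact pow_le_pow_left₀ (by positivity) h2 4
  have h8 : (c1 * Real.exp (-(C1 * y)))^4 = c1^4 * Real.exp (-(4 * C1 * y)) := by
    rw [mul_pow, ← Real.exp_nat_mul]
    congr 2
    push_cast
    ring
  rw [h8] at h7
  calc cc * c1^4 * (n:ℝ)^(-(5/48) : ℝ) * Real.exp (-(4 * C1 * y)) =
        (cc * (n:ℝ)^(-(5/48) : ℝ)) * (c1^4 * Real.exp (-(4 * C1 * y))) := by ring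
    _ ≤ arm p n * (1 - hh (p:ℝ) n (4 * n))^4 := by
        apply mul_le_mul (h5.trans h4) h7 (by positivity) (arm_nonneg h0 h1 n)
    _ ≤ _ := by linarith

/-! ### the events -/

/-- sup norm -/
def nm (x : ℤ × ℤ) : ℕ := max x.1.natAbs x.2.natAbs

theorem armE_reach (n : ℕ) (ω : sqLattice.edgeSet → Bool) :
    ω ∈ ArmE n ↔ ∃ x ∈ cluster0 ω, n ≤ nm x := by
  rw [armE_iff]
  constructor
  · rintro ⟨v, hv, hr⟩
    refine ⟨v, (open_reach ω _ _).mpr (hr.mono Set.inter_subset_left), ?_⟩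
    obtain ⟨h1, h2⟩ := hv
    unfold nm
    omega
  · rintro ⟨v, hv, hn⟩
    have hr : Reach (opn ω) (0, 0) v := (open_reach ω _ _).mp hv
    obtain ⟨w, k1, k2, k3⟩ := first_exit (a := -n) (b := n) (c := -n) (d := n)
      (by unfold inR; simp) hr (by unfold nm at hn; omega)
    exact ⟨w, ⟨k1, k2⟩, k3⟩

theorem law_trunc (p : unitInterval) (n : ℕ) :
    (bondLaw p).real {ω | (cluster0 ω).Finite ∧ ∃ x ∈ cluster0 ω, n ≤ nm x} =
      arm p n - theta p := by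
  have h1 : {ω | (cluster0 ω).Finite ∧ ∃ x ∈ cluster0 ω, n ≤ nm x} =
      ArmE n \ {ω | (cluster0 ω).Infinite} := by
    ext ω
    have h2 := armE_reach n ω
    constructor
    · rintro ⟨h3, h4⟩
      exact ⟨h2.2 h4, fun h5 => h5 h3⟩
    · rintro ⟨h3, h4⟩
      exact ⟨Set.not_infinite.1 h4, h2.1 h3⟩
  have h3 : {ω | (cluster0 ω).Infinite} ⊆ ArmE n := by
    rw [infinite_eq]
    exact Set.iInter_subset _ n
  have h4 : MeasurableSet {ω : sqLattice.edgeSet → Bool | (cluster0 ω).Infinite} := by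
    rw [infinite_eq]
    exact MeasurableSet.iInter fun n => meas_event (boxE n) (Arm n)
  rw [h1, measureReal_sdiff h3 h4, law_armE]
  rfl

/-- **The radius of a finite cluster near the critical point.** -/
theorem radius : ∃ a A c C : ℝ, 0 < a ∧ 0 < A ∧ 0 < c ∧ 0 < C ∧
    ∀ p : unitInterval, (1/4 : ℝ) ≤ p → (p:ℝ) ≤ 3/4 → ∀ n : ℕ, 1 ≤ n →
      c * (n:ℝ)^(-(5/48) : ℝ) * Real.exp (-(A * (n * |(p:ℝ) - 1/2|^(4/3 : ℝ)))) ≤
        arm p n - theta p ∧
      arm p n - theta p ≤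
        C * (n:ℝ)^(-(5/48) : ℝ) * Real.exp (-(a * (n * |(p:ℝ) - 1/2|^(4/3 : ℝ)))) := by
  obtain ⟨a1, C1, ha1, hC1, u1⟩ := trunc_up
  obtain ⟨A1, c1, hA1, hc1, l1⟩ := trunc_low
  obtain ⟨a2, C2, ha2, hC2, u2⟩ := Pool.Agent.W424.NC.arm_upper
  obtain ⟨c2, A2, hc2, hA2, l2⟩ := Pool.Agent.W424.NC.arm_lower
  refine ⟨min a1 a2, max A1 A2, min c1 c2, max C1 C2, lt_min ha1 ha2, lt_max_of_lt_left hA1,
    lt_min hc1 hc2, lt_max_of_lt_left hC1, ?_⟩
  intro p hp1 hp2 n hn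
  have hn0 : (0:ℝ) < n := by exact_mod_cast hn
  have hpn : 0 < (n:ℝ)^(-(5/48) : ℝ) := by positivity
  have comp : ∀ {c c' A A' y : ℝ}, 0 ≤ y → c ≤ c' → 0 ≤ c' → A' ≤ A →
      c * (n:ℝ)^(-(5/48) : ℝ) * Real.exp (-(A * y)) ≤
        c' * (n:ℝ)^(-(5/48) : ℝ) * Real.exp (-(A' * y)) := by
    intro c c' A A' y hy hc hc' hA
    have e1 : Real.exp (-(A * y)) ≤ Real.exp (-(A' * y)) := by
      apply Real.exp_le_exp.2
      nlinarith
    have e2 : 0 < Real.exp (-(A * y)) := Real.exp_pos _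
    calc c * (n:ℝ)^(-(5/48) : ℝ) * Real.exp (-(A * y)) ≤
          c' * (n:ℝ)^(-(5/48) : ℝ) * Real.exp (-(A * y)) := by
          apply mul_le_mul_of_nonneg_right _ e2.le
          exact mul_le_mul_of_nonneg_right hc hpn.le
      _ ≤ _ := mul_le_mul_of_nonneg_left e1 (by positivity)
  rcases le_total (p:ℝ) (1/2) with h | h
  · have e1 : |(p:ℝ) - 1/2| = 1/2 - p := by rw [abs_sub_comm, abs_of_nonneg (by linarith)]
    have e2 : theta p = 0 := theta_half_le h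
    have hy : 0 ≤ n * (1/2 - (p:ℝ))^(4/3 : ℝ) :=
      mul_nonneg hn0.le (Real.rpow_nonneg (by linarith) _)
    rw [e1, e2, sub_zero]
    have u := u2 p p.2.1 h n hn
    have l := l2 p n hp1 h hn
    rw [neg_mul] at l
    exact ⟨(comp hy (min_le_right _ _) hc2.le (le_max_right _ _)).trans l,
      u.trans (comp hy (le_max_right _ _) (lt_max_of_lt_left hC1).le (min_le_right _ _))⟩
  · have e1 : |(p:ℝ) - 1/2| = p - 1/2 := abs_of_nonneg (by linarith)
    have hy : 0 ≤ n * ((p:ℝ) - 1/2)^(4/3 : ℝ) :=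
      mul_nonneg hn0.le (Real.rpow_nonneg (by linarith) _)
    rw [e1]
    exact ⟨(comp hy (min_le_left _ _) hc1.le (le_max_left _ _)).trans (l1 p h hp2 n hn),
      (u1 p h n hn).trans (comp hy (le_max_left _ _) (lt_max_of_lt_left hC1).le
        (min_le_left _ _))⟩

end Pool.Agent.V11321.RS
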