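import Pool.Agent.V11321.RS.Rad

/-!
Bond percolation on `ℤ²` near the critical point: the truncated two-point function.
-/

set_option autoImplicit false

namespace Pool.Agent.V11321.RS

open H974 Finset MeasureTheory Pool.Agent.W424.NC H31K

/-- The truncated two-point function. -/
noncomputable def tauF (p : unitInterval) (x : ℤ × ℤ) : ℝ :=
  (bondLaw p).real {ω | x ∈ cluster0 ω ∧ (cluster0 ω).Finite}

theorem tauF_le_tau (p : unitInterval) (x : ℤ × ℤ) : tauF p x ≤ tau p x :=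
  measureReal_mono (fun _ h => h.1)

theorem tauF_nonneg (p : unitInterval) (x : ℤ × ℤ) : 0 ≤ tauF p x := measureReal_nonneg

theorem finite_iff (ω : sqLattice.edgeSet → Bool) :
    (cluster0 ω).Finite ↔ ∃ n, ω ∉ ArmE n := by
  have h := infinite_iff ω
  rw [← Set.not_infinite, h]
  push Not
  rfl

/-- Finiteness as a limit. -/
theorem fin_lim (p : unitInterval) (A : Set (sqLattice.edgeSet → Bool)) {b : ℝ}
    (h : ∀ J : ℕ, ∃ m : ℕ, J ≤ m ∧ (bondLaw p).real (A ∩ (ArmE m)ᶜ) ≤ b) :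
    (bondLaw p).real (A ∩ {ω | (cluster0 ω).Finite}) ≤ b := by
  have h1 : A ∩ {ω | (cluster0 ω).Finite} = ⋃ n : ℕ, (A ∩ (ArmE n)ᶜ) := by
    ext ω
    simp only [Set.mem_inter_iff, Set.mem_iUnion, Set.mem_compl_iff]
    constructor
    · rintro ⟨h2, h3⟩
      obtain ⟨n, hn⟩ := (finite_iff ω).1 h3
      exact ⟨n, h2, hn⟩
    · rintro ⟨n, h2, hn⟩
      exact ⟨h2, (finite_iff ω).2 ⟨n, hn⟩⟩
  have hmono : Monotone (fun n : ℕ => A ∩ (ArmE n)ᶜ) := by
    intro n m hnm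
    exact Set.inter_subset_inter_right _ (Set.compl_subset_compl.2 (armE_anti hnm))
  have h2 : Filter.Tendsto (fun n : ℕ => (bondLaw p) (A ∩ (ArmE n)ᶜ)) Filter.atTop
      (nhds ((bondLaw p) (⋃ n : ℕ, (A ∩ (ArmE n)ᶜ)))) := tendsto_measure_iUnion_atTop hmono
  have h3 : Filter.Tendsto (fun n : ℕ => (bondLaw p).real (A ∩ (ArmE n)ᶜ)) Filter.atTop
      (nhds ((bondLaw p).real (⋃ n : ℕ, (A ∩ (ArmE n)ᶜ)))) :=
    (ENNReal.tendsto_toReal (measure_ne_top _ _)).comp h2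
  rw [h1]
  apply le_of_tendsto' h3
  intro J
  obtain ⟨m, hJ, hm⟩ := h J
  exact (measureReal_mono (hmono hJ)).trans hm

/-- Both ends have an arm. -/
theorem pr_two_arms {q : ℝ} {x1 x2 : ℤ} {N : ℕ} {S : Finset Edg}
    (hx : 2 * (N:ℤ) < |x1| ∨ 2 * (N:ℤ) < |x2|)
    (s1 : boxE N ⊆ S) (s2 : RE (x1 - N) (x1 + N) (x2 - N) (x2 + N) ⊆ S) :
    Pr (fun _ => q) S (fun F => Arm N F ∧ Arm N ((trl (-x1) (-x2)).mp F)) = (arm q N)^2 := by
  have hd : Disjoint (boxE N) (RE (x1 - N) (x1 + N) (x2 - N) (x2 + N)) := by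
    rw [Finset.disjoint_left]
    have h1' : x1 < -(2 * (N:ℤ)) ∨ 2 * (N:ℤ) < x1 ∨ x2 < -(2 * (N:ℤ)) ∨ 2 * (N:ℤ) < x2 := by
      rcases hx with h | h
      · rcases lt_abs.mp h with h | h
        · exact Or.inr (Or.inl h)
        · exact Or.inl (by omega)
      · rcases lt_abs.mp h with h | h
        · exact Or.inr (Or.inr (Or.inr h))
        · exact Or.inr (Or.inr (Or.inl (by omega)))
    unfold boxE
    rintro ⟨u, v, _ | _⟩ he1 he2
    · simp only [mem_RE_false] at he1 he2; omega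
    · simp only [mem_RE_true] at he1 he2; omega
  have hBloc : ∀ F : Finset Edg, F ⊆ S → (Arm N ((trl (-x1) (-x2)).mp F) ↔
      Arm N ((trl (-x1) (-x2)).mp (F ∩ RE (x1 - N) (x1 + N) (x2 - N) (x2 + N)))) := by
    intro F _
    rw [LSym.mp_inter]
    have e3 : (trl (-x1) (-x2)).mp (RE (x1 - N) (x1 + N) (x2 - N) (x2 + N)) = boxE N := by
      rw [trl_RE]; unfold boxE; congr 1 <;> ring
    rw [e3]
    exact Arm_local (Finset.Subset.refl _)
  have h5 := Pr_indep (p := fun _ => q) s1 s2 hd (A := Arm N)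
    (B := fun F => Arm N ((trl (-x1) (-x2)).mp F))
    (fun F _ => Arm_local (Finset.Subset.refl _)) hBloc
  rw [h5, pr_Arm q s1, pr_shift_arm q s2, sq]

theorem two_incr (S : Finset Edg) (N : ℕ) (x1 x2 : ℤ) :
    IncrE S (fun F => Arm N F ∧ Arm N ((trl (-x1) (-x2)).mp F)) := by
  intro F G h _ hF
  exact ⟨hF.1.mono h, hF.2.mono (LSym.mp_mono _ h)⟩

/-- The truncated two-point function beyond the correlation length. -/
theorem tauF_far (p : unitInterval) {N : ℕ} (hN : 2 ≤ N) (he : eps (p:ℝ) N ≤ 1/100)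
    {j : ℕ} {x : ℤ × ℤ} (hx : 2 * (2^j * N) < nm x) :
    tauF p x ≤ (arm p N)^2 * (1/4 : ℝ)^(2^j) := by
  have h0 : (0:ℝ) ≤ p := p.2.1
  have h1 : (p:ℝ) ≤ 1 := p.2.2
  have ok := okq h0 h1
  obtain ⟨M, hM⟩ : ∃ M, M = 2^j * N := ⟨_, rfl⟩
  have hNM : N ≤ M := by rw [hM]; exact Nat.le_mul_of_pos_left _ (by positivity)
  have hM2 : 2 ≤ M := by omega
  obtain ⟨x1, x2⟩ := x
  have hxM : 2 * (M:ℤ) < |x1| ∨ 2 * (M:ℤ) < |x2| := by
    rw [← hM] at hx
    unfold nm at hx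
    simp only at hx
    rcases lt_max_iff.1 hx with h | h
    · left; rw [Int.abs_eq_natAbs]; exact_mod_cast h
    · right; rw [Int.abs_eq_natAbs]; exact_mod_cast h
  have hxN : 2 * (N:ℤ) < |x1| ∨ 2 * (N:ℤ) < |x2| := by
    have : (N:ℤ) ≤ M := by exact_mod_cast hNM
    rcases hxM with h | h
    · left; linarith
    · right; linarith
  show (bondLaw p).real ({ω | (x1, x2) ∈ cluster0 ω} ∩ {ω | (cluster0 ω).Finite}) ≤ _
  apply fin_lim
  intro J
  obtain ⟨J', hJ'⟩ : ∃ J' : ℕ, J' = J + x1.natAbs + x2.natAbs := ⟨_, rfl⟩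
  obtain ⟨m, hm⟩ : ∃ m : ℕ, m = 2 * (2^J' * M) := ⟨_, rfl⟩
  have hpow : J' + M ≤ 2^J' * M := by
    have h2 : J' + 1 ≤ 2^J' := Nat.lt_two_pow_self
    calc J' + M ≤ (J' + 1) * M := by nlinarith
      _ ≤ 2^J' * M := Nat.mul_le_mul_right _ h2
  refine ⟨m, by omega, ?_⟩
  have sM : boxE (2 * M) ⊆ boxE m := boxE_mono (by omega)
  have s1 : boxE N ⊆ boxE m := boxE_mono (by omega)
  have s2 : RE (x1 - N) (x1 + N) (x2 - N) (x2 + N) ⊆ boxE m := by
    unfold boxE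
    apply RE_subset <;> omega
  have hcover : {ω | (x1, x2) ∈ cluster0 ω} ∩ (ArmE m)ᶜ ⊆
      {ω | (fun F => (Arm N F ∧ Arm N ((trl (-x1) (-x2)).mp F)) ∧
        ¬ (Circ (M : ℕ) (2 * M : ℕ) F ∧ ∀ i ≤ J', Step M i F)) (FF (boxE m) ω)} := by
    rintro ω ⟨hω, hω'⟩
    refine ⟨t10_sub hxN s1 s2 hω, ?_⟩
    rintro ⟨k2, k3⟩
    apply hω'
    have hA : Arm (2 * M) (FF (boxE m) ω) := by
      have hreach := t10_reach hω
      obtain ⟨w, e1, e2, e3⟩ := first_exit (a := -((2 * M : ℕ) : ℤ)) (b := ((2 * M : ℕ) : ℤ))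
        (c := -((2 * M : ℕ) : ℤ)) (d := ((2 * M : ℕ) : ℤ)) (by unfold inR; simp only; omega) hreach
        (by
          push_cast
          rcases hxM with h | h
          · rcases lt_abs.mp h with h | h
            · exact Or.inr (Or.inl (by omega))
            · exact Or.inl (by omega)
          · rcases lt_abs.mp h with h | h
            · exact Or.inr (Or.inr (Or.inr (by omega)))
            · exact Or.inr (Or.inr (Or.inl (by omega))))
      refine ⟨w, ⟨e1, e2⟩, e3.mono ?_⟩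
      rw [FF_coe]
      rintro e ⟨he1, he2⟩
      exact ⟨⟨he1, sM he2⟩, he2⟩
    have h5 := arm_of_chain hM2 J' hA k2 k3
    rw [← hm] at h5
    exact h5
  have h6 := law_event p (boxE m) (fun F => (Arm N F ∧ Arm N ((trl (-x1) (-x2)).mp F)) ∧
        ¬ (Circ (M : ℕ) (2 * M : ℕ) F ∧ ∀ i ≤ J', Step M i F))
  refine (measureReal_mono hcover).trans (le_of_eq_of_le h6 ?_)
  have h7 := pr_two_arms (q := (p:ℝ)) hxN s1 s2
  have h8 := pr_all h0 h1 hN he j J' (S := boxE m) (by rw [hm, hM])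
  rw [← hM] at h8
  have h9 := Pr_harris ok (two_incr (boxE m) N x1 x2)
    (B := fun F => Circ (M : ℕ) (2 * M : ℕ) F ∧ ∀ i ≤ J', Step M i F)
    (fun F G h _ hF => ⟨hF.1.mono h, fun j hj => (hF.2 j hj).mono h⟩)
  have h10 : Pr (fun _ => (p:ℝ)) (boxE m) (fun F =>
      (Arm N F ∧ Arm N ((trl (-x1) (-x2)).mp F)) ∧
        ¬ (Circ (M : ℕ) (2 * M : ℕ) F ∧ ∀ i ≤ J', Step M i F)) =
      Pr (fun _ => (p:ℝ)) (boxE m) (fun F => Arm N F ∧ Arm N ((trl (-x1) (-x2)).mp F)) -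
      Pr (fun _ => (p:ℝ)) (boxE m) (fun F => (Arm N F ∧ Arm N ((trl (-x1) (-x2)).mp F)) ∧
        (Circ (M : ℕ) (2 * M : ℕ) F ∧ ∀ i ≤ J', Step M i F)) := by
    unfold Pr
    rw [← Ex_sub]
    apply Ex_congr
    intro F _
    rw [ind_and, ind_not, ind_and (Q := Circ (M : ℕ) (2 * M : ℕ) F ∧ ∀ i ≤ J', Step M i F)]
    ring
  rw [h10, h7]
  rw [h7] at h9
  have h11 := mul_le_mul_of_nonneg_left h8 (sq_nonneg (arm (p:ℝ) N))
  linarith

/-! ### upper bound -/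

theorem pow_exp_le2 {b : ℝ} (hb : 0 < b) {y : ℝ} (hy : 0 ≤ y) :
    y^(5/24 : ℝ) * Real.exp (-(b * y)) ≤ (1 + 4/b)^2 * Real.exp (-(b/2 * y)) := by
  have h1 := pow_exp_le (b := b/2) (by positivity) hy
  have h2 := pow_le_pow_left₀ (by positivity) h1 2
  have e1 : (y^(5/48 : ℝ) * Real.exp (-(b/2 * y)))^2 = y^(5/24 : ℝ) * Real.exp (-(b * y)) := by
    rw [mul_pow, ← Real.exp_nat_mul, ← Real.rpow_natCast, ← Real.rpow_mul hy]
    congr 2
    · norm_num
    · push_cast; ring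
  have e2 : ((1 + 2/(b/2)) * Real.exp (-(b/2/2 * y)))^2 =
      (1 + 4/b)^2 * Real.exp (-(b/2 * y)) := by
    rw [mul_pow, ← Real.exp_nat_mul]
    congr 2
    · congr 1
      field_simp
      ring
    · push_cast; ring
  rw [e1, e2] at h2
  exact h2

theorem nm_eq (x : ℤ × ℤ) : |x.1| ≤ (nm x : ℤ) ∧ |x.2| ≤ (nm x : ℤ) ∧
    ((nm x : ℤ) = |x.1| ∨ (nm x : ℤ) = |x.2|) := by
  unfold nm
  rw [Int.abs_eq_natAbs, Int.abs_eq_natAbs]
  omega

/-- Upper bound for the truncated two-point function at and above the critical point. -/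
theorem tauF_upper : ∃ a C : ℝ, 0 < a ∧ 0 < C ∧ ∀ p : unitInterval, (1/2 : ℝ) ≤ p →
    ∀ x : ℤ × ℤ, tauF p x ≤ C * ((nm x : ℝ) + 1)^(-(5/24) : ℝ) *
      Real.exp (-(a * (nm x * ((p:ℝ) - 1/2)^(4/3 : ℝ)))) := by
  obtain ⟨C1, hC1, hup⟩ := arm_up
  obtain ⟨E, hE, hfar⟩ := farM
  obtain ⟨b, hb⟩ : ∃ b : ℝ, b = 1 / (8 * E) := ⟨_, rfl⟩
  have hb0 : 0 < b := by rw [hb]; positivity
  obtain ⟨T1, hT1d⟩ : ∃ T1 : ℝ, T1 = C1^2 * (16 * E)^(5/24 : ℝ) * Real.exp (b/2 * (8 * E)) :=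
    ⟨_, rfl⟩
  obtain ⟨T2, hT2d⟩ : ∃ T2 : ℝ, T2 = 2 * C1^2 * (1 + 4/b)^2 := ⟨_, rfl⟩
  have hT1 : 0 < T1 := by rw [hT1d]; positivity
  have hT2 : 0 < T2 := by rw [hT2d]; positivity
  refine ⟨b/2, T1 + T2, by positivity, by positivity, ?_⟩
  intro p hp x
  have h0 : (0:ℝ) ≤ p := p.2.1
  have h1 : (p:ℝ) ≤ 1 := p.2.2
  obtain ⟨n, hn⟩ : ∃ n : ℕ, n = nm x := ⟨_, rfl⟩
  obtain ⟨x1a, x2a, x3a⟩ := nm_eq x
  rw [← hn] at x1a x2a x3a ⊢
  have hn0 : (0:ℝ) ≤ n := Nat.cast_nonneg _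
  have hn1 : (0:ℝ) < (n:ℝ) + 1 := by positivity
  have hpn : 0 < ((n:ℝ) + 1)^(-(5/24) : ℝ) := by positivity
  have hpn2 : 0 < ((n:ℝ) + 1)^(-(5/48) : ℝ) := by positivity
  have hup' := hup p hp h1
  have h16 : 1 ≤ (16 * E)^(5/48 : ℝ) := Real.one_le_rpow (by linarith) (by norm_num)
  have hsq16 : (16 * E)^(5/24 : ℝ) = ((16 * E)^(5/48 : ℝ))^2 := by
    rw [← Real.rpow_natCast, ← Real.rpow_mul (by positivity)]
    norm_num
  have hsqn : ((n:ℝ) + 1)^(-(5/24) : ℝ) = (((n:ℝ) + 1)^(-(5/48) : ℝ))^2 := by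
    rw [← Real.rpow_natCast, ← Real.rpow_mul hn1.le]
    norm_num
  obtain ⟨s, hs⟩ : ∃ s : ℝ, s = (p:ℝ) - 1/2 := ⟨_, rfl⟩
  have hs0 : 0 ≤ s := by rw [hs]; linarith
  rw [← hs]
  -- the case of small `n`
  have small : ∀ (y : ℝ), (3 ≤ n → s^(5/36 : ℝ) ≤ (16 * E)^(5/48 : ℝ) *
      ((n:ℝ) + 1)^(-(5/48) : ℝ)) → y ≤ 8 * E → tauF p x ≤
      (T1 + T2) * ((n:ℝ) + 1)^(-(5/24) : ℝ) * Real.exp (-(b/2 * y)) := by
    intro y h2 h3
    have key : tauF p x ≤ C1^2 * (16 * E)^(5/24 : ℝ) * ((n:ℝ) + 1)^(-(5/24) : ℝ) := by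
      rcases Nat.lt_or_ge n 3 with hn3 | hn3
      · have k1 : tauF p x ≤ 1 := measureReal_le_one
        have k2 : 1 ≤ (16 * E)^(5/24 : ℝ) * ((n:ℝ) + 1)^(-(5/24) : ℝ) := by
          rw [Real.rpow_neg hn1.le, ← div_eq_mul_inv, ← Real.div_rpow (by positivity) hn1.le]
          apply Real.one_le_rpow _ (by norm_num)
          rw [le_div_iff₀ hn1]
          have : (n:ℝ) + 1 ≤ 3 := by
            have : (n:ℝ) ≤ 2 := by exact_mod_cast (by omega : n ≤ 2)
            linarith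
          linarith
        have k3 : 1 ≤ C1^2 := one_le_pow₀ hC1
        nlinarith
      · obtain ⟨m, hm⟩ : ∃ m : ℕ, m = (n - 1)/2 := ⟨_, rfl⟩
        have hm1 : 1 ≤ m := by omega
        have hmn : n + 1 ≤ 8 * m := by omega
        have k1 : tauF p x ≤ (arm p m)^2 := by
          refine (tauF_le_tau p x).trans (tau_le_arm_sq p ?_)
          have : 2 * (m:ℤ) < n := by omega
          rcases x3a with h | h
          · left; omega
          · right; omega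
        have k2 : arm p m ≤ C1 * ((16 * E)^(5/48 : ℝ) * ((n:ℝ) + 1)^(-(5/48) : ℝ)) := by
          have k3 := hup' m hm1
          rw [← hs] at k3
          refine k3.trans (mul_le_mul_of_nonneg_left (max_le ?_ (h2 hn3)) (by linarith))
          have k4 : ((n:ℝ) + 1) / (16 * E) ≤ m := by
            rw [div_le_iff₀ (by positivity)]
            have : (n:ℝ) + 1 ≤ 8 * m := by exact_mod_cast hmn
            have hm0 : (0:ℝ) ≤ m := Nat.cast_nonneg _
            nlinarith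
          calc (m:ℝ)^(-(5/48) : ℝ) ≤ (((n:ℝ) + 1) / (16 * E))^(-(5/48) : ℝ) :=
                Real.rpow_le_rpow_of_nonpos (by positivity) k4 (by norm_num)
            _ = _ := by
                rw [Real.div_rpow hn1.le (by positivity),
                  Real.rpow_neg (by positivity : 0 ≤ 16 * E), div_inv_eq_mul, mul_comm]
        have k5 := pow_le_pow_left₀ (arm_nonneg h0 h1 m) k2 2
        refine k1.trans (k5.trans (le_of_eq ?_))
        rw [hsq16, hsqn]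
        ring
    have h7 : 1 ≤ Real.exp (b/2 * (8 * E)) * Real.exp (-(b/2 * y)) := by
      rw [← Real.exp_add]
      apply Real.one_le_exp
      nlinarith
    have h8 : 0 < Real.exp (-(b/2 * y)) := Real.exp_pos _
    calc tauF p x ≤ C1^2 * (16 * E)^(5/24 : ℝ) * ((n:ℝ) + 1)^(-(5/24) : ℝ) * 1 := by linarith
      _ ≤ C1^2 * (16 * E)^(5/24 : ℝ) * ((n:ℝ) + 1)^(-(5/24) : ℝ) *
          (Real.exp (b/2 * (8 * E)) * Real.exp (-(b/2 * y))) :=
          mul_le_mul_of_nonneg_left h7 (by positivity)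
      _ = T1 * ((n:ℝ) + 1)^(-(5/24) : ℝ) * Real.exp (-(b/2 * y)) := by
          rw [hT1d]; ring
      _ ≤ _ := by
          apply mul_le_mul_of_nonneg_right _ h8.le
          apply mul_le_mul_of_nonneg_right _ hpn.le
          linarith
  rcases hs0.eq_or_lt with hs0' | hs0'
  · apply small
    · intro _
      rw [← hs0', Real.zero_rpow (by norm_num)]
      positivity
    · rw [← hs0', Real.zero_rpow (by norm_num), mul_zero]
      linarith
  · have hp' : 1/2 < (p:ℝ) := by rw [hs] at hs0'; linarith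
    obtain ⟨N, hN2, hxN, hNx, heps⟩ := hfar p hp' h1
    rw [← hs] at hxN hNx
    obtain ⟨z, hz⟩ : ∃ z : ℝ, z = s^(-(4/3) : ℝ) := ⟨_, rfl⟩
    rw [← hz] at hxN hNx
    have hz0 : 0 < z := by rw [hz]; positivity
    have hN0 : (0:ℝ) < N := by exact_mod_cast (by omega : 0 < N)
    obtain ⟨y, hy⟩ : ∃ y : ℝ, y = n * s^(4/3 : ℝ) := ⟨_, rfl⟩
    have hyz : y = n / z := by
      rw [hy, hz, Real.rpow_neg hs0, div_inv_eq_mul]
    have hy0 : 0 ≤ y := by rw [hyz]; positivity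
    have hse : s^(5/36 : ℝ) = z^(-(5/48) : ℝ) := by
      rw [hz, ← Real.rpow_mul hs0]
      norm_num
    rw [← hy]
    rcases lt_or_ge n (8 * N) with hlt | hge
    · have hlt' : (n:ℝ) ≤ 8 * E * z := by
        have : (n:ℝ) ≤ ((8 * N : ℕ) : ℝ) := by exact_mod_cast hlt.le
        push_cast at this
        nlinarith
      apply small y
      · intro hn3
        rw [hse]
        have h2 : ((n:ℝ) + 1) / (16 * E) ≤ z := by
          rw [div_le_iff₀ (by positivity)]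
          have : (3:ℝ) ≤ n := by exact_mod_cast hn3
          nlinarith
        calc z^(-(5/48) : ℝ) ≤ (((n:ℝ) + 1) / (16 * E))^(-(5/48) : ℝ) :=
              Real.rpow_le_rpow_of_nonpos (by positivity) h2 (by norm_num)
          _ = _ := by
              rw [Real.div_rpow hn1.le (by positivity),
                Real.rpow_neg (by positivity : 0 ≤ 16 * E), div_inv_eq_mul, mul_comm]
      · rw [hyz, div_le_iff₀ hz0]
        exact hlt'
    · -- large `n`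
      obtain ⟨m, hm⟩ : ∃ m : ℕ, m = n / (4 * N) := ⟨_, rfl⟩
      have hm1 : 2 ≤ m := by
        rw [hm, Nat.le_div_iff_mul_le (by omega)]
        omega
      obtain ⟨j, hj⟩ : ∃ j : ℕ, j = Nat.log 2 m := ⟨_, rfl⟩
      have hj1 : 2^j ≤ m := by rw [hj]; exact Nat.pow_log_le_self 2 (by omega)
      have hj2 : m < 2^(j+1) := by rw [hj]; exact Nat.lt_pow_succ_log_self (by norm_num) m
      have hjN : 1 ≤ 2^j * N := Nat.mul_pos (by positivity) (by omega)
      have hk1 : 2 * (2^j * N) < n := by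
        have : 2^j * (4 * N) ≤ n := by
          rw [← Nat.le_div_iff_mul_le (by omega : 0 < 4 * N), ← hm]
          exact hj1
        have e : 2^j * (4 * N) = 4 * (2^j * N) := by ring
        omega
      have hk2 : n < 8 * (2^j * N) := by
        have : n < 2^(j+1) * (4 * N) := by
          rw [← Nat.div_lt_iff_lt_mul (by omega : 0 < 4 * N), ← hm]
          exact hj2
        calc n < 2^(j+1) * (4 * N) := this
          _ = 8 * (2^j * N) := by ring
      have d1 := tauF_far p hN2 heps (j := j) (x := x) (by rw [← hn]; exact hk1)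
      have d3 : arm p N ≤ C1 * z^(-(5/48) : ℝ) := by
        have h2 := hup' N (by omega)
        rw [← hs, hse] at h2
        refine h2.trans (mul_le_mul_of_nonneg_left (max_le ?_ le_rfl) (by linarith))
        exact Real.rpow_le_rpow_of_nonpos hz0 hxN (by norm_num)
      have d4 : (1/4 : ℝ)^(2^j) ≤ Real.exp (-(b * y)) := by
        apply quarter_pow_le
        have h2 : (n:ℝ) ≤ 8 * ((2:ℝ)^j * N) := by exact_mod_cast hk2.le
        rw [hb, hyz]
        have h3 : (n:ℝ) ≤ 8 * ((2:ℝ)^j * (E * z)) := by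
          refine h2.trans ?_
          have : (0:ℝ) < 2^j := by positivity
          nlinarith
        rw [div_mul_div_comm, one_mul, div_le_iff₀ (by positivity)]
        linarith
      have d5 : (0:ℝ) ≤ (1/4)^(2^j) := by positivity
      have hnpos : (0:ℝ) < n := by exact_mod_cast (by omega : 0 < n)
      have d7 : z^(-(5/24) : ℝ) = (n:ℝ)^(-(5/24) : ℝ) * y^(5/24 : ℝ) := by
        rw [hyz, Real.div_rpow hn0 hz0.le, Real.rpow_neg hn0, Real.rpow_neg hz0.le]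
        have : (n:ℝ)^(5/24 : ℝ) ≠ 0 := by positivity
        field_simp
      have d8 : (z^(-(5/48) : ℝ))^2 = z^(-(5/24) : ℝ) := by
        rw [← Real.rpow_natCast, ← Real.rpow_mul hz0.le]
        norm_num
      have d9 : (n:ℝ)^(-(5/24) : ℝ) ≤ 2 * ((n:ℝ) + 1)^(-(5/24) : ℝ) := by
        have k1 : ((n:ℝ) + 1) / 2 ≤ n := by
          have : (1:ℝ) ≤ n := by exact_mod_cast (by omega : 1 ≤ n)
          linarith
        calc (n:ℝ)^(-(5/24) : ℝ) ≤ (((n:ℝ) + 1) / 2)^(-(5/24) : ℝ) :=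
              Real.rpow_le_rpow_of_nonpos (by positivity) k1 (by norm_num)
          _ = (2:ℝ)^(5/24 : ℝ) * ((n:ℝ) + 1)^(-(5/24) : ℝ) := by
              rw [Real.div_rpow hn1.le (by norm_num), Real.rpow_neg (by norm_num : (0:ℝ) ≤ 2),
                div_inv_eq_mul, mul_comm]
          _ ≤ _ := by
              apply mul_le_mul_of_nonneg_right _ hpn.le
              calc (2:ℝ)^(5/24 : ℝ) ≤ (2:ℝ)^(1:ℝ) :=
                    Real.rpow_le_rpow_of_exponent_le (by norm_num) (by norm_num)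
                _ = 2 := Real.rpow_one _
      have hX : 0 < Real.exp (-(b/2 * y)) := Real.exp_pos _
      calc tauF p x ≤ (arm p N)^2 * (1/4 : ℝ)^(2^j) := d1
        _ ≤ (C1 * z^(-(5/48) : ℝ))^2 * Real.exp (-(b * y)) :=
            mul_le_mul (pow_le_pow_left₀ (arm_nonneg h0 h1 N) d3 2) d4 d5 (by positivity)
        _ = (C1^2 * (n:ℝ)^(-(5/24) : ℝ)) * (y^(5/24 : ℝ) * Real.exp (-(b * y))) := by
            rw [mul_pow, d8, d7]; ring
        _ ≤ (C1^2 * (2 * ((n:ℝ) + 1)^(-(5/24) : ℝ))) *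
            ((1 + 4/b)^2 * Real.exp (-(b/2 * y))) := by
            apply mul_le_mul _ (pow_exp_le2 hb0 hy0) (by positivity) (by positivity)
            exact mul_le_mul_of_nonneg_left d9 (by positivity)
        _ = T2 * ((n:ℝ) + 1)^(-(5/24) : ℝ) * Real.exp (-(b/2 * y)) := by
            rw [hT2d]; ring
        _ ≤ _ := by
            apply mul_le_mul_of_nonneg_right _ hX.le
            apply mul_le_mul_of_nonneg_right _ hpn.le
            linarith

/-! ### lower bound -/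

theorem tauF_ge (p : unitInterval) {k : ℕ} (hk : 1 ≤ k) (x : ℤ × ℤ) :
    Pr (fun _ => (p:ℝ)) (boxE k) (TP x) * (1 - hh (p:ℝ) k (4 * k))^4 ≤ tauF p x := by
  have h0 : (0:ℝ) ≤ p := p.2.1
  have h1 : (p:ℝ) ≤ 1 := p.2.2
  have ok := okq h0 h1
  have hd : Disjoint (boxE k) (annE k (2 * k)) := Finset.disjoint_sdiff
  have hs1 : boxE k ⊆ boxE (2 * k) := boxE_mono (by omega)
  have hs2 : annE k (2 * k) ⊆ boxE (2 * k) := Finset.sdiff_subset
  have e1 : Pr (fun _ => (p:ℝ)) (boxE (2 * k)) (fun F => TP x (F ∩ boxE k) ∧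
      Blk k (2 * k : ℕ) F) = Pr (fun _ => (p:ℝ)) (boxE (2 * k)) (fun F => TP x (F ∩ boxE k)) *
      Pr (fun _ => (p:ℝ)) (boxE (2 * k)) (Blk k (2 * k : ℕ)) := by
    apply Pr_indep hs1 hs2 hd
    · intro F _
      rw [Finset.inter_assoc, Finset.inter_self]
    · intro F _
      exact Blk_local (by omega) (Finset.Subset.refl _) F
  have e2 := pr_Blk_ge h0 h1 hk hs2
  have e3 : Pr (fun _ => (p:ℝ)) (boxE (2 * k)) (fun F => TP x (F ∩ boxE k)) =
      Pr (fun _ => (p:ℝ)) (boxE k) (TP x) := by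
    rw [Pr_local hs1 (A := fun F => TP x (F ∩ boxE k)) (fun F _ => by
      rw [Finset.inter_assoc, Finset.inter_self])]
    apply Pr_congr
    intro F hF
    rw [Finset.inter_eq_left.2 hF]
  have e4 : Pr (fun _ => (p:ℝ)) (boxE (2 * k)) (fun F => TP x (F ∩ boxE k) ∧
      Blk k (2 * k : ℕ) F) ≤ tauF p x := by
    rw [← law_event p (boxE (2 * k)) (fun F => TP x (F ∩ boxE k) ∧ Blk k (2 * k : ℕ) F)]
    unfold tauF
    refine measureReal_mono ?_
    rintro ω ⟨hω1, hω2⟩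
    refine ⟨?_, (finite_iff ω).2 ⟨2 * k, ?_⟩⟩
    · have h2 : Reach (↑(FF (boxE (2 * k)) ω ∩ boxE k) : Set Edg) (0, 0) x := hω1
      refine (open_reach ω _ _).mpr (h2.mono ?_)
      rw [Finset.coe_inter, FF_coe]
      rintro e ⟨⟨h3, -⟩, -⟩
      exact h3
    · rintro ⟨v, hv, hr⟩
      have hb : ¬ Blk k (2 * k : ℕ) (FF (boxE (2 * k)) ω) := by
        apply not_blk_of_arm (by positivity) (by push_cast; omega)
          (hr.mono Set.inter_subset_left)
        obtain ⟨h2, h3⟩ := hv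
        unfold inR at h2
        omega
      exact hb hω2
  rw [e1, e3] at e4
  exact (mul_le_mul_of_nonneg_left e2 (Pr_nonneg ok _ _)).trans e4

/-- Lower bound for the truncated two-point function at and above the critical point. -/
theorem tauF_lower : ∃ A c : ℝ, 0 < A ∧ 0 < c ∧ ∀ p : unitInterval, (1/2 : ℝ) ≤ p →
    (p:ℝ) ≤ 3/4 → ∀ x : ℤ × ℤ, c * ((nm x : ℝ) + 1)^(-(5/24) : ℝ) *
      Real.exp (-(A * (nm x * ((p:ℝ) - 1/2)^(4/3 : ℝ)))) ≤ tauF p x := by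
  obtain ⟨c1, C1, hc1, hC1, hlow⟩ := win_lower_dual 4 (by norm_num)
  obtain ⟨cc, C, hcc, hC, harm⟩ := Pool.Agent.W424.NC.arm_crit
  obtain ⟨κ, hκ, hW⟩ := H12S.win_half
  obtain ⟨D, hD⟩ : ∃ D : ℝ, D = (cc * (2:ℝ)^(-(5/48) : ℝ))^2 * κ^8 * κ^2 * c1^4 *
    Real.exp (-(4 * C1 * 3)) := ⟨_, rfl⟩
  have hD0 : 0 < D := by rw [hD]; positivity
  refine ⟨4 * C1 * 3, D, by positivity, hD0, ?_⟩
  intro p hp hp' x
  have h0 : (0:ℝ) ≤ p := p.2.1
  have h1 : (p:ℝ) ≤ 1 := p.2.2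
  have okp := okq h0 h1
  obtain ⟨r, hr⟩ : ∃ r : ℕ, r = nm x := ⟨_, rfl⟩
  obtain ⟨x1a, x2a, x3a⟩ := nm_eq x
  rw [← hr] at x1a x2a x3a ⊢
  obtain ⟨n, hn⟩ : ∃ n : ℕ, n = max 1 r := ⟨_, rfl⟩
  have hn1 : 1 ≤ n := by omega
  have hnr : r ≤ n := by omega
  have hnr' : n ≤ r + 1 := by omega
  have hn0 : (0:ℝ) < n := by exact_mod_cast hn1
  have hr0 : (0:ℝ) ≤ r := Nat.cast_nonneg _
  obtain ⟨s, hs⟩ : ∃ s : ℝ, s = ((p:ℝ) - 1/2)^(4/3 : ℝ) := ⟨_, rfl⟩
  have hs0 : 0 ≤ s := by rw [hs]; exact Real.rpow_nonneg (by linarith) _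
  have hs1 : s ≤ 1 := by
    rw [hs]
    exact Real.rpow_le_one (by linarith) (by linarith) (by norm_num)
  rw [← hs]
  -- the connection inside the box
  have a1 := two_far (hW (2 * n)) hn1 le_rfl (x1 := x.1) (x2 := x.2)
    (by refine x1a.trans ?_; exact_mod_cast hnr) (by refine x2a.trans ?_; exact_mod_cast hnr)
  have a2 : Pr (fun _ => (1/2:ℝ)) (boxE (3 * n)) (TP (x.1, x.2)) ≤
      Pr (fun _ => (p:ℝ)) (boxE (3 * n)) (TP (x.1, x.2)) := by
    apply Pr_mono_param (okq (by norm_num) (by norm_num)) okp (fun _ => hp)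
    intro F G hFG _ hF
    exact Reach.mono (by exact_mod_cast hFG) hF
  have a3 : κ ≤ hh (1/2) ((5 * n : ℕ) : ℤ) n := by
    refine ((hW n).pri n hn1 le_rfl).trans ?_
    apply hh_mono (by norm_num) (by norm_num)
    · push_cast; omega
    · push_cast; omega
    · push_cast; omega
  have a4 : cc * (2:ℝ)^(-(5/48) : ℝ) * (n:ℝ)^(-(5/48) : ℝ) ≤ arm (1/2) (2 * n) := by
    refine le_trans (le_of_eq ?_) (harm (2 * n) (by omega)).1
    push_cast
    rw [Real.mul_rpow (by norm_num) hn0.le]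
    ring
  have a5 : (cc * (2:ℝ)^(-(5/48) : ℝ) * (n:ℝ)^(-(5/48) : ℝ))^2 * κ^8 * κ^2 ≤
      (arm (1/2) (2 * n))^2 * κ^8 * (hh (1/2) ((5 * n : ℕ) : ℤ) n)^2 := by
    apply mul_le_mul
    · apply mul_le_mul_of_nonneg_right _ (by positivity)
      exact pow_le_pow_left₀ (by positivity) a4 2
    · exact pow_le_pow_left₀ hκ.le a3 2
    · positivity
    · positivity
  have a6 : (cc * (2:ℝ)^(-(5/48) : ℝ) * (n:ℝ)^(-(5/48) : ℝ))^2 * κ^8 * κ^2 ≤
      Pr (fun _ => (p:ℝ)) (boxE (3 * n)) (TP x) := a5.trans (a1.trans a2)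
  -- the closed circuit
  have b1 := hlow (1 - p) (by linarith) (by linarith) (3 * n) (4 * (3 * n)) (by omega)
    (by omega) (by omega) (by omega)
  have e1 : (1:ℝ) - (1 - (p:ℝ)) = p := by ring
  have e2 : 1/2 - (1 - (p:ℝ)) = p - 1/2 := by ring
  rw [e1, e2, ← hs] at b1
  have b2 : (c1 * Real.exp (-(C1 * (((3 * n : ℕ) : ℝ) * s))))^4 ≤
      (1 - hh (p:ℝ) ((3 * n : ℕ) : ℤ) (4 * ((3 * n : ℕ) : ℤ)))^4 := by
    push_cast at b1 ⊢
    exact pow_le_pow_left₀ (by positivity) b1 4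
  have b3 := tauF_ge p (k := 3 * n) (by omega) x
  have b4 : c1^4 * Real.exp (-(4 * C1 * 3)) * Real.exp (-(4 * C1 * 3 * (r * s))) ≤
      (c1 * Real.exp (-(C1 * (((3 * n : ℕ) : ℝ) * s))))^4 := by
    rw [mul_pow, ← Real.exp_nat_mul, mul_assoc, ← Real.exp_add]
    apply mul_le_mul_of_nonneg_left _ (by positivity)
    apply Real.exp_le_exp.2
    push_cast
    have k1 : (n:ℝ) ≤ r + 1 := by exact_mod_cast hnr'
    have k2 : (n:ℝ) * s ≤ (r + 1) * s := mul_le_mul_of_nonneg_right k1 hs0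
    nlinarith
  have b5 : ((r:ℝ) + 1)^(-(5/24) : ℝ) ≤ ((n:ℝ)^(-(5/48) : ℝ))^2 := by
    rw [← Real.rpow_natCast, ← Real.rpow_mul hn0.le]
    norm_num
    apply Real.rpow_le_rpow_of_nonpos hn0 (by exact_mod_cast hnr') (by norm_num)
  calc D * ((r:ℝ) + 1)^(-(5/24) : ℝ) * Real.exp (-(4 * C1 * 3 * (r * s)))
      ≤ D * ((n:ℝ)^(-(5/48) : ℝ))^2 * Real.exp (-(4 * C1 * 3 * (r * s))) := by
        apply mul_le_mul_of_nonneg_right _ (Real.exp_pos _).le
        exact mul_le_mul_of_nonneg_left b5 hD0.le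
    _ = ((cc * (2:ℝ)^(-(5/48) : ℝ) * (n:ℝ)^(-(5/48) : ℝ))^2 * κ^8 * κ^2) *
        (c1^4 * Real.exp (-(4 * C1 * 3)) * Real.exp (-(4 * C1 * 3 * (r * s)))) := by
        rw [hD]; ring
    _ ≤ Pr (fun _ => (p:ℝ)) (boxE (3 * n)) (TP x) *
        (1 - hh (p:ℝ) ((3 * n : ℕ) : ℤ) (4 * ((3 * n : ℕ) : ℤ)))^4 :=
        mul_le_mul a6 (b4.trans b2) (by positivity) (Pr_nonneg okp _ _)
    _ ≤ _ := b3

theorem tauF_eq {p : unitInterval} (hp : (p:ℝ) ≤ 1/2) (x : ℤ × ℤ) : tauF p x = tau p x := by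
  apply le_antisymm (tauF_le_tau p x)
  have h1 : {ω | x ∈ cluster0 ω} ⊆ {ω | x ∈ cluster0 ω ∧ (cluster0 ω).Finite} ∪
      {ω | (cluster0 ω).Infinite} := by
    intro ω hω
    rcases Set.finite_or_infinite (cluster0 ω) with h | h
    · exact Or.inl ⟨hω, h⟩
    · exact Or.inr h
  have h2 : (bondLaw p).real {ω | (cluster0 ω).Infinite} = 0 := theta_half_le hp
  calc tau p x ≤ _ := measureReal_mono h1
    _ ≤ _ := measureReal_union_le _ _
    _ = tauF p x := by rw [h2, add_zero]; rfl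

/-- **The truncated two-point function near the critical point.** -/
theorem two_sides : ∃ a A c C : ℝ, 0 < a ∧ 0 < A ∧ 0 < c ∧ 0 < C ∧
    ∀ p : unitInterval, (1/4 : ℝ) ≤ p → (p:ℝ) ≤ 3/4 → ∀ x : ℤ × ℤ,
      c * ((nm x : ℝ) + 1)^(-(5/24) : ℝ) *
          Real.exp (-(A * (nm x * |(p:ℝ) - 1/2|^(4/3 : ℝ)))) ≤ tauF p x ∧
      tauF p x ≤ C * ((nm x : ℝ) + 1)^(-(5/24) : ℝ) *
          Real.exp (-(a * (nm x * |(p:ℝ) - 1/2|^(4/3 : ℝ)))) := by
  obtain ⟨a1, C1, ha1, hC1, u1⟩ := tauF_upper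
  obtain ⟨A1, c1, hA1, hc1, l1⟩ := tauF_lower
  obtain ⟨a2, C2, ha2, hC2, u2⟩ := Pool.Agent.W424.NC.tau_upper
  obtain ⟨c2, A2, hc2, hA2, l2⟩ := Pool.Agent.W424.NC.tau_lower
  refine ⟨min a1 a2, max A1 A2, min c1 c2, max C1 C2, lt_min ha1 ha2, lt_max_of_lt_left hA1,
    lt_min hc1 hc2, lt_max_of_lt_left hC1, ?_⟩
  intro p hp1 hp2 x
  have hpn : 0 < ((nm x : ℝ) + 1)^(-(5/24) : ℝ) := by positivity
  have comp : ∀ {c c' A A' y : ℝ}, 0 ≤ y → c ≤ c' → 0 ≤ c' → A' ≤ A →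
      c * ((nm x : ℝ) + 1)^(-(5/24) : ℝ) * Real.exp (-(A * y)) ≤
        c' * ((nm x : ℝ) + 1)^(-(5/24) : ℝ) * Real.exp (-(A' * y)) := by
    intro c c' A A' y hy hc hc' hA
    have e1 : Real.exp (-(A * y)) ≤ Real.exp (-(A' * y)) := by
      apply Real.exp_le_exp.2
      nlinarith
    have e2 : 0 < Real.exp (-(A * y)) := Real.exp_pos _
    calc c * ((nm x : ℝ) + 1)^(-(5/24) : ℝ) * Real.exp (-(A * y)) ≤
          c' * ((nm x : ℝ) + 1)^(-(5/24) : ℝ) * Real.exp (-(A * y)) := by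
          apply mul_le_mul_of_nonneg_right _ e2.le
          exact mul_le_mul_of_nonneg_right hc hpn.le
      _ ≤ _ := mul_le_mul_of_nonneg_left e1 (by positivity)
  rcases le_total (p:ℝ) (1/2) with h | h
  · have e1 : |(p:ℝ) - 1/2| = 1/2 - p := by rw [abs_sub_comm, abs_of_nonneg (by linarith)]
    have hy : 0 ≤ nm x * (1/2 - (p:ℝ))^(4/3 : ℝ) :=
      mul_nonneg (Nat.cast_nonneg _) (Real.rpow_nonneg (by linarith) _)
    rw [e1, tauF_eq h]
    have u := u2 p h x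
    have l := l2 p hp1 h x
    exact ⟨(comp hy (min_le_right _ _) hc2.le (le_max_right _ _)).trans l,
      u.trans (comp hy (le_max_right _ _) (lt_max_of_lt_left hC1).le (min_le_right _ _))⟩
  · have e1 : |(p:ℝ) - 1/2| = p - 1/2 := abs_of_nonneg (by linarith)
    have hy : 0 ≤ nm x * ((p:ℝ) - 1/2)^(4/3 : ℝ) :=
      mul_nonneg (Nat.cast_nonneg _) (Real.rpow_nonneg (by linarith) _)
    rw [e1]
    exact ⟨(comp hy (min_le_left _ _) hc1.le (le_max_left _ _)).trans (l1 p h hp2 x),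
      (u1 p h x).trans (comp hy (le_max_left _ _) (lt_max_of_lt_left hC1).le
        (min_le_left _ _))⟩

end Pool.Agent.V11321.RS
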